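import Mathlib

/-! Construction of the differential polynomial ring `R[x; δ]` of a (noncommutative) ring. -/

set_option autoImplicit false

namespace Pool.Agent.H22

section DP

variable {R : Type} [Ring R] (δ : R →+ R)

/-- Left multiplication on coefficient sequences. -/
noncomputable def Lop : R →+* AddMonoid.End (ℕ →₀ R) where
  toFun r := Finsupp.mapRange.addMonoidHom (AddMonoidHom.mulLeft r)
  map_one' := AddMonoidHom.ext fun m => Finsupp.ext fun n => one_mul (m n)
  map_mul' r s := AddMonoidHom.ext fun m => Finsupp.ext fun n => mul_assoc r s (m n)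
  map_zero' := AddMonoidHom.ext fun m => Finsupp.ext fun n => zero_mul (m n)
  map_add' r s := AddMonoidHom.ext fun m => Finsupp.ext fun n => add_mul r s (m n)

theorem Lop_single (r : R) (n : ℕ) (a : R) :
    Lop r (Finsupp.single n a) = Finsupp.single n (r * a) := by
  change Finsupp.mapRange.addMonoidHom (AddMonoidHom.mulLeft r) (Finsupp.single n a) = _
  simp

/-- The operator of multiplication by `x`. -/
noncomputable def Xop : AddMonoid.End (ℕ →₀ R) :=
  Finsupp.mapDomain.addMonoidHom (fun n => n + 1) + Finsupp.mapRange.addMonoidHom δ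

theorem Xop_single (n : ℕ) (a : R) :
    Xop δ (Finsupp.single n a) = Finsupp.single (n + 1) a + Finsupp.single n (δ a) := by
  change Finsupp.mapDomain.addMonoidHom (fun n => n + 1) (Finsupp.single n a) +
    Finsupp.mapRange.addMonoidHom δ (Finsupp.single n a) = _
  simp

variable {δ} (hδ : ∀ a b : R, δ (a * b) = δ a * b + a * δ b)

include hδ in
theorem Xop_mul_Lop (r : R) : Xop δ * Lop r = Lop r * Xop δ + Lop (δ r) := by
  refine AddMonoidHom.ext fun m => ?_
  change Xop δ (Lop r m) = Lop r (Xop δ m) + Lop (δ r) m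
  induction m using Finsupp.induction_linear with
  | zero => simp
  | add f g hf hg => rw [map_add, map_add, hf, hg, map_add, map_add, map_add]; abel
  | single n a =>
    rw [Lop_single, Xop_single, Xop_single, map_add, Lop_single, Lop_single, Lop_single, hδ,
      add_comm (δ r * a), Finsupp.single_add]
    abel

variable (δ) in
/-- Polynomial expressions as operators. -/
noncomputable def Psi : (ℕ →₀ R) →+ AddMonoid.End (ℕ →₀ R) :=
  Finsupp.liftAddHom (fun n => (AddMonoidHom.mulRight (Xop δ ^ n)).comp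
    (Lop (R := R)).toAddMonoidHom)

theorem Psi_single (n : ℕ) (a : R) : Psi δ (Finsupp.single n a) = Lop a * Xop δ ^ n := by
  simp [Psi]

theorem Psi_apply (c : ℕ →₀ R) : Psi δ c = c.sum (fun n a => Lop a * Xop δ ^ n) := rfl

include hδ in
theorem delta_one : δ 1 = 0 := by
  have := hδ 1 1
  simp only [mul_one, one_mul] at this
  exact left_eq_add.mp this

include hδ in
theorem Xop_pow_one (n : ℕ) :
    (Xop δ ^ n) (Finsupp.single 0 (1 : R)) = Finsupp.single n 1 := by
  induction n with
  | zero => rfl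
  | succ n ih =>
    rw [pow_succ']
    change Xop δ ((Xop δ ^ n) (Finsupp.single 0 (1 : R))) = _
    rw [ih, Xop_single, delta_one hδ, Finsupp.single_zero, add_zero]

include hδ in
theorem Psi_eval (c : ℕ →₀ R) : Psi δ c (Finsupp.single 0 (1 : R)) = c := by
  induction c using Finsupp.induction_linear with
  | zero => simp
  | add f g hf hg =>
    rw [map_add]
    change Psi δ f _ + Psi δ g _ = _
    rw [hf, hg]
  | single n a =>
    rw [Psi_single]
    change Lop a ((Xop δ ^ n) (Finsupp.single 0 (1 : R))) = _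
    rw [Xop_pow_one hδ, Lop_single, mul_one]

include hδ in
theorem Xop_mul_range (T : AddMonoid.End (ℕ →₀ R)) (hT : T ∈ (Psi δ).range) :
    Xop δ * T ∈ (Psi δ).range := by
  obtain ⟨c, rfl⟩ := hT
  induction c using Finsupp.induction_linear with
  | zero => rw [map_zero, mul_zero]; exact zero_mem _
  | add f g hf hg => rw [map_add, mul_add]; exact add_mem hf hg
  | single n a =>
    rw [Psi_single, ← mul_assoc, Xop_mul_Lop hδ, add_mul, mul_assoc, ← pow_succ']
    refine add_mem ⟨Finsupp.single (n + 1) a, Psi_single _ _⟩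
      ⟨Finsupp.single n (δ a), Psi_single _ _⟩

theorem Lop_mul_range (r : R) (T : AddMonoid.End (ℕ →₀ R)) (hT : T ∈ (Psi δ).range) :
    Lop r * T ∈ (Psi δ).range := by
  obtain ⟨c, rfl⟩ := hT
  induction c using Finsupp.induction_linear with
  | zero => rw [map_zero, mul_zero]; exact zero_mem _
  | add f g hf hg => rw [map_add, mul_add]; exact add_mem hf hg
  | single n a =>
    rw [Psi_single, ← mul_assoc, ← map_mul]
    exact ⟨Finsupp.single n (r * a), Psi_single _ _⟩

include hδ in
theorem mul_range (S T : AddMonoid.End (ℕ →₀ R)) (hS : S ∈ (Psi δ).range)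
    (hT : T ∈ (Psi δ).range) : S * T ∈ (Psi δ).range := by
  obtain ⟨c, rfl⟩ := hS
  induction c using Finsupp.induction_linear with
  | zero => rw [map_zero, zero_mul]; exact zero_mem _
  | add f g hf hg => rw [map_add, add_mul]; exact add_mem hf hg
  | single n a =>
    rw [Psi_single, mul_assoc]
    refine Lop_mul_range a _ ?_
    induction n with
    | zero => rwa [pow_zero, one_mul]
    | succ n ih =>
      rw [pow_succ', mul_assoc]
      exact Xop_mul_range hδ _ ih

variable (δ) in
/-- The differential polynomial ring as a ring of operators. -/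
noncomputable def DPR (hδ : ∀ a b : R, δ (a * b) = δ a * b + a * δ b) :
    Subring (AddMonoid.End (ℕ →₀ R)) where
  carrier := {T | T ∈ (Psi δ).range}
  mul_mem' := fun {S T} hS hT => by
    change S * T ∈ (Psi δ).range
    exact mul_range hδ S T hS hT
  one_mem' := by
    change (1 : AddMonoid.End (ℕ →₀ R)) ∈ (Psi δ).range
    exact ⟨Finsupp.single 0 1, by rw [Psi_single, pow_zero, mul_one, map_one]⟩
  add_mem' := fun {S T} hS hT => by
    change S + T ∈ (Psi δ).range
    exact add_mem hS hT
  zero_mem' := by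
    change (0 : AddMonoid.End (ℕ →₀ R)) ∈ (Psi δ).range
    exact zero_mem _
  neg_mem' := fun {S} hS => by
    change -S ∈ (Psi δ).range
    exact neg_mem hS

theorem mem_DPR (T : AddMonoid.End (ℕ →₀ R)) : T ∈ DPR δ hδ ↔ T ∈ (Psi δ).range := Iff.rfl

variable (δ) in
/-- The coefficient embedding. -/
noncomputable def DPf (hδ : ∀ a b : R, δ (a * b) = δ a * b + a * δ b) : R →+* DPR δ hδ :=
  (Lop (R := R)).codRestrict (DPR δ hδ) (fun r => by
    rw [mem_DPR]
    exact ⟨Finsupp.single 0 r, by rw [Psi_single, pow_zero, mul_one]⟩)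

variable (δ) in
/-- The variable. -/
noncomputable def DPx (hδ : ∀ a b : R, δ (a * b) = δ a * b + a * δ b) : DPR δ hδ :=
  ⟨Xop δ, by
    rw [mem_DPR]
    exact ⟨Finsupp.single 1 1, by rw [Psi_single, pow_one, map_one, one_mul]⟩⟩

theorem DP_comm (r : R) : DPx δ hδ * DPf δ hδ r = DPf δ hδ r * DPx δ hδ + DPf δ hδ (δ r) := by
  apply Subtype.ext
  exact Xop_mul_Lop hδ r

theorem DP_coe_sum (c : ℕ →₀ R) :
    ((c.sum (fun n a => DPf δ hδ a * DPx δ hδ ^ n) : DPR δ hδ) : AddMonoid.End (ℕ →₀ R)) =
      Psi δ c := by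
  rw [Psi_apply, Finsupp.sum, Finsupp.sum, AddSubmonoidClass.coe_finsetSum]
  rfl

theorem DP_free (s : DPR δ hδ) : ∃! c : ℕ →₀ R, s = c.sum (fun n a => DPf δ hδ a * DPx δ hδ ^ n) := by
  obtain ⟨c, hc⟩ := (mem_DPR hδ _).mp s.2
  refine ⟨c, ?_, ?_⟩
  · apply Subtype.ext
    rw [DP_coe_sum, hc]
  · intro c' hc'
    have h1 : Psi δ c' = Psi δ c := by
      rw [← DP_coe_sum hδ c', ← hc', hc]
    rw [← Psi_eval hδ c', h1, Psi_eval hδ c]

end DP

end Pool.Agent.H22
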