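import Mathlib

/-! Semilinear algebra: existence of an element of a two-generated algebra that acts as zero
in a semilinear representation but has nonzero abelianisation. -/

set_option autoImplicit false

namespace Pool.Agent.H22

open Polynomial

section SL

variable {F : Type*} [Field F] [Algebra ℚ F] (σ : F ≃ₐ[ℚ] F)
variable {V : Type*} [AddCommGroup V] [Module F V] [Module ℚ V]

/-- `T` is semilinear with respect to the `n`-th power of `σ`. -/
def IsSL (n : ℕ) (T : Module.End ℚ V) : Prop :=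
  ∀ (c : F) (v : V), T (c • v) = ((σ ^ n) c) • T v

variable {σ}

theorem IsSL.one : IsSL σ 0 (1 : Module.End ℚ V) := by
  intro c v
  simp

theorem IsSL.mul {n m : ℕ} {T T' : Module.End ℚ V} (h : IsSL σ n T) (h' : IsSL σ m T') :
    IsSL σ (n + m) (T * T') := by
  intro c v
  rw [Module.End.mul_apply, h', h, Module.End.mul_apply, pow_add]
  rfl

theorem IsSL.pow {n : ℕ} {T : Module.End ℚ V} (h : IsSL σ n T) (k : ℕ) :
    IsSL σ (n * k) (T ^ k) := by
  induction k with
  | zero => simpa using IsSL.one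
  | succ k ih =>
    rw [pow_succ, Nat.mul_succ]
    exact ih.mul h

/-- The image of an `F`-subspace under a semilinear operator. -/
def imgSL {n : ℕ} {T : Module.End ℚ V} (h : IsSL σ n T) (W : Submodule F V) : Submodule F V where
  carrier := T '' W
  add_mem' := by
    rintro _ _ ⟨a, ha, rfl⟩ ⟨b, hb, rfl⟩
    exact ⟨a + b, W.add_mem ha hb, map_add T a b⟩
  zero_mem' := ⟨0, W.zero_mem, map_zero T⟩
  smul_mem' := by
    rintro c _ ⟨a, ha, rfl⟩
    refine ⟨((σ ^ n).symm c) • a, W.smul_mem _ ha, ?_⟩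
    rw [h]
    simp

theorem mem_imgSL {n : ℕ} {T : Module.End ℚ V} (h : IsSL σ n T) (W : Submodule F V) (v : V) :
    v ∈ imgSL h W ↔ ∃ w ∈ W, T w = v := Iff.rfl

/-- Kernel of a semilinear operator inside an `F`-subspace. -/
def kerSL {n : ℕ} {T : Module.End ℚ V} (h : IsSL σ n T) (W : Submodule F V) : Submodule F V where
  carrier := {w | w ∈ W ∧ T w = 0}
  add_mem' := by
    rintro a b ⟨ha, ha'⟩ ⟨hb, hb'⟩
    exact ⟨W.add_mem ha hb, by rw [map_add, ha', hb', add_zero]⟩
  zero_mem' := ⟨W.zero_mem, map_zero T⟩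
  smul_mem' := by
    rintro c a ⟨ha, ha'⟩
    exact ⟨W.smul_mem _ ha, by rw [h, ha', smul_zero]⟩

theorem mem_kerSL {n : ℕ} {T : Module.End ℚ V} (h : IsSL σ n T) (W : Submodule F V) (v : V) :
    v ∈ kerSL h W ↔ v ∈ W ∧ T v = 0 := Iff.rfl

theorem surj_of_inj [FiniteDimensional F V] {n : ℕ} {T : Module.End ℚ V} (h : IsSL σ n T)
    (W : Submodule F V) (hW : ∀ w ∈ W, T w ∈ W) (hinj : ∀ w ∈ W, T w = 0 → w = 0) :
    ∀ w ∈ W, ∃ w' ∈ W, T w' = w := by
  have hWk : ∀ k : ℕ, ∀ w ∈ W, (T ^ k) w ∈ W := by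
    intro k
    induction k with
    | zero => intro w hw; simpa using hw
    | succ k ih =>
      intro w hw
      rw [pow_succ']
      exact hW _ (ih w hw)
  have hinjk : ∀ k : ℕ, ∀ w ∈ W, (T ^ k) w = 0 → w = 0 := by
    intro k
    induction k with
    | zero => intro w hw h0; simpa using h0
    | succ k ih =>
      intro w hw h0
      rw [pow_succ'] at h0
      exact ih w hw (hinj _ (hWk k w hw) h0)
  let f : ℕ →o (Submodule F V)ᵒᵈ :=
    { toFun := fun k => OrderDual.toDual (imgSL (h.pow k) W)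
      monotone' := by
        intro a b hab
        obtain ⟨c, rfl⟩ := Nat.exists_eq_add_of_le hab
        change imgSL (h.pow (a + c)) W ≤ imgSL (h.pow a) W
        rintro _ ⟨w, hw, rfl⟩
        refine ⟨(T ^ c) w, hWk c w hw, ?_⟩
        rw [pow_add]
        rfl }
  obtain ⟨N, hN⟩ := IsArtinian.monotone_stabilizes f
  have hN' : imgSL (h.pow N) W = imgSL (h.pow (N + 1)) W := hN (N + 1) (Nat.le_succ N)
  intro w hw
  have h1 : (T ^ N) w ∈ imgSL (h.pow N) W := ⟨w, hw, rfl⟩
  rw [hN'] at h1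
  obtain ⟨w', hw', h2⟩ := h1
  refine ⟨w', hw', ?_⟩
  have h3 : (T ^ N) (T w' - w) = 0 := by
    rw [map_sub, ← h2, pow_succ]
    simp
  have := hinjk N _ (W.sub_mem (hW _ hw') hw) h3
  exact sub_eq_zero.mp this

theorem inj_of_surj [FiniteDimensional F V] {n : ℕ} {T : Module.End ℚ V} (h : IsSL σ n T)
    (W : Submodule F V) (hsurj : ∀ w ∈ W, ∃ w' ∈ W, T w' = w) :
    ∀ w ∈ W, T w = 0 → w = 0 := by
  have hsurjk : ∀ k : ℕ, ∀ w ∈ W, ∃ w' ∈ W, (T ^ k) w' = w := by
    intro k
    induction k with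
    | zero => intro w hw; exact ⟨w, hw, by simp⟩
    | succ k ih =>
      intro w hw
      obtain ⟨w1, hw1, h1⟩ := ih w hw
      obtain ⟨w2, hw2, h2⟩ := hsurj w1 hw1
      exact ⟨w2, hw2, by rw [pow_succ, Module.End.mul_apply, h2, h1]⟩
  let f : ℕ →o Submodule F V :=
    { toFun := fun k => kerSL (h.pow k) W
      monotone' := by
        intro a b hab
        obtain ⟨c, rfl⟩ := Nat.exists_eq_add_of_le hab
        rintro w ⟨hw, hw0⟩
        refine ⟨hw, ?_⟩
        rw [add_comm a c, pow_add, Module.End.mul_apply, hw0, map_zero] }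
  obtain ⟨N, hN⟩ := (monotone_stabilizes_iff_noetherian (R := F) (M := V)).mpr inferInstance f
  have hN' : kerSL (h.pow N) W = kerSL (h.pow (N + 1)) W := hN (N + 1) (Nat.le_succ N)
  intro w hw h0
  obtain ⟨w', hw', h1⟩ := hsurjk N w hw
  have h2 : w' ∈ kerSL (h.pow (N + 1)) W := ⟨hw', by
    rw [pow_succ', Module.End.mul_apply, h1, h0]⟩
  rw [← hN'] at h2
  rw [← h1, h2.2]

end SL

end Pool.Agent.H22
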