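import Mathlib
import Pool.Agent.H22.SL

set_option autoImplicit false

namespace Pool.Agent.H22

open Polynomial

/-- Powers of a nonconstant polynomial are linearly independent, shifted version. -/
theorem sum_pow_ne_zero (k : ℚ[X]) (hk : 1 ≤ k.natDegree) (e m : ℕ) (hm : 1 ≤ m) (N : ℕ)
    (g : ℕ → ℚ) (hg : ∃ a < N, g a ≠ 0) :
    (∑ a ∈ Finset.range N, C (g a) * k ^ (e + m * a)) ≠ 0 := by
  have hk0 : k ≠ 0 := by
    rintro rfl
    simp at hk
  set p : ℚ[X] := ∑ a ∈ Finset.range N, C (g a) * X ^ a with hp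
  have hpc : ∀ b < N, p.coeff b = g b := by
    intro b hb
    rw [hp, finsetSum_coeff]
    simp only [coeff_C_mul, coeff_X_pow]
    rw [Finset.sum_eq_single b]
    · simp
    · intro c _ hcb
      simp [Ne.symm hcb]
    · intro h
      exact absurd (Finset.mem_range.mpr hb) h
  have hp0 : p ≠ 0 := by
    obtain ⟨a, ha, hga⟩ := hg
    intro h
    have := hpc a ha
    rw [h] at this
    simp at this
    exact hga this.symm
  have h1 : (∑ a ∈ Finset.range N, C (g a) * k ^ (e + m * a)) = k ^ e * p.comp (k ^ m) := by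
    rw [hp, Polynomial.sum_comp, Finset.mul_sum]
    refine Finset.sum_congr rfl fun a _ => ?_
    simp only [mul_comp, C_comp, X_pow_comp]
    rw [pow_add, pow_mul]
    ring
  rw [h1]
  refine mul_ne_zero (pow_ne_zero _ hk0) ?_
  intro h
  rw [Polynomial.comp_eq_zero_iff] at h
  rcases h with h | ⟨_, h⟩
  · exact hp0 h
  · have h2 : (k ^ m).natDegree = 0 := by
      rw [h]
      exact natDegree_C _
    rw [natDegree_pow] at h2
    have : 1 ≤ m * k.natDegree := Nat.mul_pos hm hk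
    omega

section Opq

variable {F : Type*} [Field F] [Algebra ℚ F] {σ : F ≃ₐ[ℚ] F}
variable {V : Type*} [AddCommGroup V] [Module F V] [Module ℚ V] [IsScalarTower ℚ F V]
variable {G : Type*} [Ring G] [Algebra ℚ G] (Hm : ℕ → Submodule ℚ G)
variable (ρ : G →ₐ[ℚ] Module.End ℚ V) (κ : G →ₐ[ℚ] ℚ[X])

/-- Axioms of the graded structure used in the argument. -/
structure Graded (σ : F ≃ₐ[ℚ] F) : Prop where
  one : (1 : G) ∈ Hm 0
  mul : ∀ i j : ℕ, ∀ x ∈ Hm i, ∀ y ∈ Hm j, x * y ∈ Hm (i + j)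
  sl : ∀ L : ℕ, ∀ φ ∈ Hm L, IsSL σ L (ρ φ)

omit [IsScalarTower ℚ F V] in
theorem Graded.pow {σ : F ≃ₐ[ℚ] F} (hG : Graded Hm ρ σ) {i : ℕ} {x : G} (hx : x ∈ Hm i) (k : ℕ) :
    x ^ k ∈ Hm (i * k) := by
  induction k with
  | zero => simpa using hG.one
  | succ k ih =>
    rw [pow_succ, Nat.mul_succ]
    exact hG.mul _ _ _ ih _ hx

/-- Admissible pairs. -/
structure Adm (α β : G) (l : ℕ) : Prop where
  l_pos : 1 ≤ l
  ha : α ∈ Hm l
  hb : β ∈ Hm (l + 1)
  hk : κ α = κ β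
  hdeg : 1 ≤ (κ α).natDegree

/-- Linear growth, in relation form. -/
def Growth : Prop :=
  ∃ c : ℕ, ∀ L : ℕ, ∀ (ι : Type) (s : Finset ι) (φ : ι → G), (∀ i ∈ s, φ i ∈ Hm L) →
    c * (L + 1) < s.card → ∃ g : ι → ℚ, (∃ i ∈ s, g i ≠ 0) ∧
      ∀ v : V, ∑ i ∈ s, g i • ρ (φ i) v = 0

variable {Hm ρ κ}

omit [IsScalarTower ℚ F V] in
/-- Step (c): homogeneous elements with zero abelianisation are nilpotent on `W`, if all
homogeneous elements of nonzero abelianisation are injective there. -/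
theorem nilp_of_growth [FiniteDimensional F V] (hG : Graded Hm ρ σ) (hgr : Growth Hm ρ)
    {α β : G} {l : ℕ} (hA : Adm Hm κ α β l)
    (W : Submodule F V)
    (hinv : ∀ φ ∈ Algebra.adjoin ℚ {α, β}, ∀ w ∈ W, ρ φ w ∈ W)
    (hinj : ∀ φ ∈ Algebra.adjoin ℚ {α, β}, ∀ L, φ ∈ Hm L → κ φ ≠ 0 → ∀ w ∈ W, ρ φ w = 0 → w = 0)
    (z : G) (hz : z ∈ Algebra.adjoin ℚ {α, β}) (lz : ℕ) (hlz : 1 ≤ lz) (hzL : z ∈ Hm lz)
    (hzκ : κ z = 0) : ∃ n : ℕ, ∀ w ∈ W, ((ρ z) ^ n) w = 0 := by
  obtain ⟨c, hc⟩ := hgr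
  set D := lz * l * (l + 1) with hD
  set T := 2 * c * D + c + 1 with hT
  have hl := hA.l_pos
  set k := κ α with hkdef
  let φ : ℕ × ℕ → G := fun p => z ^ (l * (l + 1) * p.1) * (α ^ (lz * (l + 1) * p.2) *
    β ^ (lz * l * (2 * T - p.1 - p.2)))
  let s : Finset (ℕ × ℕ) := Finset.range T ×ˢ Finset.range T
  have hmem : ∀ p ∈ s, φ p ∈ Hm (2 * T * D) := by
    rintro ⟨j, a⟩ hp
    simp only [s, Finset.mem_product, Finset.mem_range] at hp
    obtain ⟨b, hb⟩ : ∃ b, 2 * T = j + a + b := ⟨2 * T - j - a, by omega⟩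
    have hb' : 2 * T - j - a = b := by omega
    have h1 : z ^ (l * (l + 1) * j) ∈ Hm (lz * (l * (l + 1) * j)) := hG.pow Hm ρ hzL _
    have h2 : α ^ (lz * (l + 1) * a) ∈ Hm (l * (lz * (l + 1) * a)) := hG.pow Hm ρ hA.ha _
    have h3 : β ^ (lz * l * b) ∈ Hm ((l + 1) * (lz * l * b)) := hG.pow Hm ρ hA.hb _
    have h4 := hG.mul _ _ _ h1 _ (hG.mul _ _ _ h2 _ h3)
    have h5 : lz * (l * (l + 1) * j) + (l * (lz * (l + 1) * a) + (l + 1) * (lz * l * b))
        = 2 * T * D := by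
      rw [hb, hD]
      ring
    rw [h5] at h4
    simpa only [φ, hb'] using h4
  have hcard : c * (2 * T * D + 1) < s.card := by
    simp only [s, Finset.card_product, Finset.card_range]
    nlinarith [Nat.zero_le (c * D * T), Nat.zero_le c]
  obtain ⟨g, ⟨⟨j1, a1⟩, hp1, hg1⟩, hrel⟩ := hc (2 * T * D) (ℕ × ℕ) s φ hmem hcard
  -- minimal index `j0`
  obtain ⟨j0, ⟨a0, hs0, hg0⟩, hmin⟩ : ∃ j0, (∃ a, (j0, a) ∈ s ∧ g (j0, a) ≠ 0) ∧
      ∀ j < j0, ∀ a, (j, a) ∈ s → g (j, a) = 0 := by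
    classical
    have hex : ∃ j, ∃ a, (j, a) ∈ s ∧ g (j, a) ≠ 0 := ⟨j1, a1, hp1, hg1⟩
    refine ⟨Nat.find hex, Nat.find_spec hex, ?_⟩
    intro j hj a hja
    by_contra hne
    exact Nat.find_min hex hj ⟨a, hja, hne⟩
  let s' : Finset (ℕ × ℕ) := s.filter (fun p => j0 ≤ p.1)
  let ψ : G := ∑ p ∈ s', g p • (z ^ (l * (l + 1) * (p.1 - j0)) * (α ^ (lz * (l + 1) * p.2) *
    β ^ (lz * l * (2 * T - p.1 - p.2))))
  have hzadj : z ∈ Algebra.adjoin ℚ {α, β} := hz
  have hαadj : α ∈ Algebra.adjoin ℚ {α, β} := Algebra.subset_adjoin (by simp)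
  have hβadj : β ∈ Algebra.adjoin ℚ {α, β} := Algebra.subset_adjoin (by simp)
  have hψadj : ψ ∈ Algebra.adjoin ℚ {α, β} := by
    refine Subalgebra.sum_mem _ fun p _ => ?_
    refine Subalgebra.smul_mem _ ?_ _
    exact Subalgebra.mul_mem _ (Subalgebra.pow_mem _ hzadj _)
      (Subalgebra.mul_mem _ (Subalgebra.pow_mem _ hαadj _) (Subalgebra.pow_mem _ hβadj _))
  have hj0T : j0 < T := by
    have := hs0
    simp only [s, Finset.mem_product, Finset.mem_range] at this
    exact this.1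
  have ha0T : a0 < T := by
    have := hs0
    simp only [s, Finset.mem_product, Finset.mem_range] at this
    exact this.2
  have hψH : ψ ∈ Hm ((2 * T - j0) * D) := by
    refine Submodule.sum_mem _ fun p hp => ?_
    refine Submodule.smul_mem _ _ ?_
    obtain ⟨j, a⟩ := p
    simp only [s', s, Finset.mem_filter, Finset.mem_product, Finset.mem_range] at hp
    obtain ⟨i, hi⟩ : ∃ i, j = j0 + i := Nat.exists_eq_add_of_le hp.2
    obtain ⟨b, hb⟩ : ∃ b, 2 * T = j0 + i + a + b := ⟨2 * T - j - a, by omega⟩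
    have hb' : 2 * T - j - a = b := by omega
    have hi' : j - j0 = i := by omega
    have hd' : 2 * T - j0 = i + a + b := by omega
    have h1 : z ^ (l * (l + 1) * i) ∈ Hm (lz * (l * (l + 1) * i)) := hG.pow Hm ρ hzL _
    have h2 : α ^ (lz * (l + 1) * a) ∈ Hm (l * (lz * (l + 1) * a)) := hG.pow Hm ρ hA.ha _
    have h3 : β ^ (lz * l * b) ∈ Hm ((l + 1) * (lz * l * b)) := hG.pow Hm ρ hA.hb _
    have h4 := hG.mul _ _ _ h1 _ (hG.mul _ _ _ h2 _ h3)
    have h5 : lz * (l * (l + 1) * i) + (l * (lz * (l + 1) * a) + (l + 1) * (lz * l * b))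
        = (2 * T - j0) * D := by
      rw [hd', hD]
      ring
    rw [h5] at h4
    simpa only [hb', hi'] using h4
  have hψκ : κ ψ ≠ 0 := by
    have h1 : κ ψ = ∑ a ∈ Finset.range T, C (g (j0, a)) *
        k ^ (lz * l * (2 * T - j0) + lz * a) := by
      simp only [ψ, map_sum, map_smul, map_mul, map_pow, hzκ, ← hA.hk, ← hkdef]
      have hsub : (Finset.range T).image (fun a => (j0, a)) ⊆ s' := by
        intro p hp
        simp only [Finset.mem_image, Finset.mem_range] at hp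
        obtain ⟨a, ha, rfl⟩ := hp
        simp [s', s, hj0T, ha]
      rw [← Finset.sum_subset hsub]
      · rw [Finset.sum_image (by intro a _ b _ h; simpa using h)]
        refine Finset.sum_congr rfl fun a ha => ?_
        rw [Finset.mem_range] at ha
        simp only [Nat.sub_self, mul_zero, pow_zero, one_mul]
        rw [← pow_add, Polynomial.smul_eq_C_mul]
        congr 2
        obtain ⟨b, hb⟩ : ∃ b, 2 * T - j0 = a + b := ⟨2 * T - j0 - a, by omega⟩
        have hb' : 2 * T - j0 - a = b := by omega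
        rw [hb', hb]
        ring
      · rintro ⟨j, a⟩ hp hnp
        simp only [s', s, Finset.mem_filter, Finset.mem_product, Finset.mem_range] at hp
        have hne : j ≠ j0 := by
          rintro rfl
          apply hnp
          simp [hp.1.2]
        have hgt : 0 < j - j0 := by omega
        have : 0 < l * (l + 1) * (j - j0) := by positivity
        rw [zero_pow this.ne', zero_mul, smul_zero]
    rw [h1]
    exact sum_pow_ne_zero k hA.hdeg _ lz hlz T (fun a => g (j0, a)) ⟨a0, ha0T, hg0⟩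
  have hfac : ∀ v : V, ((ρ z) ^ (l * (l + 1) * j0)) (ρ ψ v) = 0 := by
    intro v
    rw [← map_pow, ← Module.End.mul_apply, ← map_mul]
    have h1 : z ^ (l * (l + 1) * j0) * ψ = ∑ p ∈ s, g p • φ p := by
      have h2 : ∑ p ∈ s, g p • φ p = ∑ p ∈ s', g p • φ p := by
        symm
        refine Finset.sum_filter_of_ne fun p hp hne => ?_
        by_contra hlt
        apply hne
        rw [hmin p.1 (not_le.mp hlt) p.2 hp, zero_smul]
      rw [h2]
      simp only [ψ, Finset.mul_sum]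
      refine Finset.sum_congr rfl fun p hp => ?_
      have hle : j0 ≤ p.1 := (Finset.mem_filter.mp hp).2
      simp only [φ]
      rw [mul_smul_comm, ← mul_assoc, ← pow_add]
      congr 3
      rw [← Nat.mul_add]
      congr 2
      omega
    rw [h1]
    simp only [map_sum, map_smul, LinearMap.sum_apply, LinearMap.smul_apply]
    exact hrel v
  refine ⟨l * (l + 1) * j0, fun w hw => ?_⟩
  obtain ⟨w', hw', rfl⟩ := surj_of_inj (hG.sl _ _ hψH) W (hinv ψ hψadj)
    (hinj ψ hψadj _ hψH hψκ) w hw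
  exact hfac w'

/-- Step (d): on an irreducible subspace the homogeneous elements of zero abelianisation act
as zero. -/
theorem zero_of_irr [FiniteDimensional F V] (hG : Graded Hm ρ σ) (hgr : Growth Hm ρ)
    {α β : G} {l : ℕ} (hA : Adm Hm κ α β l)
    (W : Submodule F V)
    (hinv : ∀ φ ∈ Algebra.adjoin ℚ {α, β}, ∀ w ∈ W, ρ φ w ∈ W)
    (hinj : ∀ φ ∈ Algebra.adjoin ℚ {α, β}, ∀ L, φ ∈ Hm L → κ φ ≠ 0 → ∀ w ∈ W, ρ φ w = 0 → w = 0)
    (hirr : ∀ W' : Submodule F V, W' ≤ W → W' ≠ ⊥ → (∀ w ∈ W', ρ α w ∈ W') →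
      (∀ w ∈ W', ρ β w ∈ W') → W' = W)
    (z : G) (hz : z ∈ Algebra.adjoin ℚ {α, β}) (lz : ℕ) (hlz : 1 ≤ lz) (hzL : z ∈ Hm lz)
    (hzκ : κ z = 0) : ∀ w ∈ W, ρ z w = 0 := by
  by_contra hcon
  let S : Set (Submodule F V) := {X | X ≠ ⊥ ∧ ∃ (z : G) (lz : ℕ) (hzL : z ∈ Hm lz), 1 ≤ lz ∧
    z ∈ Algebra.adjoin ℚ {α, β} ∧ κ z = 0 ∧ X = imgSL (hG.sl lz z hzL) W}
  have hS : S.Nonempty := by
    refine ⟨imgSL (hG.sl lz z hzL) W, ?_, z, lz, hzL, hlz, hz, hzκ, rfl⟩
    intro hbot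
    apply hcon
    intro w hw
    have : ρ z w ∈ imgSL (hG.sl lz z hzL) W := ⟨w, hw, rfl⟩
    rw [hbot] at this
    simpa using this
  obtain ⟨X, ⟨hXbot, z, lz, hzL, hlz, hz, hzκ, hX⟩, hmin⟩ :=
    (wellFounded_lt (α := Submodule F V)).has_min S hS
  have hαadj : α ∈ Algebra.adjoin ℚ {α, β} := Algebra.subset_adjoin (by simp)
  have hβadj : β ∈ Algebra.adjoin ℚ {α, β} := Algebra.subset_adjoin (by simp)
  have key : ∀ ψ ∈ Algebra.adjoin ℚ {α, β}, ∀ L, ψ ∈ Hm L → ∀ w ∈ W,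
      ρ z (ρ ψ (ρ z w)) = 0 := by
    intro ψ hψ L hψL
    have h1 : z * ψ * z ∈ Hm (lz + L + lz) := hG.mul _ _ _ (hG.mul _ _ _ hzL _ hψL) _ hzL
    have h1' : z * ψ ∈ Hm (lz + L) := hG.mul _ _ _ hzL _ hψL
    have hact : ∀ w, ρ (z * ψ * z) w = ρ z (ρ ψ (ρ z w)) := by
      intro w
      simp [map_mul, Module.End.mul_apply]
    by_contra hne
    push Not at hne
    obtain ⟨w0, hw0, hne⟩ := hne
    have hmem : imgSL (hG.sl _ _ h1) W ∈ S := by
      refine ⟨?_, z * ψ * z, _, h1, by omega, Subalgebra.mul_mem _ (Subalgebra.mul_mem _ hz hψ) hz,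
        by simp [hzκ], rfl⟩
      intro hbot
      apply hne
      have : ρ (z * ψ * z) w0 ∈ imgSL (hG.sl _ _ h1) W := ⟨w0, hw0, rfl⟩
      rw [hbot] at this
      rw [← hact]
      simpa using this
    have hle : imgSL (hG.sl _ _ h1) W ≤ X := by
      rintro _ ⟨w, hw, rfl⟩
      rw [hX, hact]
      exact ⟨ρ ψ (ρ z w), hinv ψ hψ _ (hinv z hz w hw), rfl⟩
    have heq : imgSL (hG.sl _ _ h1) W = X := by
      by_contra hne'
      exact hmin _ hmem (lt_of_le_of_ne hle hne')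
    -- `z ψ` maps `X` onto `X`
    have hXW : ∀ x ∈ X, x ∈ W := by
      intro x hx
      rw [hX] at hx
      obtain ⟨w, hw, rfl⟩ := hx
      exact hinv z hz w hw
    have hsurj : ∀ x ∈ X, ∃ x' ∈ X, ρ (z * ψ) x' = x := by
      intro x hx
      rw [← heq] at hx
      obtain ⟨w, hw, rfl⟩ := hx
      refine ⟨ρ z w, ?_, ?_⟩
      · rw [hX]
        exact ⟨w, hw, rfl⟩
      · rw [hact]
        simp [map_mul, Module.End.mul_apply]
    obtain ⟨n, hn⟩ := nilp_of_growth hG hgr hA W hinv hinj (z * ψ) (Subalgebra.mul_mem _ hz hψ)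
      (lz + L) (by omega) h1' (by simp [hzκ])
    have hsurjn : ∀ m : ℕ, ∀ x ∈ X, ∃ x' ∈ X, ((ρ (z * ψ)) ^ m) x' = x := by
      intro m
      induction m with
      | zero => intro x hx; exact ⟨x, hx, by simp⟩
      | succ m ih =>
        intro x hx
        obtain ⟨x1, hx1, h1⟩ := ih x hx
        obtain ⟨x2, hx2, h2⟩ := hsurj x1 hx1
        exact ⟨x2, hx2, by rw [pow_succ, Module.End.mul_apply, h2, h1]⟩
    apply hXbot
    rw [eq_bot_iff]
    intro x hx
    obtain ⟨x', hx', rfl⟩ := hsurjn n x hx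
    rw [hn x' (hXW x' hx')]
    exact Submodule.zero_mem _
  let W' : Submodule F V := Submodule.span F {v | ∃ ψ ∈ Algebra.adjoin ℚ {α, β}, ∃ L, ψ ∈ Hm L ∧
    ∃ w ∈ W, v = ρ ψ (ρ z w)}
  have hinv' : ∀ χ ∈ Algebra.adjoin ℚ {α, β}, ∀ M, χ ∈ Hm M → ∀ v ∈ W', ρ χ v ∈ W' := by
    intro χ hχ M hχM v hv
    induction hv using Submodule.span_induction with
    | mem v hv =>
      obtain ⟨ψ, hψ, L, hψL, w, hw, rfl⟩ := hv
      refine Submodule.subset_span ⟨χ * ψ, Subalgebra.mul_mem _ hχ hψ, M + L,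
        hG.mul _ _ _ hχM _ hψL, w, hw, ?_⟩
      simp [map_mul, Module.End.mul_apply]
    | zero => simp
    | add x y _ _ hx hy => rw [map_add]; exact Submodule.add_mem _ hx hy
    | smul c x _ hx =>
      rw [hG.sl _ _ hχM]
      exact Submodule.smul_mem _ _ hx
  have hW'W : W' ≤ W := by
    refine Submodule.span_le.mpr ?_
    rintro v ⟨ψ, hψ, L, hψL, w, hw, rfl⟩
    exact hinv ψ hψ _ (hinv z hz w hw)
  have hzW : ∀ w ∈ W, ρ z w ∈ W' := by
    intro w hw
    exact Submodule.subset_span ⟨1, Subalgebra.one_mem _, 0, hG.one, w, hw, by simp⟩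
  have hW'bot : W' ≠ ⊥ := by
    intro hbot
    apply hXbot
    rw [eq_bot_iff, hX]
    rintro _ ⟨w, hw, rfl⟩
    rw [← hbot]
    exact hzW w hw
  have hW' := hirr W' hW'W hW'bot (hinv' α hαadj l hA.ha) (hinv' β hβadj (l + 1) hA.hb)
  have hzkill : ∀ v ∈ W', ρ z v = 0 := by
    intro v hv
    induction hv using Submodule.span_induction with
    | mem v hv =>
      obtain ⟨ψ, hψ, L, hψL, w, hw, rfl⟩ := hv
      exact key ψ hψ L hψL w hw
    | zero => simp
    | add x y _ _ hx hy => rw [map_add, hx, hy, add_zero]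
    | smul c x _ hx => rw [hG.sl _ _ hzL, hx, smul_zero]
  apply hXbot
  rw [eq_bot_iff, hX]
  rintro _ ⟨w, hw, rfl⟩
  rw [← hW'] at hw
  rw [hzkill w hw]
  exact Submodule.zero_mem _

/-- Step (e): contradiction on an irreducible subspace. -/
theorem irr_false [FiniteDimensional F V] (hG : Graded Hm ρ σ) (hgr : Growth Hm ρ)
    (hfix : ∀ n : ℕ, 1 ≤ n → ∀ c : F, (σ ^ n) c = c → ∃ q : ℚ, algebraMap ℚ F q = c)
    {α β : G} {l : ℕ} (hA : Adm Hm κ α β l)
    (W : Submodule F V) (hW : W ≠ ⊥)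
    (hinv : ∀ φ ∈ Algebra.adjoin ℚ {α, β}, ∀ w ∈ W, ρ φ w ∈ W)
    (hinj : ∀ φ ∈ Algebra.adjoin ℚ {α, β}, ∀ L, φ ∈ Hm L → κ φ ≠ 0 → ∀ w ∈ W, ρ φ w = 0 → w = 0)
    (hirr : ∀ W' : Submodule F V, W' ≤ W → W' ≠ ⊥ → (∀ w ∈ W', ρ α w ∈ W') →
      (∀ w ∈ W', ρ β w ∈ W') → W' = W) : False := by
  have hαadj : α ∈ Algebra.adjoin ℚ {α, β} := Algebra.subset_adjoin (by simp)
  have hβadj : β ∈ Algebra.adjoin ℚ {α, β} := Algebra.subset_adjoin (by simp)
  have hκα : κ α ≠ 0 := by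
    intro h
    have := hA.hdeg
    rw [h] at this
    simp at this
  have hl := hA.l_pos
  -- `α` and `β` commute on `W`
  have hcomm : ∀ w ∈ W, ρ α (ρ β w) = ρ β (ρ α w) := by
    intro w hw
    have h1 : α * β ∈ Hm (2 * l + 1) := by
      have := hG.mul _ _ _ hA.ha _ hA.hb
      rwa [show l + (l + 1) = 2 * l + 1 by ring] at this
    have h2 : β * α ∈ Hm (2 * l + 1) := by
      have := hG.mul _ _ _ hA.hb _ hA.ha
      rwa [show l + 1 + l = 2 * l + 1 by ring] at this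
    have h3 := zero_of_irr hG hgr hA W hinv hinj hirr (α * β - β * α)
      (Subalgebra.sub_mem _ (Subalgebra.mul_mem _ hαadj hβadj)
        (Subalgebra.mul_mem _ hβadj hαadj)) (2 * l + 1) (by omega)
      (Submodule.sub_mem _ h1 h2) (by simp [mul_comm]) w hw
    rw [map_sub, map_mul, map_mul, LinearMap.sub_apply, Module.End.mul_apply,
      Module.End.mul_apply, sub_eq_zero] at h3
    exact h3
  set n := l * (l + 1) with hn
  set a : Module.End ℚ V := ρ (α ^ (l + 1)) with ha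
  set b : Module.End ℚ V := ρ (β ^ l) with hb
  have haH : α ^ (l + 1) ∈ Hm n := hG.pow Hm ρ hA.ha _
  have hbH : β ^ l ∈ Hm n := by
    have := hG.pow Hm ρ hA.hb l
    rwa [mul_comm] at this
  have haW : ∀ w ∈ W, a w ∈ W := hinv _ (Subalgebra.pow_mem _ hαadj _)
  have hbW : ∀ w ∈ W, b w ∈ W := hinv _ (Subalgebra.pow_mem _ hβadj _)
  have haSL : IsSL σ n a := hG.sl _ _ haH
  have hbSL : IsSL σ n b := hG.sl _ _ hbH
  have hbinj : ∀ w ∈ W, b w = 0 → w = 0 := by
    refine hinj _ (Subalgebra.pow_mem _ hβadj _) _ hbH ?_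
    rw [map_pow, ← hA.hk]
    exact pow_ne_zero _ hκα
  have hbsurj := surj_of_inj hbSL W hbW hbinj
  have hαW : ∀ w ∈ W, ρ α w ∈ W := hinv _ hαadj
  have hβW : ∀ w ∈ W, ρ β w ∈ W := hinv _ hβadj
  have hαsurj := surj_of_inj (hG.sl _ _ hA.ha) W hαW (hinj α hαadj l hA.ha hκα)
  have hβpow : ∀ m : ℕ, ∀ w ∈ W, ρ α ((ρ β ^ m) w) = (ρ β ^ m) (ρ α w) ∧ (ρ β ^ m) w ∈ W := by
    intro m
    induction m with
    | zero => intro w hw; simp [hw]
    | succ m ih =>
      intro w hw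
      constructor
      · rw [pow_succ', Module.End.mul_apply, Module.End.mul_apply, hcomm _ (ih w hw).2,
          (ih w hw).1]
      · rw [pow_succ', Module.End.mul_apply]
        exact hβW _ (ih w hw).2
  have hαb : ∀ w ∈ W, ρ α (b w) = b (ρ α w) := by
    intro w hw
    rw [hb, map_pow]
    exact (hβpow l w hw).1
  have hαpow : ∀ m : ℕ, ∀ w ∈ W, (ρ α ^ m) (b w) = b ((ρ α ^ m) w) ∧ (ρ α ^ m) w ∈ W := by
    intro m
    induction m with
    | zero => intro w hw; simp [hw]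
    | succ m ih =>
      intro w hw
      constructor
      · rw [pow_succ', Module.End.mul_apply, Module.End.mul_apply, (ih w hw).1,
          hαb _ (ih w hw).2]
      · rw [pow_succ', Module.End.mul_apply]
        exact hαW _ (ih w hw).2
  have hab : ∀ w ∈ W, a (b w) = b (a w) := by
    intro w hw
    rw [ha, map_pow]
    exact (hαpow (l + 1) w hw).1
  have hαa : ∀ w, ρ α (a w) = a (ρ α w) := by
    intro w
    rw [ha, map_pow, ← Module.End.mul_apply, ← Module.End.mul_apply, ← pow_succ, ← pow_succ']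
  -- inverse of `b` on `W`
  choose! binv hbinvW hbinv using hbsurj
  have hbu : ∀ u ∈ W, ∀ w ∈ W, b u = w → binv w = u := by
    intro u hu w hw h
    have h1 : b (binv w - u) = 0 := by rw [map_sub, hbinv w hw, h, sub_self]
    exact sub_eq_zero.mp (hbinj _ (W.sub_mem (hbinvW w hw) hu) h1)
  let γ : Module.End F W :=
    { toFun := fun w => ⟨a (binv w), haW _ (hbinvW _ w.2)⟩
      map_add' := by
        intro x y
        ext
        simp only [Submodule.coe_add]
        rw [hbu (binv x + binv y) (W.add_mem (hbinvW _ x.2) (hbinvW _ y.2)) (x + y)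
          (W.add_mem x.2 y.2) (by rw [map_add, hbinv _ x.2, hbinv _ y.2]), map_add]
      map_smul' := by
        intro c x
        ext
        simp only [Submodule.coe_smul, RingHom.id_apply]
        rw [hbu (((σ ^ n).symm c) • binv x) (W.smul_mem _ (hbinvW _ x.2)) (c • (x : V))
          (W.smul_mem _ x.2) (by rw [hbSL, hbinv _ x.2]; simp), haSL]
        simp }
  have hγ : ∀ w : W, ((γ w : W) : V) = a (binv w) := fun w => rfl
  have hγb : ∀ u (hu : u ∈ W), ((γ ⟨b u, hbW u hu⟩ : W) : V) = a u := by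
    intro u hu
    rw [hγ, hbu u hu _ (hbW u hu) rfl]
  -- commutation of `α` with `γ`
  have hαγ : ∀ w : W, ρ α (γ w : W) = (γ ⟨ρ α w, hαW _ w.2⟩ : W) := by
    intro w
    rw [hγ, hγ, hαa]
    congr 1
    exact (hbu _ (hαW _ (hbinvW _ w.2)) _ (hαW _ w.2) (by
      rw [← hαb _ (hbinvW _ w.2), hbinv _ w.2])).symm
  have hαγpow : ∀ (m : ℕ) (w : W), ρ α ((γ ^ m) w : W) = ((γ ^ m) ⟨ρ α w, hαW _ w.2⟩ : W) := by
    intro m
    induction m with
    | zero => intro w; simp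
    | succ m ih =>
      intro w
      have h1 : (⟨ρ α ((γ w : W) : V), hαW _ (γ w).2⟩ : W) = γ ⟨ρ α w, hαW _ w.2⟩ :=
        Subtype.ext (hαγ w)
      rw [pow_succ, Module.End.mul_apply, ih, Module.End.mul_apply, h1]
  set μ := minpoly F γ with hμ
  have hμint : IsIntegral F γ := Algebra.IsIntegral.isIntegral γ
  have hμmonic : μ.Monic := minpoly.monic hμint
  have hμ0 : Polynomial.aeval γ μ = 0 := minpoly.aeval F γ
  let τ : F →+* F := ((σ ^ l : F ≃ₐ[ℚ] F) : F →+* F)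
  have hμτ : Polynomial.aeval γ (μ.map τ) = 0 := by
    ext w
    obtain ⟨w', hw', hww'⟩ := hαsurj w w.2
    have h1 : ρ α ((Polynomial.aeval γ μ) (⟨w', hw'⟩ : W) : W) = 0 := by
      rw [hμ0]
      simp
    rw [Polynomial.aeval_eq_sum_range] at h1
    rw [Polynomial.aeval_eq_sum_range, Polynomial.natDegree_map]
    simp only [LinearMap.sum_apply, LinearMap.smul_apply, Submodule.coe_sum, Submodule.coe_smul,
      map_sum] at h1
    simp only [LinearMap.sum_apply, LinearMap.smul_apply, Submodule.coe_sum, Submodule.coe_smul,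
      LinearMap.zero_apply, Submodule.coe_zero]
    rw [← h1]
    refine Finset.sum_congr rfl fun i _ => ?_
    rw [hG.sl _ _ hA.ha, hαγpow, Polynomial.coeff_map]
    have h2 : (⟨ρ α ((⟨w', hw'⟩ : W) : V), hαW _ hw'⟩ : W) = w := Subtype.ext hww'
    rw [h2]
    rfl
  have hμeq : μ.map τ = μ := by
    refine minpoly.unique F γ (hμmonic.map τ) hμτ ?_
    intro q hq hq0
    rw [Polynomial.degree_map]
    exact minpoly.min F γ hq hq0
  have hcoef : ∀ i, ∃ q : ℚ, algebraMap ℚ F q = μ.coeff i := by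
    intro i
    apply hfix l hl
    have := congrArg (fun p => Polynomial.coeff p i) hμeq
    simp only [Polynomial.coeff_map] at this
    exact this
  choose q hq using hcoef
  set N := μ.natDegree with hN
  have hqN : q N ≠ 0 := by
    intro h
    have h1 := hq N
    rw [h, map_zero] at h1
    have h2 : μ.coeff N = 1 := hμmonic
    rw [h2] at h1
    exact zero_ne_one h1
  let φ : G := ∑ i ∈ Finset.range (N + 1), q i • (α ^ ((l + 1) * i) * β ^ (l * (N - i)))
  have hφadj : φ ∈ Algebra.adjoin ℚ {α, β} := by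
    refine Subalgebra.sum_mem _ fun i _ => Subalgebra.smul_mem _ ?_ _
    exact Subalgebra.mul_mem _ (Subalgebra.pow_mem _ hαadj _) (Subalgebra.pow_mem _ hβadj _)
  have hφH : φ ∈ Hm (n * N) := by
    refine Submodule.sum_mem _ fun i hi => Submodule.smul_mem _ _ ?_
    rw [Finset.mem_range] at hi
    obtain ⟨j, hj⟩ : ∃ j, N = i + j := ⟨N - i, by omega⟩
    have hj' : N - i = j := by omega
    have h1 := hG.mul _ _ _ (hG.pow Hm ρ hA.ha ((l + 1) * i)) _ (hG.pow Hm ρ hA.hb (l * j))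
    have h2 : l * ((l + 1) * i) + (l + 1) * (l * j) = n * N := by
      rw [hj, hn]
      ring
    rw [h2] at h1
    rw [hj']
    exact h1
  have hφκ : κ φ ≠ 0 := by
    have h1 : κ φ = ∑ i ∈ Finset.range (N + 1), C (q i) * (κ α) ^ (l * N + 1 * i) := by
      simp only [φ, map_sum, map_smul, map_mul, map_pow, ← hA.hk]
      refine Finset.sum_congr rfl fun i hi => ?_
      rw [Finset.mem_range] at hi
      obtain ⟨j, hj⟩ : ∃ j, N = i + j := ⟨N - i, by omega⟩
      have hj' : N - i = j := by omega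
      rw [← pow_add, Polynomial.smul_eq_C_mul, hj', hj]
      congr 2
      ring
    rw [h1]
    exact sum_pow_ne_zero (κ α) hA.hdeg _ 1 le_rfl (N + 1) q ⟨N, Nat.lt_succ_self N, hqN⟩
  have hbpowW : ∀ (m : ℕ) (v : V), v ∈ W → (b ^ m) v ∈ W := by
    intro m
    induction m with
    | zero => intro v hv; simpa using hv
    | succ m ih =>
      intro v hv
      rw [pow_succ', Module.End.mul_apply]
      exact hbW _ (ih v hv)
  have hapowW : ∀ (m : ℕ) (v : V), v ∈ W → (a ^ m) v ∈ W := by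
    intro m
    induction m with
    | zero => intro v hv; simpa using hv
    | succ m ih =>
      intro v hv
      rw [pow_succ', Module.End.mul_apply]
      exact haW _ (ih v hv)
  have habpow : ∀ (m : ℕ) (v : V), v ∈ W → (a ^ m) (b v) = b ((a ^ m) v) := by
    intro m
    induction m with
    | zero => intro v hv; simp
    | succ m ih =>
      intro v hv
      rw [pow_succ', Module.End.mul_apply, Module.End.mul_apply, ih v hv, hab _ (hapowW m v hv)]
  have hγpow : ∀ (i j : ℕ) (v : V) (hv : v ∈ W),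
      (((γ ^ i) ⟨(b ^ (i + j)) v, hbpowW _ v hv⟩ : W) : V) = (a ^ i) ((b ^ j) v) := by
    intro i
    induction i with
    | zero => intro j v hv; simp
    | succ i ih =>
      intro j v hv
      have h1 : (⟨(b ^ (i + 1 + j)) v, hbpowW _ v hv⟩ : W) = ⟨(b ^ (i + (j + 1))) v, hbpowW _ v hv⟩ := by
        ext
        simp only
        rw [show i + 1 + j = i + (j + 1) by ring]
      rw [h1, pow_succ', Module.End.mul_apply]
      have h2 : ((γ ^ i) ⟨(b ^ (i + (j + 1))) v, hbpowW _ v hv⟩ : W) =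
          ⟨b ((a ^ i) ((b ^ j) v)), hbW _ (hapowW i _ (hbpowW j v hv))⟩ := by
        ext
        rw [ih (j + 1) v hv, pow_succ', Module.End.mul_apply, habpow i _ (hbpowW j v hv)]
      rw [h2, hγb _ (hapowW i _ (hbpowW j v hv)), pow_succ', Module.End.mul_apply]
  have hφ0 : ∀ v ∈ W, ρ φ v = 0 := by
    intro v hv
    have h1 : (((Polynomial.aeval γ μ) ⟨(b ^ N) v, hbpowW _ v hv⟩ : W) : V) = 0 := by
      rw [hμ0]
      simp
    rw [Polynomial.aeval_eq_sum_range] at h1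
    simp only [LinearMap.sum_apply, LinearMap.smul_apply, Submodule.coe_sum,
      Submodule.coe_smul] at h1
    rw [← h1]
    simp only [φ, map_sum, map_smul, LinearMap.sum_apply, LinearMap.smul_apply]
    refine Finset.sum_congr rfl fun i hi => ?_
    rw [Finset.mem_range] at hi
    obtain ⟨j, hj⟩ : ∃ j, N = i + j := ⟨N - i, by omega⟩
    have hj' : N - i = j := by omega
    have h3 : (⟨(b ^ N) v, hbpowW _ v hv⟩ : W) = ⟨(b ^ (i + j)) v, hbpowW _ v hv⟩ := by
      ext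
      simp only
      rw [← hj]
    rw [h3, hγpow i j v hv, hj', ← hq i, algebraMap_smul, map_mul, Module.End.mul_apply, ha, hb,
      ← map_pow, ← map_pow, ← pow_mul, ← pow_mul]
  apply hW
  rw [eq_bot_iff]
  intro v hv
  rw [Submodule.mem_bot]
  exact hinj φ hφadj _ hφH hφκ v hv (hφ0 v hv)

theorem inv_adjoin {α β : G} (W : Submodule F V)
    (hα : ∀ w ∈ W, ρ α w ∈ W) (hβ : ∀ w ∈ W, ρ β w ∈ W) :
    ∀ φ ∈ Algebra.adjoin ℚ {α, β}, ∀ w ∈ W, ρ φ w ∈ W := by
  intro φ hφ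
  induction hφ using Algebra.adjoin_induction with
  | mem x hx =>
    rcases hx with rfl | hx
    · exact hα
    · rw [Set.mem_singleton_iff] at hx
      subst hx
      exact hβ
  | algebraMap r =>
    intro w hw
    rw [AlgHom.commutes, Module.algebraMap_end_apply, ← algebraMap_smul F r w]
    exact W.smul_mem _ hw
  | add x y _ _ hx hy =>
    intro w hw
    rw [map_add, LinearMap.add_apply]
    exact W.add_mem (hx w hw) (hy w hw)
  | mul x y _ _ hx hy =>
    intro w hw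
    rw [map_mul, Module.End.mul_apply]
    exact hx _ (hy w hw)

/-- Main lemma: every finite-dimensional invariant subspace is killed by a homogeneous element
with nonzero abelianisation. -/
theorem exists_opaque [FiniteDimensional F V] (hG : Graded Hm ρ σ) (hgr : Growth Hm ρ)
    (hfix : ∀ n : ℕ, 1 ≤ n → ∀ c : F, (σ ^ n) c = c → ∃ q : ℚ, algebraMap ℚ F q = c)
    (W : Submodule F V) : ∀ (α β : G) (l : ℕ), Adm Hm κ α β l →
    (∀ w ∈ W, ρ α w ∈ W) → (∀ w ∈ W, ρ β w ∈ W) →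
    ∃ φ ∈ Algebra.adjoin ℚ {α, β}, ∃ L, φ ∈ Hm L ∧ κ φ ≠ 0 ∧ ∀ w ∈ W, ρ φ w = 0 := by
  induction W using WellFoundedLT.induction with
  | ind W ih =>
  intro α β l hA hα hβ
  by_cases hW : W = ⊥
  · refine ⟨1, Subalgebra.one_mem _, 0, hG.one, by simp, ?_⟩
    intro w hw
    rw [hW, Submodule.mem_bot] at hw
    rw [hw, map_zero]
  by_contra hno
  have hαadj : α ∈ Algebra.adjoin ℚ {α, β} := Algebra.subset_adjoin (by simp)
  have hβadj : β ∈ Algebra.adjoin ℚ {α, β} := Algebra.subset_adjoin (by simp)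
  have hinv := inv_adjoin (ρ := ρ) W hα hβ
  have hinj : ∀ φ ∈ Algebra.adjoin ℚ {α, β}, ∀ L, φ ∈ Hm L → κ φ ≠ 0 →
      ∀ w ∈ W, ρ φ w = 0 → w = 0 := by
    intro φ₀ hφ₀ L₀ hL₀ hκ₀
    by_contra hninj
    apply hno
    let U := imgSL (hG.sl L₀ φ₀ hL₀) W
    have hUW : U ≤ W := by
      rintro _ ⟨w, hw, rfl⟩
      exact hinv φ₀ hφ₀ w hw
    have hlt : U < W := by
      refine lt_of_le_of_ne hUW fun heq => hninj ?_
      refine inj_of_surj (hG.sl L₀ φ₀ hL₀) W ?_
      intro w hw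
      rw [← heq] at hw
      obtain ⟨w', hw', h⟩ := hw
      exact ⟨w', hw', h⟩
    have hA' : Adm Hm κ (φ₀ * α) (φ₀ * β) (L₀ + l) :=
      { l_pos := by have := hA.l_pos; omega
        ha := hG.mul _ _ _ hL₀ _ hA.ha
        hb := hG.mul _ _ _ hL₀ _ hA.hb
        hk := by rw [map_mul, map_mul, hA.hk]
        hdeg := by
          have hκα : κ α ≠ 0 := by
            intro h
            have := hA.hdeg
            rw [h] at this
            simp at this
          rw [map_mul, natDegree_mul hκ₀ hκα]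
          have := hA.hdeg
          omega }
    obtain ⟨φ', hφ', L', hL', hκ', hkill⟩ := ih U hlt (φ₀ * α) (φ₀ * β) (L₀ + l) hA'
      (by
        intro u hu
        rw [map_mul, Module.End.mul_apply]
        exact ⟨ρ α u, hα _ (hUW hu), rfl⟩)
      (by
        intro u hu
        rw [map_mul, Module.End.mul_apply]
        exact ⟨ρ β u, hβ _ (hUW hu), rfl⟩)
    have hle : Algebra.adjoin ℚ {φ₀ * α, φ₀ * β} ≤ Algebra.adjoin ℚ {α, β} := by
      refine Algebra.adjoin_le ?_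
      rintro x (rfl | hx)
      · exact Subalgebra.mul_mem _ hφ₀ hαadj
      · rw [Set.mem_singleton_iff] at hx
        subst hx
        exact Subalgebra.mul_mem _ hφ₀ hβadj
    refine ⟨φ' * φ₀, Subalgebra.mul_mem _ (hle hφ') hφ₀, L' + L₀, hG.mul _ _ _ hL' _ hL₀,
      by rw [map_mul]; exact mul_ne_zero hκ' hκ₀, ?_⟩
    intro w hw
    rw [map_mul, Module.End.mul_apply]
    exact hkill _ ⟨w, hw, rfl⟩
  -- minimal nonzero invariant subspace
  let S : Set (Submodule F V) := {X | X ≤ W ∧ X ≠ ⊥ ∧ (∀ w ∈ X, ρ α w ∈ X) ∧ (∀ w ∈ X, ρ β w ∈ X)}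
  obtain ⟨X, ⟨hXW, hXbot, hXα, hXβ⟩, hmin⟩ :=
    (wellFounded_lt (α := Submodule F V)).has_min S ⟨W, le_rfl, hW, hα, hβ⟩
  refine irr_false hG hgr hfix hA X hXbot (inv_adjoin (ρ := ρ) X hXα hXβ)
    (fun φ hφ L hL hκ w hw => hinj φ hφ L hL hκ w (hXW hw)) ?_
  intro W' hW'X hW'bot h1 h2
  by_contra hne
  exact hmin W' ⟨hW'X.trans hXW, hW'bot, h1, h2⟩ (lt_of_le_of_ne hW'X hne)

end Opq

end Pool.Agent.H22
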