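import Mathlib

set_option autoImplicit false

namespace Pool.Agent.H22

open Polynomial

/-- The field of rational functions over the rationals. -/
def FQ : Type := FractionRing ℚ[X]

noncomputable instance instFieldFQ : Field FQ := inferInstanceAs (Field (FractionRing ℚ[X]))

noncomputable instance instAlgebraFQ : Algebra ℚ[X] FQ :=
  inferInstanceAs (Algebra ℚ[X] (FractionRing ℚ[X]))

instance instIsFractionRingFQ : IsFractionRing ℚ[X] FQ :=
  inferInstanceAs (IsFractionRing ℚ[X] (FractionRing ℚ[X]))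

instance instCharZeroFQ : CharZero FQ :=
  charZero_of_injective_algebraMap (IsFractionRing.injective ℚ[X] FQ)

instance instTowerFQ : IsScalarTower ℚ ℚ[X] FQ :=
  IsScalarTower.of_algebraMap_eq' (Subsingleton.elim _ _)

/-- The shift automorphism `X ↦ X + 1` of the polynomial ring. -/
noncomputable def shP : ℚ[X] ≃ₐ[ℚ] ℚ[X] := algEquivAevalXAddC (1 : ℚ)

/-- The shift automorphism of the field of rational functions. -/
noncomputable def shF : FQ ≃ₐ[ℚ] FQ := IsFractionRing.fieldEquivOfAlgEquivHom ℚ FQ shP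

theorem shF_pow_algebraMap (n : ℕ) (p : ℚ[X]) :
    (shF ^ n) (algebraMap ℚ[X] FQ p) = algebraMap ℚ[X] FQ ((shP ^ n) p) := by
  rw [shF, ← map_pow]
  exact IsFractionRing.fieldEquivOfAlgEquiv_algebraMap ℚ FQ FQ (shP ^ n) p

theorem shP_eval (p : ℚ[X]) (x : ℚ) : (shP p).eval x = p.eval (x + 1) := by
  rw [shP, algEquivAevalXAddC_apply, ← Polynomial.comp_eq_aeval] 
  simp

theorem shP_pow_eval (n : ℕ) (p : ℚ[X]) (x : ℚ) : ((shP ^ n) p).eval x = p.eval (x + n) := by
  induction n generalizing x with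
  | zero => simp
  | succ n ih =>
    rw [pow_succ', AlgEquiv.mul_apply, shP_eval, ih]
    congr 1
    push_cast
    ring

theorem shF_fix (n : ℕ) (hn : 1 ≤ n) (c : FQ) (hc : (shF ^ n) c = c) :
    ∃ q : ℚ, algebraMap ℚ FQ q = c := by
  obtain ⟨p, q, hq, rfl⟩ := IsFractionRing.div_surjective ℚ[X] c
  have hq0 : q ≠ 0 := nonZeroDivisors.ne_zero hq
  rw [map_div₀, shF_pow_algebraMap, shF_pow_algebraMap] at hc
  have hinj : Function.Injective (algebraMap ℚ[X] FQ) := IsFractionRing.injective ℚ[X] FQ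
  have hq1 : algebraMap ℚ[X] FQ q ≠ 0 := by
    rwa [Ne, map_eq_zero_iff _ hinj]
  have hq2 : algebraMap ℚ[X] FQ ((shP ^ n) q) ≠ 0 := by
    rw [Ne, map_eq_zero_iff _ hinj, map_eq_zero_iff _ (shP ^ n).injective]
    exact hq0
  rw [div_eq_div_iff hq2 hq1, ← map_mul, ← map_mul] at hc
  have hpq : (shP ^ n) p * q = p * (shP ^ n) q := hinj hc
  have hev : ∀ x : ℚ, p.eval (x + n) * q.eval x = p.eval x * q.eval (x + n) := by
    intro x
    have := congrArg (Polynomial.eval x) hpq
    rwa [eval_mul, eval_mul, shP_pow_eval, shP_pow_eval] at this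
  -- a point beyond all roots of `q`
  have hfin : {m : ℕ | q.eval (m : ℚ) = 0}.Finite := by
    have h1 : {x : ℚ | q.IsRoot x}.Finite := Polynomial.finite_setOfPred_isRoot hq0
    exact Set.Finite.preimage (Nat.cast_injective.injOn) h1
  obtain ⟨B, hB⟩ := hfin.bddAbove
  set m0 := B + 1 with hm0
  have hne : ∀ m : ℕ, m0 ≤ m → q.eval (m : ℚ) ≠ 0 := by
    intro m hm h0
    have : m ≤ B := hB h0
    omega
  set c0 := p.eval (m0 : ℚ) / q.eval (m0 : ℚ) with hc0
  have hk : ∀ k : ℕ, p.eval ((m0 + k * n : ℕ) : ℚ) = c0 * q.eval ((m0 + k * n : ℕ) : ℚ) := by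
    intro k
    induction k with
    | zero =>
      simp only [zero_mul, add_zero]
      rw [hc0, div_mul_cancel₀ _ (hne m0 le_rfl)]
    | succ k ih =>
      have h1 := hev ((m0 + k * n : ℕ) : ℚ)
      have h2 : ((m0 + k * n : ℕ) : ℚ) + n = ((m0 + (k + 1) * n : ℕ) : ℚ) := by
        push_cast
        ring
      rw [h2, ih] at h1
      have h3 := hne (m0 + k * n) (by omega)
      have h4 : (p.eval ((m0 + (k + 1) * n : ℕ) : ℚ) - c0 * q.eval ((m0 + (k + 1) * n : ℕ) : ℚ)) *
          q.eval ((m0 + k * n : ℕ) : ℚ) = 0 := by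
        rw [sub_mul, h1]
        ring
      rcases mul_eq_zero.mp h4 with h5 | h5
      · exact sub_eq_zero.mp h5
      · exact absurd h5 h3
  have hpc : p - C c0 * q = 0 := by
    refine Polynomial.eq_zero_of_infinite_isRoot _ ?_
    have hinj' : Function.Injective (fun k : ℕ => ((m0 + k * n : ℕ) : ℚ)) := by
      intro a b hab
      have h1 : m0 + a * n = m0 + b * n := Nat.cast_injective (R := ℚ) hab
      have h2 : a * n = b * n := by omega
      exact Nat.eq_of_mul_eq_mul_right hn h2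
    refine Set.Infinite.mono ?_ (Set.infinite_range_of_injective hinj')
    rintro _ ⟨k, rfl⟩
    change (p - C c0 * q).eval _ = 0
    rw [eval_sub, eval_mul, eval_C, hk k, sub_self]
  refine ⟨c0, ?_⟩
  rw [sub_eq_zero] at hpc
  rw [hpc, map_mul, mul_div_assoc, div_self hq1, mul_one]
  rw [IsScalarTower.algebraMap_apply ℚ ℚ[X] FQ]
  rfl

end Pool.Agent.H22
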