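import Mathlib
import Pool.Agent.H22.SL
import Pool.Agent.H22.Opaque
import Pool.Agent.H22.Shift

set_option autoImplicit false

namespace Pool.Agent.H22

open Polynomial

/-- Words in two letters. -/
abbrev Wd : Type := FreeMonoid Bool

/-- The free associative algebra on two letters. -/
abbrev GA : Type := MonoidAlgebra ℚ Wd

/-- Weight of a letter: `false` has weight `1`, `true` has weight `2`. -/
def wl (b : Bool) : ℕ := if b then 2 else 1

/-- Weight of a word. -/
def wt (w : Wd) : ℕ := (w.toList.map wl).sum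

@[simp] theorem wt_one : wt 1 = 0 := rfl

@[simp] theorem wt_mul (w w' : Wd) : wt (w * w') = wt w + wt w' := by
  simp [wt, FreeMonoid.toList_mul]

@[simp] theorem wt_of (b : Bool) : wt (FreeMonoid.of b) = wl b := by
  simp [wt, FreeMonoid.toList_of]

theorem wl_pos (b : Bool) : 1 ≤ wl b := by
  cases b <;> simp [wl]

/-- A word as an element of the algebra. -/
noncomputable abbrev ew (w : Wd) : GA := MonoidAlgebra.of ℚ Wd w

theorem ew_mul (w w' : Wd) : ew (w * w') = ew w * ew w' := map_mul _ _ _

theorem ew_one : ew 1 = 1 := map_one _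

/-- Homogeneous elements of weight `L`. -/
noncomputable def Hm (L : ℕ) : Submodule ℚ GA :=
  Submodule.span ℚ {x | ∃ w : Wd, wt w = L ∧ x = ew w}

theorem ew_mem_Hm (w : Wd) : ew w ∈ Hm (wt w) := Submodule.subset_span ⟨w, rfl, rfl⟩

theorem Hm_one : (1 : GA) ∈ Hm 0 := by
  rw [← ew_one]
  exact ew_mem_Hm 1

theorem Hm_mul (i j : ℕ) (x : GA) (hx : x ∈ Hm i) (y : GA) (hy : y ∈ Hm j) :
    x * y ∈ Hm (i + j) := by
  have h : x * y ∈ Hm i * Hm j := Submodule.mul_mem_mul hx hy
  rw [Hm, Hm, Submodule.span_mul_span] at h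
  refine Submodule.span_le.mpr ?_ h
  rintro _ ⟨_, ⟨w, rfl, rfl⟩, _, ⟨w', rfl, rfl⟩, rfl⟩
  simp only
  rw [← ew_mul, ← wt_mul]
  exact ew_mem_Hm _

/-- Abelianisation to one variable: each letter is sent to `X`. -/
noncomputable def kap : GA →ₐ[ℚ] ℚ[X] :=
  MonoidAlgebra.lift ℚ ℚ[X] Wd (FreeMonoid.lift (fun _ => (X : ℚ[X])))

theorem kap_ew (w : Wd) : kap (ew w) = X ^ w.length := by
  rw [kap, ew, MonoidAlgebra.lift_of]
  induction w using FreeMonoid.recOn with
  | one => simp
  | of_mul b w ih => rw [map_mul, ih, FreeMonoid.lift_eval_of, FreeMonoid.length_mul,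
      FreeMonoid.length_of, pow_add, pow_one]

/-- Representation of the free algebra given by two operators. -/
noncomputable def rep {V : Type*} [AddCommGroup V] [Module ℚ V] (T : Bool → Module.End ℚ V) :
    GA →ₐ[ℚ] Module.End ℚ V :=
  MonoidAlgebra.lift ℚ (Module.End ℚ V) Wd (FreeMonoid.lift T)

theorem rep_ew_one {V : Type*} [AddCommGroup V] [Module ℚ V] (T : Bool → Module.End ℚ V) :
    rep T (ew 1) = 1 := by
  rw [ew_one, map_one]

theorem rep_ew_of_mul {V : Type*} [AddCommGroup V] [Module ℚ V] (T : Bool → Module.End ℚ V)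
    (b : Bool) (w : Wd) : rep T (ew (FreeMonoid.of b * w)) = T b * rep T (ew w) := by
  rw [ew_mul, map_mul]
  congr 1
  rw [rep, ew, MonoidAlgebra.lift_of, FreeMonoid.lift_eval_of]

theorem IsSL.add {F : Type*} [Field F] [Algebra ℚ F] {σ : F ≃ₐ[ℚ] F}
    {V : Type*} [AddCommGroup V] [Module F V] [Module ℚ V] {n : ℕ} {T T' : Module.End ℚ V}
    (h : IsSL σ n T) (h' : IsSL σ n T') : IsSL σ n (T + T') := by
  intro c v
  rw [LinearMap.add_apply, h, h', LinearMap.add_apply, smul_add]

theorem IsSL.smul {F : Type*} [Field F] [Algebra ℚ F] {σ : F ≃ₐ[ℚ] F}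
    {V : Type*} [AddCommGroup V] [Module F V] [Module ℚ V] [IsScalarTower ℚ F V]
    {n : ℕ} {T : Module.End ℚ V}
    (h : IsSL σ n T) (q : ℚ) : IsSL σ n (q • T) := by
  intro c v
  rw [LinearMap.smul_apply, h, LinearMap.smul_apply, smul_comm]

theorem graded_rep {F : Type*} [Field F] [Algebra ℚ F] {σ : F ≃ₐ[ℚ] F}
    {V : Type*} [AddCommGroup V] [Module F V] [Module ℚ V] [IsScalarTower ℚ F V]
    (T : Bool → Module.End ℚ V) (hT : ∀ b, IsSL σ (wl b) (T b)) :
    Graded Hm (rep T) σ where
  one := Hm_one
  mul := Hm_mul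
  sl := by
    intro L φ hφ
    induction hφ using Submodule.span_induction with
    | mem x hx =>
      obtain ⟨w, rfl, rfl⟩ := hx
      induction w using FreeMonoid.recOn with
      | one =>
        rw [rep_ew_one]
        exact IsSL.one
      | of_mul b w ih =>
        rw [rep_ew_of_mul, wt_mul, wt_of]
        exact (hT b).mul ih
    | zero =>
      intro c v
      simp
    | add x y _ _ hx hy =>
      rw [map_add]
      exact hx.add hy
    | smul q x _ hx =>
      rw [map_smul]
      exact hx.smul q

section Mat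

variable {ι : Type} [Fintype ι] [DecidableEq ι]

/-- Semilinear operator attached to a polynomial matrix. -/
noncomputable def opM (n : ℕ) (M : ι → ι → ℚ[X]) : Module.End ℚ (ι → FQ) where
  toFun g i := ∑ j, algebraMap ℚ[X] FQ (M i j) * (shF ^ n) (g j)
  map_add' g g' := by
    ext i
    simp only [Pi.add_apply, map_add, mul_add, Finset.sum_add_distrib]
  map_smul' q g := by
    ext i
    simp only [Pi.smul_apply, RingHom.id_apply, Finset.smul_sum]
    refine Finset.sum_congr rfl fun j _ => ?_
    rw [Algebra.smul_def, Algebra.smul_def, map_mul, AlgEquiv.commutes]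
    ring

omit [DecidableEq ι] in
theorem opM_apply (n : ℕ) (M : ι → ι → ℚ[X]) (g : ι → FQ) (i : ι) :
    opM n M g i = ∑ j, algebraMap ℚ[X] FQ (M i j) * (shF ^ n) (g j) := rfl

omit [DecidableEq ι] in
theorem opM_isSL (n : ℕ) (M : ι → ι → ℚ[X]) : IsSL shF n (opM n M) := by
  intro c g
  ext i
  simp only [opM_apply, Pi.smul_apply, smul_eq_mul, map_mul, Finset.mul_sum]
  refine Finset.sum_congr rfl fun j _ => ?_
  ring

/-- Matrix of a word. -/
noncomputable def MW (M : Bool → ι → ι → ℚ[X]) : List Bool → ι → ι → ℚ[X]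
  | [] => fun i j => if i = j then 1 else 0
  | b :: w => fun i k => ∑ j, M b i j * (shP ^ (wl b)) (MW M w j k)

theorem rep_opM (M : Bool → ι → ι → ℚ[X]) (w : Wd) :
    rep (fun b => opM (wl b) (M b)) (ew w) = opM (wt w) (MW M w.toList) := by
  induction w using FreeMonoid.recOn with
  | one =>
    rw [rep_ew_one]
    ext g i
    simp [opM_apply, MW]
  | of_mul b w ih =>
    rw [rep_ew_of_mul, ih, wt_mul, wt_of]
    refine LinearMap.ext fun g => funext fun i => ?_
    have h1 : (FreeMonoid.of b * w).toList = b :: w.toList := rfl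
    rw [Module.End.mul_apply, opM_apply, opM_apply, h1]
    simp only [MW, opM_apply, map_sum, map_mul, Finset.sum_mul, Finset.mul_sum]
    rw [Finset.sum_comm]
    refine Finset.sum_congr rfl fun k _ => Finset.sum_congr rfl fun j _ => ?_
    rw [shF_pow_algebraMap, pow_add, AlgEquiv.mul_apply, mul_assoc]

theorem natDegree_shP (p : ℚ[X]) : (shP p).natDegree = p.natDegree := by
  have : shP p = p.comp (X + C 1) := by
    rw [shP, algEquivAevalXAddC_apply, ← Polynomial.comp_eq_aeval]
  rw [this, natDegree_comp, natDegree_X_add_C, mul_one]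

theorem natDegree_shP_pow (n : ℕ) (p : ℚ[X]) : ((shP ^ n) p).natDegree = p.natDegree := by
  induction n with
  | zero => simp
  | succ n ih => rw [pow_succ', AlgEquiv.mul_apply, natDegree_shP, ih]

theorem MW_natDegree (M : Bool → ι → ι → ℚ[X]) (e : ℕ)
    (he : ∀ b i j, (M b i j).natDegree ≤ e) (w : List Bool) (i j : ι) :
    (MW M w i j).natDegree ≤ e * w.length := by
  induction w generalizing i j with
  | nil =>
    simp only [MW]
    split_ifs <;> simp
  | cons b w ih =>
    simp only [MW]
    refine natDegree_sum_le_of_forall_le _ _ fun k _ => ?_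
    refine natDegree_mul_le.trans ?_
    rw [natDegree_shP_pow, List.length_cons, Nat.mul_succ, add_comm]
    exact Nat.add_le_add (ih k j) (he b i k)

theorem length_le_wt (w : List Bool) : w.length ≤ (w.map wl).sum := by
  induction w with
  | nil => simp
  | cons b w ih =>
    have := wl_pos b
    simp only [List.length_cons, List.map_cons, List.sum_cons]
    omega

theorem growth_rep (M : Bool → ι → ι → ℚ[X]) :
    Growth Hm (rep (fun b => opM (wl b) (M b))) := by
  obtain ⟨e, he⟩ : ∃ e, ∀ b i j, (M b i j).natDegree ≤ e := by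
    refine ⟨∑ b, ∑ i, ∑ j, (M b i j).natDegree, fun b i j => ?_⟩
    calc (M b i j).natDegree ≤ ∑ j, (M b i j).natDegree :=
          Finset.single_le_sum (f := fun j => (M b i j).natDegree) (fun _ _ => Nat.zero_le _)
            (Finset.mem_univ j)
      _ ≤ ∑ i, ∑ j, (M b i j).natDegree :=
          Finset.single_le_sum (f := fun i => ∑ j, (M b i j).natDegree) (fun _ _ => Nat.zero_le _)
            (Finset.mem_univ i)
      _ ≤ ∑ b, ∑ i, ∑ j, (M b i j).natDegree :=
          Finset.single_le_sum (f := fun b => ∑ i, ∑ j, (M b i j).natDegree)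
            (fun _ _ => Nat.zero_le _) (Finset.mem_univ b)
  refine ⟨Fintype.card ι * Fintype.card ι * (e + 1), fun L κ s φ hφ hcard => ?_⟩
  -- each homogeneous element acts through a matrix with entries of bounded degree
  have hmat : ∀ x ∈ Hm L, ∃ N : ι → ι → Polynomial.degreeLT ℚ (e * L + 1),
      rep (fun b => opM (wl b) (M b)) x = opM L (fun i j => (N i j : ℚ[X])) := by
    intro x hx
    induction hx using Submodule.span_induction with
    | mem x hx =>
      obtain ⟨w, rfl, rfl⟩ := hx
      have hdeg : ∀ i j, MW M w.toList i j ∈ Polynomial.degreeLT ℚ (e * wt w + 1) := by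
        intro i j
        rw [Polynomial.mem_degreeLT]
        refine lt_of_le_of_lt degree_le_natDegree ?_
        have h1 := MW_natDegree M e he w.toList i j
        have h2 := length_le_wt w.toList
        have h3 : e * w.toList.length ≤ e * wt w := Nat.mul_le_mul_left e h2
        exact_mod_cast Nat.lt_succ_of_le (h1.trans h3)
      refine ⟨fun i j => ⟨MW M w.toList i j, hdeg i j⟩, ?_⟩
      rw [rep_opM]
    | zero =>
      refine ⟨0, ?_⟩
      ext g i
      simp [opM_apply]
    | add x y _ _ hx hy =>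
      obtain ⟨N, hN⟩ := hx
      obtain ⟨N', hN'⟩ := hy
      refine ⟨N + N', ?_⟩
      rw [map_add, hN, hN']
      refine LinearMap.ext fun g => funext fun i => ?_
      simp [opM_apply, add_mul, Finset.sum_add_distrib]
    | smul q x _ hx =>
      obtain ⟨N, hN⟩ := hx
      refine ⟨q • N, ?_⟩
      rw [map_smul, hN]
      refine LinearMap.ext fun g => funext fun i => ?_
      simp only [LinearMap.smul_apply, Pi.smul_apply, opM_apply, Finset.smul_sum,
        Submodule.coe_smul]
      refine Finset.sum_congr rfl fun j _ => ?_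
      rw [Algebra.smul_def, Algebra.smul_def, map_mul, ← IsScalarTower.algebraMap_apply]
      ring
  classical
  choose! N hN using hmat
  let v : s → (ι → ι → Polynomial.degreeLT ℚ (e * L + 1)) := fun i => N (φ i)
  have hnli : ¬ LinearIndependent ℚ v := by
    intro hli
    have h1 := hli.fintype_card_le_finrank
    rw [Fintype.card_coe, Module.finrank_pi_fintype] at h1
    simp only [Module.finrank_pi_fintype, Finset.sum_const, Finset.card_univ, smul_eq_mul] at h1
    have h2 : Module.finrank ℚ (Polynomial.degreeLT ℚ (e * L + 1)) = e * L + 1 := by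
      rw [(Polynomial.degreeLTEquiv ℚ (e * L + 1)).finrank_eq]
      simp
    rw [h2] at h1
    have h3 : Fintype.card ι * (Fintype.card ι * (e * L + 1)) ≤
        Fintype.card ι * Fintype.card ι * (e + 1) * (L + 1) := by
      rw [mul_assoc, mul_assoc]
      refine Nat.mul_le_mul_left _ (Nat.mul_le_mul_left _ ?_)
      nlinarith
    omega
  rw [Fintype.not_linearIndependent_iff] at hnli
  obtain ⟨g, hg, i0, hi0⟩ := hnli
  refine ⟨fun i => if h : i ∈ s then g ⟨i, h⟩ else 0, ⟨i0, i0.2, by simpa using hi0⟩, ?_⟩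
  intro x
  rw [← Finset.sum_coe_sort s]
  have h1 : ∀ i : s, (if h : (i : κ) ∈ s then g ⟨i, h⟩ else 0) •
      rep (fun b => opM (wl b) (M b)) (φ i) x = g i • opM L (fun a b => (v i a b : ℚ[X])) x := by
    intro i
    rw [dif_pos i.2, hN _ (hφ i i.2)]
  rw [Finset.sum_congr rfl fun i _ => h1 i]
  refine funext fun a => ?_
  have h2 : ∀ a b, ∑ i, g i • (v i a b : ℚ[X]) = 0 := by
    intro a b
    have := congrFun (congrFun hg a) b
    have h3 := congrArg (Subtype.val) this
    simpa using h3
  simp only [Finset.sum_apply, Pi.smul_apply, opM_apply, Pi.zero_apply, Finset.smul_sum]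
  rw [Finset.sum_comm]
  refine Finset.sum_eq_zero fun b _ => ?_
  have h4 : ∀ i : s, g i • (algebraMap ℚ[X] FQ (v i a b : ℚ[X]) * (shF ^ L) (x b)) =
      algebraMap ℚ[X] FQ (g i • (v i a b : ℚ[X])) * (shF ^ L) (x b) := by
    intro i
    rw [Algebra.smul_def, Algebra.smul_def, map_mul, ← IsScalarTower.algebraMap_apply]
    ring
  rw [Finset.sum_congr rfl fun i _ => h4 i, ← Finset.sum_mul, ← map_sum, h2, map_zero, zero_mul]

end Mat

end Pool.Agent.H22
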