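import Mathlib
import Pool.Agent.H22.Words

set_option autoImplicit false

namespace Pool.Agent.H22

open Polynomial

instance instDecEqWd : DecidableEq Wd := inferInstanceAs (DecidableEq (List Bool))

/-- The finite set of words of weight `m`. -/
def WS : ℕ → Finset Wd
  | 0 => {1}
  | 1 => {FreeMonoid.of false}
  | (m + 2) => (WS (m + 1)).image (fun w => FreeMonoid.of false * w) ∪
      (WS m).image (fun w => FreeMonoid.of true * w)

theorem of_mul_inj (b b' : Bool) (w w' : Wd) :
    FreeMonoid.of b * w = FreeMonoid.of b' * w' ↔ b = b' ∧ w = w' := by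
  constructor
  · intro h
    have h1 : (b :: w.toList : List Bool) = b' :: w'.toList := congrArg FreeMonoid.toList h
    rw [List.cons.injEq] at h1
    exact ⟨h1.1, FreeMonoid.toList.injective h1.2⟩
  · rintro ⟨rfl, rfl⟩
    rfl

theorem of_mul_ne_one (b : Bool) (w : Wd) : FreeMonoid.of b * w ≠ 1 := by
  intro h
  have h1 : (b :: w.toList : List Bool) = [] := congrArg FreeMonoid.toList h
  exact List.cons_ne_nil _ _ h1

theorem mem_WS (m : ℕ) (w : Wd) : w ∈ WS m ↔ wt w = m := by
  induction m using WS.induct generalizing w with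
  | case1 =>
    simp only [WS, Finset.mem_singleton]
    constructor
    · rintro rfl; rfl
    · intro h
      induction w using FreeMonoid.recOn with
      | one => rfl
      | of_mul b w _ =>
        rw [wt_mul, wt_of] at h
        have := wl_pos b
        omega
  | case2 =>
    simp only [WS, Finset.mem_singleton]
    constructor
    · rintro rfl; rfl
    · intro h
      induction w using FreeMonoid.recOn with
      | one => simp at h
      | of_mul b w _ =>
        rw [wt_mul, wt_of] at h
        cases b with
        | true =>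
          simp only [wl, ↓reduceIte] at h
          omega
        | false =>
          simp only [wl, Bool.false_eq_true, ↓reduceIte] at h
          have h0 : wt w = 0 := by omega
          induction w using FreeMonoid.recOn with
          | one => simp
          | of_mul b w _ =>
            rw [wt_mul, wt_of] at h0
            have := wl_pos b
            omega
  | case3 m ih1 ih2 =>
    simp only [WS, Finset.mem_union, Finset.mem_image]
    constructor
    · rintro (⟨w', hw', rfl⟩ | ⟨w', hw', rfl⟩)
      · rw [ih1] at hw'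
        rw [wt_mul, wt_of, hw']
        simp [wl]
        omega
      · rw [ih2] at hw'
        rw [wt_mul, wt_of, hw']
        simp [wl]
        omega
    · intro h
      induction w using FreeMonoid.recOn with
      | one => simp at h
      | of_mul b w _ =>
        rw [wt_mul, wt_of] at h
        cases b with
        | false =>
          left
          refine ⟨w, (ih1 w).mpr ?_, rfl⟩
          simp [wl] at h
          omega
        | true =>
          right
          refine ⟨w, (ih2 w).mpr ?_, rfl⟩
          simp [wl] at h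
          omega

theorem sum_WS_succ {M : Type*} [AddCommMonoid M] (m : ℕ) (F : Wd → M) :
    ∑ w ∈ WS (m + 2), F w = ∑ w ∈ WS (m + 1), F (FreeMonoid.of false * w) +
      ∑ w ∈ WS m, F (FreeMonoid.of true * w) := by
  rw [WS, Finset.sum_union, Finset.sum_image, Finset.sum_image]
  · intro a _ b _ h
    exact ((of_mul_inj _ _ _ _).mp h).2
  · intro a _ b _ h
    exact ((of_mul_inj _ _ _ _).mp h).2
  · rw [Finset.disjoint_left]
    intro w h1 h2
    simp only [Finset.mem_image] at h1 h2
    obtain ⟨a, _, rfl⟩ := h1
    obtain ⟨b, _, h⟩ := h2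
    exact absurd ((of_mul_inj _ _ _ _).mp h).1 (by simp)

/-- Coefficient functional. -/
noncomputable def cf (w : Wd) : GA →ₗ[ℚ] ℚ where
  toFun x := x.coeff w
  map_add' x y := by simp
  map_smul' q x := by simp

theorem cf_ew (w w' : Wd) : cf w (ew w') = if w' = w then 1 else 0 := by
  change (MonoidAlgebra.single w' (1 : ℚ)).coeff w = _
  rw [MonoidAlgebra.coeff_single, Finsupp.single_apply]

/-- Two linear maps on the free algebra agreeing on words agree. -/
theorem GA_ext {M : Type*} [AddCommMonoid M] [Module ℚ M] {f g : GA →ₗ[ℚ] M}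
    (h : ∀ w, f (ew w) = g (ew w)) : f = g := by
  refine LinearMap.ext fun x => ?_
  induction x using MonoidAlgebra.induction_on with
  | of w => exact h w
  | add x y hx hy => rw [map_add, map_add, hx, hy]
  | smul r x hx => rw [map_smul, map_smul, hx]

theorem GA_induction {p : GA → Prop} (x : GA) (h : ∀ w, p (ew w))
    (hadd : ∀ x y, p x → p y → p (x + y)) (hsmul : ∀ (r : ℚ) x, p x → p (r • x)) : p x := by
  induction x using MonoidAlgebra.induction_on with
  | of w => exact h w
  | add x y hx hy => exact hadd x y hx hy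
  | smul r x hx => exact hsmul r x hx

/-- Left strip: remove the first letter `b`. -/
noncomputable def ls (b : Bool) : GA →ₗ[ℚ] GA where
  toFun x := MonoidAlgebra.ofCoeff (x.coeff.comapDomain (fun w => FreeMonoid.of b * w)
    (by intro w _ w' _ h; exact ((of_mul_inj _ _ _ _).mp h).2))
  map_add' x y := by
    apply MonoidAlgebra.ext
    ext w
    rfl
  map_smul' q x := by
    apply MonoidAlgebra.ext
    ext w
    rfl

/-- Right strip: remove the last letter `b`. -/
noncomputable def rs (b : Bool) : GA →ₗ[ℚ] GA where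
  toFun x := MonoidAlgebra.ofCoeff (x.coeff.comapDomain (fun w => w * FreeMonoid.of b)
    (by intro w _ w' _ h; exact mul_right_cancel h))
  map_add' x y := by
    apply MonoidAlgebra.ext
    ext w
    rfl
  map_smul' q x := by
    apply MonoidAlgebra.ext
    ext w
    rfl

theorem cf_ls (b : Bool) (w : Wd) (x : GA) : cf w (ls b x) = cf (FreeMonoid.of b * w) x := rfl

theorem cf_rs (b : Bool) (w : Wd) (x : GA) : cf w (rs b x) = cf (w * FreeMonoid.of b) x := rfl

theorem GA_cf_ext {x y : GA} (h : ∀ w, cf w x = cf w y) : x = y := by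
  apply MonoidAlgebra.ext
  ext w
  exact h w

theorem ls_ew_one (b : Bool) : ls b (ew 1) = 0 := by
  refine GA_cf_ext fun w => ?_
  rw [cf_ls, cf_ew, if_neg (of_mul_ne_one b w).symm, map_zero]

theorem ls_ew_of_mul (b b' : Bool) (w : Wd) :
    ls b (ew (FreeMonoid.of b' * w)) = if b' = b then ew w else 0 := by
  refine GA_cf_ext fun v => ?_
  rw [cf_ls, cf_ew]
  by_cases hb : b' = b
  · subst hb
    rw [if_pos rfl, cf_ew]
    by_cases hw : w = v
    · subst hw; simp
    · rw [if_neg hw, if_neg]
      intro h
      exact hw ((of_mul_inj _ _ _ _).mp h).2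
  · rw [if_neg hb, map_zero, if_neg]
    intro h
    exact hb ((of_mul_inj _ _ _ _).mp h).1

theorem ls_mul (b : Bool) (x y : GA) : ls b (x * y) = ls b x * y + cf 1 x • ls b y := by
  induction x using GA_induction with
  | h w =>
    induction w using FreeMonoid.recOn with
    | one => rw [ls_ew_one, ew_one, one_mul, zero_mul, zero_add, ← ew_one, cf_ew, if_pos rfl,
        one_smul]
    | of_mul b' w ih' =>
      clear ih'
      rw [cf_ew, if_neg (of_mul_ne_one b' w), zero_smul, add_zero, ls_ew_of_mul]
      induction y using GA_induction with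
      | h v =>
        rw [← ew_mul, mul_assoc, ls_ew_of_mul]
        split_ifs
        · rw [ew_mul]
        · rw [zero_mul]
      | hadd x y hx hy => rw [mul_add, map_add, hx, hy, mul_add]
      | hsmul r x hx => rw [mul_smul_comm, map_smul, hx, mul_smul_comm]
  | hadd x y hx hy =>
    rw [add_mul, map_add, hx, hy, map_add, map_add, add_mul, add_smul]
    abel
  | hsmul r x hx =>
    rw [smul_mul_assoc, map_smul, hx, map_smul, map_smul, smul_add, smul_mul_assoc, smul_smul,
      smul_eq_mul]

theorem rs_ew_one (b : Bool) : rs b (ew 1) = 0 := by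
  refine GA_cf_ext fun w => ?_
  rw [cf_rs, cf_ew, if_neg, map_zero]
  intro h
  have := congrArg FreeMonoid.length h
  simp [FreeMonoid.length_mul] at this

theorem rs_ew_mul_of (b b' : Bool) (w : Wd) :
    rs b (ew (w * FreeMonoid.of b')) = if b' = b then ew w else 0 := by
  refine GA_cf_ext fun v => ?_
  rw [cf_rs, cf_ew]
  have key : w * FreeMonoid.of b' = v * FreeMonoid.of b ↔ w = v ∧ b' = b := by
    constructor
    · intro h
      have h1 : (w.toList ++ [b'] : List Bool) = v.toList ++ [b] := congrArg FreeMonoid.toList h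
      obtain ⟨h2, h3⟩ := List.append_inj' h1 rfl
      exact ⟨FreeMonoid.toList.injective h2, by simpa using h3⟩
    · rintro ⟨rfl, rfl⟩
      rfl
  by_cases hb : b' = b
  · subst hb
    rw [if_pos rfl, cf_ew]
    by_cases hw : w = v
    · subst hw; simp
    · rw [if_neg hw, if_neg]
      intro h
      exact hw (key.mp h).1
  · rw [if_neg hb, map_zero, if_neg]
    intro h
    exact hb (key.mp h).2

theorem exists_last (w : Wd) : w = 1 ∨ ∃ (v : Wd) (b : Bool), w = v * FreeMonoid.of b := by
  rcases List.eq_nil_or_concat w.toList with h | ⟨l, b, h⟩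
  · left
    exact FreeMonoid.toList.injective h
  · right
    refine ⟨FreeMonoid.ofList l, b, FreeMonoid.toList.injective ?_⟩
    rw [h]
    simp [FreeMonoid.toList_mul]

theorem rs_mul (b : Bool) (x y : GA) : rs b (x * y) = x * rs b y + cf 1 y • rs b x := by
  induction y using GA_induction with
  | h w =>
    rcases exists_last w with rfl | ⟨v, b', rfl⟩
    · rw [rs_ew_one, ew_one, mul_one, mul_zero, zero_add, ← ew_one, cf_ew, if_pos rfl, one_smul]
    · have h1 : v * FreeMonoid.of b' ≠ 1 := by
        intro h
        have := congrArg FreeMonoid.length h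
        simp [FreeMonoid.length_mul] at this
      rw [cf_ew, if_neg h1, zero_smul, add_zero, rs_ew_mul_of]
      induction x using GA_induction with
      | h u =>
        rw [← ew_mul, ← mul_assoc, rs_ew_mul_of]
        split_ifs
        · rw [ew_mul]
        · rw [mul_zero]
      | hadd x y hx hy => rw [add_mul, map_add, hx, hy, add_mul]
      | hsmul r x hx => rw [smul_mul_assoc, map_smul, hx, smul_mul_assoc]
  | hadd x y hx hy =>
    rw [mul_add, map_add, hx, hy, map_add, map_add, mul_add, add_smul]
    abel
  | hsmul r x hx =>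
    rw [mul_smul_comm, map_smul, hx, map_smul, map_smul, smul_add, mul_smul_comm, smul_smul,
      smul_eq_mul]

/-- Elements of weight at most `M`. -/
noncomputable def FM (M : ℕ) : Submodule ℚ GA :=
  Submodule.span ℚ {x | ∃ w : Wd, wt w ≤ M ∧ x = ew w}

theorem ew_mem_FM {M : ℕ} {w : Wd} (h : wt w ≤ M) : ew w ∈ FM M :=
  Submodule.subset_span ⟨w, h, rfl⟩

theorem Hm_le_FM {L M : ℕ} (h : L ≤ M) : Hm L ≤ FM M := by
  refine Submodule.span_le.mpr ?_
  rintro _ ⟨w, hw, rfl⟩
  exact ew_mem_FM (hw.le.trans h)

theorem one_mem_FM (M : ℕ) : (1 : GA) ∈ FM M := by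
  rw [← ew_one]
  exact ew_mem_FM (Nat.zero_le _)

theorem ls_FM {M : ℕ} (b : Bool) {x : GA} (hx : x ∈ FM M) : ls b x ∈ FM M := by
  induction hx using Submodule.span_induction with
  | mem x hx =>
    obtain ⟨w, hw, rfl⟩ := hx
    induction w using FreeMonoid.recOn with
    | one => rw [ls_ew_one]; exact Submodule.zero_mem _
    | of_mul b' w _ =>
      rw [ls_ew_of_mul]
      split_ifs
      · rw [wt_mul] at hw
        exact ew_mem_FM (by omega)
      · exact Submodule.zero_mem _
  | zero => rw [map_zero]; exact Submodule.zero_mem _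
  | add x y _ _ hx hy => rw [map_add]; exact Submodule.add_mem _ hx hy
  | smul c x _ hx => rw [map_smul]; exact Submodule.smul_mem _ _ hx

theorem rs_FM {M : ℕ} (b : Bool) {x : GA} (hx : x ∈ FM M) : rs b x ∈ FM M := by
  induction hx using Submodule.span_induction with
  | mem x hx =>
    obtain ⟨w, hw, rfl⟩ := hx
    rcases exists_last w with rfl | ⟨v, b', rfl⟩
    · rw [rs_ew_one]; exact Submodule.zero_mem _
    · rw [rs_ew_mul_of]
      split_ifs
      · rw [wt_mul] at hw
        exact ew_mem_FM (by omega)
      · exact Submodule.zero_mem _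
  | zero => rw [map_zero]; exact Submodule.zero_mem _
  | add x y _ _ hx hy => rw [map_add]; exact Submodule.add_mem _ hx hy
  | smul c x _ hx => rw [map_smul]; exact Submodule.smul_mem _ _ hx

section TauRep

variable {V : Type*} [AddCommGroup V] [Module ℚ V] (T : Bool → Module.End ℚ V)

/-- Graded version of the representation: letters are weighted by powers of a central variable. -/
noncomputable def repT : GA →ₐ[ℚ] (Module.End ℚ V)[X] :=
  MonoidAlgebra.lift ℚ ((Module.End ℚ V)[X]) Wd
    (FreeMonoid.lift (fun b => Polynomial.monomial (wl b) (T b)))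

theorem repT_ew (w : Wd) : repT T (ew w) = Polynomial.monomial (wt w) (rep T (ew w)) := by
  induction w using FreeMonoid.recOn with
  | one =>
    rw [rep_ew_one, ew_one, map_one, wt_one, Polynomial.monomial_zero_one]
  | of_mul b w ih =>
    rw [rep_ew_of_mul, ew_mul, map_mul, ih, wt_mul, wt_of, ← Polynomial.monomial_mul_monomial]
    congr 1
    rw [repT, ew, MonoidAlgebra.lift_of, FreeMonoid.lift_eval_of]

theorem repT_Hm {L : ℕ} {x : GA} (hx : x ∈ Hm L) :
    repT T x = Polynomial.monomial L (rep T x) := by
  induction hx using Submodule.span_induction with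
  | mem x hx =>
    obtain ⟨w, rfl, rfl⟩ := hx
    exact repT_ew T w
  | zero => simp
  | add x y _ _ hx hy => rw [map_add, map_add, hx, hy, map_add]
  | smul c x _ hx => rw [map_smul, map_smul, hx, Polynomial.smul_monomial]

theorem repT_FM {M : ℕ} {x : GA} (hx : x ∈ FM M) : (repT T x).natDegree ≤ M := by
  induction hx using Submodule.span_induction with
  | mem x hx =>
    obtain ⟨w, hw, rfl⟩ := hx
    rw [repT_ew]
    exact (Polynomial.natDegree_monomial_le _).trans hw
  | zero => simp
  | add x y _ _ hx hy =>
    rw [map_add]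
    exact (Polynomial.natDegree_add_le _ _).trans (max_le hx hy)
  | smul c x _ hx =>
    rw [map_smul]
    exact (Polynomial.natDegree_smul_le _ _).trans hx

theorem repT_coeff (m : ℕ) (x : GA) :
    (repT T x).coeff m = ∑ w ∈ WS m, cf w x • rep T (ew w) := by
  induction x using GA_induction with
  | h v =>
    rw [repT_ew, Polynomial.coeff_monomial]
    simp only [cf_ew, ite_smul, one_smul, zero_smul]
    rw [Finset.sum_ite_eq (WS m) v]
    simp only [mem_WS]
  | hadd x y hx hy =>
    rw [map_add, Polynomial.coeff_add, hx, hy, ← Finset.sum_add_distrib]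
    refine Finset.sum_congr rfl fun w _ => ?_
    rw [map_add, add_smul]
  | hsmul r x hx =>
    rw [map_smul, Polynomial.coeff_smul, hx, Finset.smul_sum]
    refine Finset.sum_congr rfl fun w _ => ?_
    rw [map_smul, smul_eq_mul, mul_smul]

end TauRep

section Opacity

variable {V : Type*} [AddCommGroup V] [Module ℚ V] {T : Bool → Module.End ℚ V}

theorem sub_mul_self (S : Subalgebra ℚ GA) :
    Subalgebra.toSubmodule S * Subalgebra.toSubmodule S = Subalgebra.toSubmodule S :=
  S.isIdempotentElem_toSubmodule

theorem ls_adjoin {α β : GA} {M : ℕ} (hα : α ∈ FM M) (hβ : β ∈ FM M) (b : Bool) (x : GA)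
    (hx : x ∈ Algebra.adjoin ℚ {α, β}) :
    ls b x ∈ FM M * Subalgebra.toSubmodule (Algebra.adjoin ℚ {α, β}) := by
  have h1 : ∀ y ∈ FM M, y ∈ FM M * Subalgebra.toSubmodule (Algebra.adjoin ℚ {α, β}) := by
    intro y hy
    have := Submodule.mul_mem_mul hy (show (1 : GA) ∈ Subalgebra.toSubmodule
      (Algebra.adjoin ℚ {α, β}) from Subalgebra.one_mem (Algebra.adjoin ℚ {α, β}))
    rwa [mul_one] at this
  induction hx using Algebra.adjoin_induction with
  | mem x hx =>
    rcases hx with rfl | hx
    · exact h1 _ (ls_FM b hα)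
    · rw [Set.mem_singleton_iff] at hx
      subst hx
      exact h1 _ (ls_FM b hβ)
  | algebraMap r =>
    rw [Algebra.algebraMap_eq_smul_one, map_smul, ← ew_one, ls_ew_one, smul_zero]
    exact Submodule.zero_mem _
  | add x y _ _ hx hy => rw [map_add]; exact Submodule.add_mem _ hx hy
  | mul x y _ hy' hx hy =>
    rw [ls_mul]
    refine Submodule.add_mem _ ?_ (Submodule.smul_mem _ _ hy)
    have h2 := Submodule.mul_mem_mul hx (show y ∈ Subalgebra.toSubmodule
      (Algebra.adjoin ℚ {α, β}) from hy')
    rwa [mul_assoc, sub_mul_self] at h2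

theorem rs_adjoin {α β : GA} {M : ℕ} (hα : α ∈ FM M) (hβ : β ∈ FM M) (b : Bool) (x : GA)
    (hx : x ∈ Algebra.adjoin ℚ {α, β}) :
    rs b x ∈ Subalgebra.toSubmodule (Algebra.adjoin ℚ {α, β}) * FM M := by
  have h1 : ∀ y ∈ FM M, y ∈ Subalgebra.toSubmodule (Algebra.adjoin ℚ {α, β}) * FM M := by
    intro y hy
    have := Submodule.mul_mem_mul (show (1 : GA) ∈ Subalgebra.toSubmodule
      (Algebra.adjoin ℚ {α, β}) from Subalgebra.one_mem (Algebra.adjoin ℚ {α, β})) hy
    rwa [one_mul] at this
  induction hx using Algebra.adjoin_induction with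
  | mem x hx =>
    rcases hx with rfl | hx
    · exact h1 _ (rs_FM b hα)
    · rw [Set.mem_singleton_iff] at hx
      subst hx
      exact h1 _ (rs_FM b hβ)
  | algebraMap r =>
    rw [Algebra.algebraMap_eq_smul_one, map_smul, ← ew_one, rs_ew_one, smul_zero]
    exact Submodule.zero_mem _
  | add x y _ _ hx hy => rw [map_add]; exact Submodule.add_mem _ hx hy
  | mul x y hx' _ hx hy =>
    rw [rs_mul]
    refine Submodule.add_mem _ ?_ (Submodule.smul_mem _ _ hx)
    have h2 := Submodule.mul_mem_mul (show x ∈ Subalgebra.toSubmodule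
      (Algebra.adjoin ℚ {α, β}) from hx') hy
    rwa [← mul_assoc, sub_mul_self] at h2

/-- The module of contexts. -/
noncomputable def CT (α β : GA) (M : ℕ) : Submodule ℚ GA :=
  FM M * (Subalgebra.toSubmodule (Algebra.adjoin ℚ {α, β}) * FM M)

theorem CT_ls {α β : GA} {M : ℕ} (hα : α ∈ FM M) (hβ : β ∈ FM M) (b : Bool) (x : GA)
    (hx : x ∈ CT α β M) : ls b x ∈ CT α β M := by
  refine Submodule.mul_induction_on hx ?_ ?_
  · intro h hh y hy
    rw [ls_mul]
    refine Submodule.add_mem _ (Submodule.mul_mem_mul (ls_FM b hh) hy)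
      (Submodule.smul_mem _ _ ?_)
    refine Submodule.mul_induction_on hy ?_ ?_
    · intro Ψ hΨ h' hh'
      rw [ls_mul]
      refine Submodule.add_mem _ ?_ (Submodule.smul_mem _ _ ?_)
      · have := Submodule.mul_mem_mul (ls_adjoin hα hβ b Ψ hΨ) hh'
        rwa [mul_assoc] at this
      · have h3 := Submodule.mul_mem_mul (one_mem_FM M) (Submodule.mul_mem_mul
          (show (1 : GA) ∈ Subalgebra.toSubmodule (Algebra.adjoin ℚ {α, β}) from
            Subalgebra.one_mem (Algebra.adjoin ℚ {α, β})) (ls_FM b hh'))
        rwa [one_mul, one_mul] at h3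
    · intro y z hy hz
      rw [map_add]
      exact Submodule.add_mem _ hy hz
  · intro y z hy hz
    rw [map_add]
    exact Submodule.add_mem _ hy hz

theorem CT_rs {α β : GA} {M : ℕ} (hα : α ∈ FM M) (hβ : β ∈ FM M) (b : Bool) (x : GA)
    (hx : x ∈ CT α β M) : rs b x ∈ CT α β M := by
  have hx' : x ∈ (FM M * Subalgebra.toSubmodule (Algebra.adjoin ℚ {α, β})) * FM M := by
    rwa [mul_assoc]
  refine Submodule.mul_induction_on hx' ?_ ?_
  · intro y hy h hh
    rw [rs_mul]
    refine Submodule.add_mem _ ?_ (Submodule.smul_mem _ _ ?_)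
    · have := Submodule.mul_mem_mul hy (rs_FM b hh)
      rwa [mul_assoc] at this
    · refine Submodule.mul_induction_on hy ?_ ?_
      · intro h' hh' Ψ hΨ
        rw [rs_mul]
        refine Submodule.add_mem _ (Submodule.mul_mem_mul hh' (rs_adjoin hα hβ b Ψ hΨ))
          (Submodule.smul_mem _ _ ?_)
        have h3 := Submodule.mul_mem_mul (rs_FM b hh') (Submodule.mul_mem_mul
          (show (1 : GA) ∈ Subalgebra.toSubmodule (Algebra.adjoin ℚ {α, β}) from
            Subalgebra.one_mem (Algebra.adjoin ℚ {α, β})) (one_mem_FM M))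
        rwa [mul_one, mul_one] at h3
      · intro y z hy hz
        rw [map_add]
        exact Submodule.add_mem _ hy hz
  · intro y z hy hz
    rw [map_add]
    exact Submodule.add_mem _ hy hz

theorem adjoin_le_CT {α β : GA} {M : ℕ} (x : GA) (hx : x ∈ Algebra.adjoin ℚ {α, β}) :
    x ∈ CT α β M := by
  have h3 := Submodule.mul_mem_mul (one_mem_FM M) (Submodule.mul_mem_mul
    (show x ∈ Subalgebra.toSubmodule (Algebra.adjoin ℚ {α, β}) from hx) (one_mem_FM M))
  rwa [one_mul, mul_one] at h3

theorem repT_adjoin {α β : GA} (hα : repT T α = 0) (hβ : repT T β = 0) (x : GA)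
    (hx : x ∈ Algebra.adjoin ℚ {α, β}) : (repT T x).natDegree = 0 := by
  have h : ∃ c, repT T x = Polynomial.C c := by
    induction hx using Algebra.adjoin_induction with
    | mem x hx =>
      refine ⟨0, ?_⟩
      rcases hx with rfl | hx
      · rw [hα, map_zero]
      · rw [Set.mem_singleton_iff] at hx
        subst hx
        rw [hβ, map_zero]
    | algebraMap r =>
      refine ⟨algebraMap ℚ _ r, ?_⟩
      rw [AlgHom.commutes]
      rfl
    | add x y _ _ hx hy =>
      obtain ⟨c, hc⟩ := hx
      obtain ⟨d, hd⟩ := hy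
      exact ⟨c + d, by rw [map_add, hc, hd, map_add]⟩
    | mul x y _ _ hx hy =>
      obtain ⟨c, hc⟩ := hx
      obtain ⟨d, hd⟩ := hy
      exact ⟨c * d, by rw [map_mul, hc, hd, map_mul]⟩
  obtain ⟨c, hc⟩ := h
  rw [hc, Polynomial.natDegree_C]

theorem repT_CT {α β : GA} {M : ℕ} (hα : repT T α = 0) (hβ : repT T β = 0) (x : GA)
    (hx : x ∈ CT α β M) : (repT T x).natDegree ≤ 2 * M := by
  refine Submodule.mul_induction_on hx ?_ ?_
  · intro h hh y hy
    refine Submodule.mul_induction_on hy ?_ ?_
    · intro Ψ hΨ h' hh'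
      rw [map_mul, map_mul]
      refine Polynomial.natDegree_mul_le.trans ?_
      have h1 := repT_FM T hh
      have h2 := repT_FM T hh'
      have h3 := repT_adjoin hα hβ Ψ hΨ
      have h4 := Polynomial.natDegree_mul_le (p := repT T Ψ) (q := repT T h')
      omega
    · intro y z hy hz
      rw [mul_add, map_add]
      exact (Polynomial.natDegree_add_le _ _).trans (max_le hy hz)
  · intro y z hy hz
    rw [map_add]
    exact (Polynomial.natDegree_add_le _ _).trans (max_le hy hz)

theorem CT_strips {α β : GA} {M : ℕ} (hα : α ∈ FM M) (hβ : β ∈ FM M) (v₁ v₂ : Wd) :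
    ∀ x ∈ CT α β M, ∃ y ∈ CT α β M, ∀ w, cf w y = cf (v₁ * w * v₂) x := by
  induction v₁ using FreeMonoid.recOn with
  | one =>
    -- strip on the right
    have key : ∀ n : ℕ, ∀ v₂ : Wd, v₂.length = n →
        ∀ x ∈ CT α β M, ∃ y ∈ CT α β M, ∀ w, cf w y = cf (w * v₂) x := by
      intro n
      induction n with
      | zero =>
        intro v hv x hx
        have : v = 1 := by
          rcases exists_last v with h | ⟨u, b, rfl⟩
          · exact h
          · simp [FreeMonoid.length_mul] at hv
        subst this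
        exact ⟨x, hx, fun w => by rw [mul_one]⟩
      | succ n ih =>
        intro v hv x hx
        rcases exists_last v with rfl | ⟨u, b, rfl⟩
        · simp at hv
        · have hu : u.length = n := by
            simp [FreeMonoid.length_mul] at hv
            exact hv
          obtain ⟨y, hy, h⟩ := ih u hu (rs b x) (CT_rs hα hβ b x hx)
          exact ⟨y, hy, fun w => by rw [h, cf_rs, mul_assoc]⟩
    intro x hx
    obtain ⟨y, hy, h⟩ := key _ v₂ rfl x hx
    exact ⟨y, hy, fun w => by rw [h, one_mul]⟩
  | of_mul b v ih =>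
    intro x hx
    obtain ⟨y, hy, h⟩ := ih (ls b x) (CT_ls hα hβ b x hx)
    exact ⟨y, hy, fun w => by rw [h, cf_ls]; simp only [mul_assoc]⟩

/-- Opacity: contexts of elements of a subalgebra whose generators act as zero act as zero
in large weight. -/
theorem opacity {α β : GA} {M : ℕ} {l l' : ℕ} (hα : α ∈ Hm l) (hβ : β ∈ Hm l') (hl : l ≤ M)
    (hl' : l' ≤ M) (hα0 : rep T α = 0) (hβ0 : rep T β = 0) (Φ : GA)
    (hΦ : Φ ∈ Algebra.adjoin ℚ {α, β}) (v₁ v₂ : Wd) (m : ℕ) (hm : 2 * M < m) :
    ∑ w ∈ WS m, cf (v₁ * w * v₂) Φ • rep T (ew w) = 0 := by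
  obtain ⟨y, hy, h⟩ := CT_strips (Hm_le_FM hl hα) (Hm_le_FM hl' hβ) v₁ v₂ Φ (adjoin_le_CT Φ hΦ)
  have h1 : repT T α = 0 := by rw [repT_Hm T hα, hα0, map_zero]
  have h2 : repT T β = 0 := by rw [repT_Hm T hβ, hβ0, map_zero]
  have h3 := repT_CT h1 h2 y hy
  have h4 : (repT T y).coeff m = 0 := Polynomial.coeff_eq_zero_of_natDegree_lt (by omega)
  rw [repT_coeff] at h4
  rw [← h4]
  exact Finset.sum_congr rfl fun w _ => by rw [h]

end Opacity

end Pool.Agent.H22
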