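import Mathlib
import Pool.Agent.H22.Strip

set_option autoImplicit false

namespace Pool.Agent.H22

open Polynomial

/-- Normal forms of elements of the free differential polynomial ring: polynomial in `x` on the
left, word on the right. -/
abbrev SA : Type := Wd →₀ ℚ[X]

instance instCountablePoly : Countable ℚ[X] :=
  Function.Injective.countable (f := fun p : ℚ[X] => p.toFinsupp.coeff)
    (AddMonoidAlgebra.coeff_injective.comp Polynomial.toFinsupp_injective)

instance instCountableWd : Countable Wd := inferInstanceAs (Countable (List Bool))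

instance instCountableSA : Countable SA := inferInstance

/-- Words of length at most `D`. -/
noncomputable def LS (D : ℕ) : Finset Wd :=
  Set.Finite.toFinset (s := {w : Wd | w.length ≤ D}) (List.finite_length_le Bool D)

theorem mem_LS (D : ℕ) (w : Wd) : w ∈ LS D ↔ w.length ≤ D := by
  exact Set.Finite.mem_toFinset _

theorem one_mem_LS (D : ℕ) : (1 : Wd) ∈ LS D := by
  rw [mem_LS]
  exact Nat.zero_le _

theorem tail_mem_LS {D : ℕ} {b : Bool} {w : Wd} (h : FreeMonoid.of b * w ∈ LS D) : w ∈ LS D := by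
  rw [mem_LS] at h ⊢
  rw [FreeMonoid.length_mul] at h
  omega

/-- A bound for the length of the words in the support. -/
noncomputable def bd (f : SA) : ℕ := f.support.sup FreeMonoid.length

theorem mem_LS_bd (f : SA) (w : Wd) (h : f w ≠ 0) : w ∈ LS (bd f) := by
  rw [mem_LS]
  exact Finset.le_sup (f := FreeMonoid.length) (Finsupp.mem_support_iff.mpr h)

/-- Index type. -/
abbrev Ix (f : SA) : Type := {w : Wd // w ∈ LS (bd f)}

/-- The matrix of the transfer operator. -/
noncomputable def Mx (f : SA) (b : Bool) (i j : Ix f) : ℚ[X] :=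
  (if j.1 = FreeMonoid.of b * i.1 then 1 else 0) +
    (if j.1 = 1 then (shP ^ (wl b)) (f (FreeMonoid.of b * i.1)) else 0)

/-- The transfer operators over the field of rational functions. -/
noncomputable def TF (f : SA) (b : Bool) : Module.End ℚ (Ix f → FQ) := opM (wl b) (Mx f b)

/-- The transfer operators on normal forms, as functions. -/
noncomputable def LamFun (f : SA) (b : Bool) (G : SA) : SA :=
  ((G + (G 1) • f).comapDomain (fun w => FreeMonoid.of b * w)
    (by intro w _ w' _ h; exact ((of_mul_inj _ _ _ _).mp h).2)).mapRange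
      (fun p => (shP ^ (wl b)) p) (map_zero _)

theorem LamFun_apply (f : SA) (b : Bool) (G : SA) (w : Wd) :
    LamFun f b G w =
      (shP ^ (wl b)) (G (FreeMonoid.of b * w) + G 1 * f (FreeMonoid.of b * w)) := rfl

/-- The transfer operators on normal forms. -/
noncomputable def Lam (f : SA) (b : Bool) : SA →ₗ[ℚ] SA where
  toFun G := LamFun f b G
  map_add' G G' := by
    ext1 w
    rw [Finsupp.add_apply, LamFun_apply, LamFun_apply, LamFun_apply, ← map_add,
      Finsupp.add_apply, Finsupp.add_apply]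
    congr 1
    ring
  map_smul' q G := by
    ext1 w
    rw [Finsupp.smul_apply, LamFun_apply, LamFun_apply, RingHom.id_apply, ← map_smul,
      Finsupp.smul_apply, Finsupp.smul_apply, smul_add, smul_mul_assoc]

theorem Lam_apply (f : SA) (b : Bool) (G : SA) (w : Wd) :
    Lam f b G w = (shP ^ (wl b)) (G (FreeMonoid.of b * w) + G 1 * f (FreeMonoid.of b * w)) := by
  rfl

/-- Iterated transfer operators: the last letter acts first. -/
noncomputable def LamW (f : SA) (w : Wd) : SA →ₗ[ℚ] SA :=
  FreeMonoid.lift (M := Module.End ℚ SA) (Lam f) w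

theorem LamW_one (f : SA) (G : SA) : LamW f 1 G = G := by
  rw [LamW, map_one]
  rfl

theorem LamW_of_mul (f : SA) (b : Bool) (w : Wd) (G : SA) :
    LamW f (FreeMonoid.of b * w) G = Lam f b (LamW f w G) := by
  rw [LamW, map_mul, FreeMonoid.lift_eval_of]
  rfl

/-- Restriction of a normal form to a vector. -/
noncomputable def res (f : SA) : SA →ₗ[ℚ] (Ix f → FQ) where
  toFun G := fun i => algebraMap ℚ[X] FQ (G i.1)
  map_add' G G' := by
    funext i
    simp
  map_smul' q G := by
    funext i
    simp only [Finsupp.smul_apply, Pi.smul_apply, RingHom.id_apply]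
    rw [Algebra.smul_def, Algebra.smul_def, map_mul, ← IsScalarTower.algebraMap_apply]

/-- Support condition. -/
def Supp (f G : SA) : Prop := ∀ w, G w ≠ 0 → w ∈ LS (bd f)

theorem Supp_Lam (f G : SA) (b : Bool) (hG : Supp f G) : Supp f (Lam f b G) := by
  intro w hw
  rw [Lam_apply] at hw
  have h1 : G (FreeMonoid.of b * w) ≠ 0 ∨ f (FreeMonoid.of b * w) ≠ 0 := by
    by_contra hcon
    push Not at hcon
    rw [hcon.1, hcon.2, mul_zero, add_zero, map_zero] at hw
    exact hw rfl
  rcases h1 with h1 | h1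
  · exact tail_mem_LS (hG _ h1)
  · exact tail_mem_LS (mem_LS_bd f _ h1)

theorem res_Lam (f G : SA) (b : Bool) (hG : Supp f G) :
    TF f b (res f G) = res f (Lam f b G) := by
  funext i
  change opM (wl b) (Mx f b) (res f G) i = algebraMap ℚ[X] FQ (Lam f b G i.1)
  rw [opM_apply, Lam_apply]
  have h1 : ∀ j : Ix f, algebraMap ℚ[X] FQ (Mx f b i j) * (shF ^ (wl b)) (res f G j) =
      algebraMap ℚ[X] FQ (Mx f b i j * (shP ^ (wl b)) (G j.1)) := by
    intro j
    rw [map_mul, ← shF_pow_algebraMap]
    rfl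
  rw [Finset.sum_congr rfl fun j _ => h1 j, ← map_sum]
  congr 1
  simp only [Mx, add_mul, Finset.sum_add_distrib, ite_mul, one_mul, zero_mul]
  rw [map_add, map_mul (shP ^ wl b)]
  congr 1
  · -- the shift part
    by_cases hmem : FreeMonoid.of b * i.1 ∈ LS (bd f)
    · rw [Finset.sum_eq_single (⟨FreeMonoid.of b * i.1, hmem⟩ : Ix f)]
      · rw [if_pos rfl]
      · intro j _ hj
        rw [if_neg]
        intro h
        exact hj (Subtype.ext h)
      · intro h
        exact absurd (Finset.mem_univ _) h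
    · have h0 : G (FreeMonoid.of b * i.1) = 0 := by
        by_contra h
        exact hmem (hG _ h)
      rw [h0, map_zero]
      refine Finset.sum_eq_zero fun j _ => ?_
      rw [if_neg]
      intro h
      exact hmem (h ▸ j.2)
  · rw [Finset.sum_eq_single (⟨1, one_mem_LS _⟩ : Ix f)]
    · rw [if_pos rfl, mul_comm]
    · intro j _ hj
      rw [if_neg]
      intro h
      exact hj (Subtype.ext h)
    · intro h
      exact absurd (Finset.mem_univ _) h

theorem Supp_LamW (f G : SA) (hG : Supp f G) (w : Wd) : Supp f (LamW f w G) := by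
  induction w using FreeMonoid.recOn with
  | one => rwa [LamW_one]
  | of_mul b w ih =>
    rw [LamW_of_mul]
    exact Supp_Lam f _ b ih

theorem res_LamW (f G : SA) (hG : Supp f G) (w : Wd) :
    rep (TF f) (ew w) (res f G) = res f (LamW f w G) := by
  induction w using FreeMonoid.recOn with
  | one => rw [rep_ew_one, LamW_one]; rfl
  | of_mul b w ih =>
    rw [rep_ew_of_mul, Module.End.mul_apply, ih, LamW_of_mul, res_Lam f _ b (Supp_LamW f G hG w)]

theorem res_inj (f G : SA) (hG : Supp f G) (h : res f G = 0) : G = 0 := by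
  ext1 w
  rw [Finsupp.zero_apply]
  by_contra hne
  have h1 := congrFun h (⟨w, hG w hne⟩ : Ix f)
  change algebraMap ℚ[X] FQ (G w) = 0 at h1
  rw [map_eq_zero_iff _ (IsFractionRing.injective ℚ[X] FQ)] at h1
  exact hne h1

/-- From vanishing of the operator sum to vanishing on normal forms. -/
theorem sum_LamW_eq_zero (f G : SA) (hG : Supp f G) (m : ℕ) (c : Wd → ℚ)
    (h : ∑ w ∈ WS m, c w • rep (TF f) (ew w) = 0) :
    ∑ w ∈ WS m, c w • LamW f w G = 0 := by
  apply res_inj f
  · intro w hw
    by_contra hmem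
    apply hw
    rw [Finsupp.finsetSum_apply]
    refine Finset.sum_eq_zero fun v _ => ?_
    rw [Finsupp.smul_apply]
    have : LamW f v G w = 0 := by
      by_contra hne
      exact hmem (Supp_LamW f G hG v w hne)
    rw [this, smul_zero]
  · rw [map_sum]
    have h1 := congrArg (fun T : Module.End ℚ (Ix f → FQ) => T (res f G)) h
    simp only [LinearMap.sum_apply, LinearMap.smul_apply, LinearMap.zero_apply] at h1
    rw [← h1]
    refine Finset.sum_congr rfl fun w _ => ?_
    rw [map_smul, res_LamW f G hG]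

/-- One step of the construction. -/
theorem exists_next (f : SA) (α β : GA) (l : ℕ) (hA : Adm Hm kap α β l) :
    ∃ φ ∈ Algebra.adjoin ℚ {α, β}, ∃ L, φ ∈ Hm L ∧ kap φ ≠ 0 ∧ rep (TF f) φ = 0 := by
  have hG : Graded Hm (rep (TF f)) shF := graded_rep (TF f) (fun b => opM_isSL _ _)
  have hgr : Growth Hm (rep (TF f)) := growth_rep (Mx f)
  obtain ⟨φ, hφ, L, hL, hκ, hkill⟩ := exists_opaque (κ := kap) hG hgr shF_fix
    (⊤ : Submodule FQ (Ix f → FQ)) α β l hA (fun _ _ => Submodule.mem_top)
    (fun _ _ => Submodule.mem_top)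
  refine ⟨φ, hφ, L, hL, hκ, ?_⟩
  refine LinearMap.ext fun v => ?_
  exact hkill v Submodule.mem_top

/-- States of the recursion. -/
structure St where
  α : GA
  β : GA
  l : ℕ
  adm : Adm Hm kap α β l

/-- Relation between consecutive states. -/
structure Nxt (f : SA) (s t : St) : Prop where
  ha : t.α ∈ Algebra.adjoin ℚ {s.α, s.β}
  hb : t.β ∈ Algebra.adjoin ℚ {s.α, s.β}
  ra : rep (TF f) t.α = 0
  rb : rep (TF f) t.β = 0
  hk : ∀ n : ℕ, X ^ (n + 1) ∣ kap s.α → X ^ (n + 2) ∣ kap t.α

theorem exists_St (f : SA) (s : St) : ∃ t : St, Nxt f s t := by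
  obtain ⟨φ, hφ, L, hL, hκ, h0⟩ := exists_next f s.α s.β s.l s.adm
  have hα : s.α ∈ Algebra.adjoin ℚ {s.α, s.β} := Algebra.subset_adjoin (by simp)
  have hβ : s.β ∈ Algebra.adjoin ℚ {s.α, s.β} := Algebra.subset_adjoin (by simp)
  have hκα : kap s.α ≠ 0 := by
    intro h
    have := s.adm.hdeg
    rw [h] at this
    simp at this
  refine ⟨⟨φ * (s.α * s.α), φ * (s.α * s.β), L + (s.l + s.l), ?_⟩, ?_⟩
  · refine ⟨?_, ?_, ?_, ?_, ?_⟩
    · have := s.adm.l_pos
      omega
    · exact Hm_mul _ _ _ hL _ (Hm_mul _ _ _ s.adm.ha _ s.adm.ha)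
    · have := Hm_mul _ _ _ hL _ (Hm_mul _ _ _ s.adm.ha _ s.adm.hb)
      rwa [show L + (s.l + (s.l + 1)) = L + (s.l + s.l) + 1 by ring] at this
    · rw [map_mul, map_mul, map_mul, map_mul, s.adm.hk]
    · rw [map_mul, map_mul, natDegree_mul hκ (mul_ne_zero hκα hκα), natDegree_mul hκα hκα]
      have := s.adm.hdeg
      omega
  · refine ⟨?_, ?_, ?_, ?_, ?_⟩
    · exact Subalgebra.mul_mem _ hφ (Subalgebra.mul_mem _ hα hα)
    · exact Subalgebra.mul_mem _ hφ (Subalgebra.mul_mem _ hα hβ)
    · simp only [map_mul, h0, zero_mul]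
    · simp only [map_mul, h0, zero_mul]
    · intro n hn
      simp only [map_mul]
      refine Dvd.dvd.mul_left ?_ _
      have h1 : X ^ ((n + 1) + (n + 1)) ∣ kap s.α * kap s.α := by
        rw [pow_add]
        exact mul_dvd_mul hn hn
      exact (pow_dvd_pow X (by omega)).trans h1

/-- Initial state. -/
noncomputable def St0 : St where
  α := ew (FreeMonoid.of false)
  β := ew (FreeMonoid.of true)
  l := 1
  adm :=
    { l_pos := le_rfl
      ha := by
        have := ew_mem_Hm (FreeMonoid.of false)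
        simpa [wl] using this
      hb := by
        have := ew_mem_Hm (FreeMonoid.of true)
        simpa [wl] using this
      hk := by rw [kap_ew, kap_ew]; simp
      hdeg := by rw [kap_ew]; simp }

/-- An enumeration of all data. -/
theorem exists_enum : ∃ d : ℕ → SA, Function.Surjective d := exists_surjective_nat SA

/-- The enumeration. -/
noncomputable def enm : ℕ → SA := exists_enum.choose

theorem enm_surj : Function.Surjective enm := exists_enum.choose_spec

/-- The sequence of states. -/
noncomputable def sq : ℕ → St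
  | 0 => St0
  | (n + 1) => (exists_St (enm n) (sq n)).choose

theorem sq_next (n : ℕ) : Nxt (enm n) (sq n) (sq (n + 1)) := (exists_St (enm n) (sq n)).choose_spec

theorem sq_dvd (n : ℕ) : X ^ (n + 1) ∣ kap (sq n).α := by
  induction n with
  | zero =>
    change X ^ 1 ∣ kap (ew (FreeMonoid.of false))
    rw [kap_ew]
    simp
  | succ n ih => exact (sq_next n).hk n ih

theorem sq_ne_zero (n : ℕ) : kap (sq n).α ≠ 0 := by
  intro h
  have := (sq n).adm.hdeg
  rw [h] at this
  simp at this

theorem sq_adjoin (n k : ℕ) : Algebra.adjoin ℚ {(sq (n + k)).α, (sq (n + k)).β} ≤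
    Algebra.adjoin ℚ {(sq n).α, (sq n).β} := by
  induction k with
  | zero => exact le_rfl
  | succ k ih =>
    refine le_trans ?_ ih
    refine Algebra.adjoin_le ?_
    rintro x (rfl | hx)
    · exact (sq_next (n + k)).ha
    · rw [Set.mem_singleton_iff] at hx
      subst hx
      exact (sq_next (n + k)).hb

/-- Coefficients of homogeneous elements outside their weight vanish. -/
theorem cf_Hm {L : ℕ} {x : GA} (hx : x ∈ Hm L) (w : Wd) (hw : wt w ≠ L) : cf w x = 0 := by
  induction hx using Submodule.span_induction with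
  | mem x hx =>
    obtain ⟨v, rfl, rfl⟩ := hx
    rw [cf_ew, if_neg]
    rintro rfl
    exact hw rfl
  | zero => rw [map_zero]
  | add x y _ _ hx hy => rw [map_add, hx, hy, add_zero]
  | smul c x _ hx => rw [map_smul, hx, smul_zero]

/-- The block functionals. -/
noncomputable def Phi (i : ℕ) : GA := (sq i).α

theorem Phi_Hm (i : ℕ) : Phi i ∈ Hm (sq i).l := (sq i).adm.ha

/-- The main opacity statement for the sequence. -/
theorem Phi_opaque (f G : SA) (hG : Supp f G) : ∃ N : ℕ, ∀ m, N < m → ∀ (i : ℕ) (v₁ v₂ : Wd),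
    ∑ w ∈ WS m, cf (v₁ * w * v₂) (Phi i) • LamW f w G = 0 := by
  obtain ⟨j, rfl⟩ := enm_surj f
  refine ⟨2 * ((sq (j + 1)).l + 1) + ∑ i ∈ Finset.range (j + 1), (sq i).l, ?_⟩
  intro m hm i v₁ v₂
  apply sum_LamW_eq_zero _ _ hG m (fun w => cf (v₁ * w * v₂) (Phi i))
  by_cases hij : i < j + 1
  · refine Finset.sum_eq_zero fun w hw => ?_
    rw [mem_WS] at hw
    rw [cf_Hm (Phi_Hm i), zero_smul]
    rw [wt_mul, wt_mul, hw]
    have h1 : (sq i).l ≤ ∑ i ∈ Finset.range (j + 1), (sq i).l :=
      Finset.single_le_sum (f := fun i => (sq i).l) (fun _ _ => Nat.zero_le _)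
        (Finset.mem_range.mpr hij)
    omega
  · obtain ⟨k, rfl⟩ := Nat.exists_eq_add_of_le (not_lt.mp hij)
    refine opacity (M := (sq (j + 1)).l + 1) (sq (j + 1)).adm.ha (sq (j + 1)).adm.hb
      (by omega) le_rfl (sq_next j).ra (sq_next j).rb (Phi (j + 1 + k)) ?_ v₁ v₂ m (by omega)
    exact sq_adjoin (j + 1) k (Algebra.subset_adjoin (by simp [Phi]))

end Pool.Agent.H22
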