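import Mathlib
import Pool.Agent.H22.Seq

set_option autoImplicit false

namespace Pool.Agent.H22

open Polynomial

/-- The pairing of functionals (on the left) with elements of the algebra, words reversed,
with contexts. -/
noncomputable def pr (v₁ v₂ : Wd) (Φ : GA) : GA →ₗ[ℚ] ℚ :=
  (Finsupp.linearCombination ℚ (fun w : Wd => cf (v₁ * w.reverse * v₂) Φ)) ∘ₗ
    (MonoidAlgebra.coeffLinearEquiv ℚ).toLinearMap

theorem pr_ew (v₁ v₂ : Wd) (Φ : GA) (w : Wd) :
    pr v₁ v₂ Φ (ew w) = cf (v₁ * w.reverse * v₂) Φ := by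
  change Finsupp.linearCombination ℚ (fun w : Wd => cf (v₁ * w.reverse * v₂) Φ)
    ((MonoidAlgebra.single w (1 : ℚ)).coeff) = _
  rw [MonoidAlgebra.coeff_single, Finsupp.linearCombination_single, one_smul]

theorem pr_add (v₁ v₂ : Wd) (Φ Φ' x : GA) :
    pr v₁ v₂ (Φ + Φ') x = pr v₁ v₂ Φ x + pr v₁ v₂ Φ' x := by
  induction x using GA_induction with
  | h w => rw [pr_ew, pr_ew, pr_ew, map_add]
  | hadd x y hx hy => rw [map_add, map_add, map_add, hx, hy]; ring
  | hsmul r x hx => rw [map_smul, map_smul, map_smul, hx, smul_add]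

theorem pr_smul (v₁ v₂ : Wd) (q : ℚ) (Φ x : GA) :
    pr v₁ v₂ (q • Φ) x = q • pr v₁ v₂ Φ x := by
  induction x using GA_induction with
  | h w => rw [pr_ew, pr_ew, map_smul]
  | hadd x y hx hy => rw [map_add, map_add, hx, hy, smul_add]
  | hsmul r x hx => rw [map_smul, map_smul, hx, smul_comm]

theorem pr_mul_left (v₁ v₂ : Wd) (Φ : GA) (u : Wd) (x : GA) :
    pr v₁ v₂ Φ (ew u * x) = pr v₁ (u.reverse * v₂) Φ x := by
  induction x using GA_induction with
  | h w => rw [← ew_mul, pr_ew, pr_ew, FreeMonoid.reverse_mul]; simp only [mul_assoc]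
  | hadd x y hx hy => rw [mul_add, map_add, map_add, hx, hy]
  | hsmul r x hx => rw [mul_smul_comm, map_smul, map_smul, hx]

theorem pr_mul_right (v₁ v₂ : Wd) (Φ : GA) (u : Wd) (x : GA) :
    pr v₁ v₂ Φ (x * ew u) = pr (v₁ * u.reverse) v₂ Φ x := by
  induction x using GA_induction with
  | h w => rw [← ew_mul, pr_ew, pr_ew, FreeMonoid.reverse_mul]; simp only [mul_assoc]
  | hadd x y hx hy => rw [add_mul, map_add, map_add, hx, hy]
  | hsmul r x hx => rw [smul_mul_assoc, map_smul, map_smul, hx]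

/-- The ideal killed by all block functionals. -/
def InP (x : GA) : Prop := ∀ (i : ℕ) (v₁ v₂ : Wd), pr v₁ v₂ (Phi i) x = 0

theorem InP.zero : InP 0 := fun _ _ _ => map_zero _

theorem InP.add {x y : GA} (hx : InP x) (hy : InP y) : InP (x + y) := fun i v₁ v₂ => by
  rw [map_add, hx, hy, add_zero]

theorem InP.neg {x : GA} (hx : InP x) : InP (-x) := fun i v₁ v₂ => by
  rw [map_neg, hx, neg_zero]

theorem InP.smul {x : GA} (q : ℚ) (hx : InP x) : InP (q • x) := fun i v₁ v₂ => by
  rw [map_smul, hx, smul_zero]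

theorem InP.mul_left {x : GA} (y : GA) (hx : InP x) : InP (y * x) := by
  induction y using GA_induction with
  | h w =>
    intro i v₁ v₂
    rw [pr_mul_left]
    exact hx _ _ _
  | hadd y z hy hz => rw [add_mul]; exact hy.add hz
  | hsmul r y hy => rw [smul_mul_assoc]; exact hy.smul r

theorem InP.mul_right {x : GA} (y : GA) (hx : InP x) : InP (x * y) := by
  induction y using GA_induction with
  | h w =>
    intro i v₁ v₂
    rw [pr_mul_right]
    exact hx _ _ _
  | hadd y z hy hz => rw [mul_add]; exact hy.add hz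
  | hsmul r y hy => rw [mul_smul_comm]; exact hy.smul r

/-- The element which stays non-nilpotent. -/
noncomputable def aa : GA := ew (FreeMonoid.of false) + ew (FreeMonoid.of true)

theorem cf_one_of_mul (b : Bool) (y : GA) : cf 1 (ew (FreeMonoid.of b) * y) = 0 := by
  induction y using GA_induction with
  | h w => rw [← ew_mul, cf_ew, if_neg (of_mul_ne_one b w)]
  | hadd y z hy hz => rw [mul_add, map_add, hy, hz, add_zero]
  | hsmul r y hy => rw [mul_smul_comm, map_smul, hy, smul_zero]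

theorem ls_of_mul (b b' : Bool) (y : GA) :
    ls b (ew (FreeMonoid.of b') * y) = if b' = b then y else 0 := by
  rw [ls_mul]
  have h1 : ls b (ew (FreeMonoid.of b')) = if b' = b then 1 else 0 := by
    have := ls_ew_of_mul b b' 1
    rw [mul_one, ew_one] at this
    exact this
  have h2 : cf 1 (ew (FreeMonoid.of b')) = 0 := by
    have := cf_one_of_mul b' 1
    rwa [mul_one] at this
  rw [h1, h2, zero_smul, add_zero]
  split_ifs
  · rw [one_mul]
  · rw [zero_mul]

theorem cf_aa_pow (n : ℕ) (v : Wd) : cf v (aa ^ n) = if v.length = n then 1 else 0 := by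
  induction n generalizing v with
  | zero =>
    rw [pow_zero, ← ew_one, cf_ew]
    by_cases h : v = 1
    · subst h; simp
    · rw [if_neg (Ne.symm h), if_neg]
      intro h0
      rcases exists_last v with h1 | ⟨u, b, rfl⟩
      · exact h h1
      · simp [FreeMonoid.length_mul] at h0
  | succ n ih =>
    have h0 : aa * aa ^ n = ew (FreeMonoid.of false) * aa ^ n + ew (FreeMonoid.of true) * aa ^ n :=
      add_mul _ _ _
    rw [pow_succ', h0]
    induction v using FreeMonoid.recOn with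
    | one =>
      rw [map_add, cf_one_of_mul, cf_one_of_mul, add_zero]
      simp
    | of_mul b v _ =>
      rw [← cf_ls, map_add, ls_of_mul, ls_of_mul]
      have h1 : (if false = b then aa ^ n else 0) + (if true = b then aa ^ n else 0) = aa ^ n := by
        cases b <;> simp
      rw [h1, ih, FreeMonoid.length_mul, FreeMonoid.length_of]
      by_cases h : v.length = n
      · rw [if_pos h, if_pos (by omega)]
      · rw [if_neg h, if_neg (by omega)]

theorem pr_one_ew (w : Wd) (x : GA) : pr 1 1 (ew w) x = cf w.reverse x := by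
  induction x using GA_induction with
  | h v =>
    rw [pr_ew, one_mul, mul_one, cf_ew, cf_ew]
    by_cases h : w = v.reverse
    · rw [if_pos h, if_pos]
      rw [h, FreeMonoid.reverse_reverse]
    · rw [if_neg h, if_neg]
      intro h1
      apply h
      rw [h1, FreeMonoid.reverse_reverse]
  | hadd x y hx hy => rw [map_add, map_add, hx, hy]
  | hsmul r x hx => rw [map_smul, map_smul, hx]

theorem kap_coeff (Φ : GA) (n : ℕ) : (kap Φ).coeff n = pr 1 1 Φ (aa ^ n) := by
  induction Φ using GA_induction with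
  | h w =>
    rw [kap_ew, pr_one_ew, cf_aa_pow, coeff_X_pow, FreeMonoid.length_reverse]
    by_cases h : n = w.length
    · rw [if_pos h, if_pos h.symm]
    · rw [if_neg h, if_neg (Ne.symm h)]
  | hadd x y hx hy => rw [map_add, coeff_add, hx, hy, pr_add]
  | hsmul r x hx => rw [map_smul, coeff_smul, hx, pr_smul]

theorem aa_pow_not_InP (k : ℕ) : ¬ InP (aa ^ k) := by
  intro h
  have h1 := sq_ne_zero k
  obtain ⟨n, hn⟩ : ∃ n, (kap (sq k).α).coeff n ≠ 0 := by
    by_contra hcon
    push Not at hcon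
    exact h1 (Polynomial.ext (by simpa using hcon))
  have hnk : k + 1 ≤ n := by
    by_contra hlt
    obtain ⟨p, hp⟩ := sq_dvd k
    apply hn
    rw [hp, coeff_X_pow_mul', if_neg hlt]
  apply hn
  rw [kap_coeff]
  obtain ⟨j, hj⟩ := Nat.exists_eq_add_of_le (show k ≤ n by omega)
  rw [hj, pow_add]
  exact h.mul_right _ k 1 1

/-- The Euler derivation. -/
noncomputable def dA : GA →ₗ[ℚ] GA :=
  (Finsupp.linearCombination ℚ (fun w : Wd => (wt w : ℚ) • ew w)) ∘ₗ
    (MonoidAlgebra.coeffLinearEquiv ℚ).toLinearMap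

theorem dA_ew (w : Wd) : dA (ew w) = (wt w : ℚ) • ew w := by
  change Finsupp.linearCombination ℚ (fun w : Wd => (wt w : ℚ) • ew w)
    ((MonoidAlgebra.single w (1 : ℚ)).coeff) = _
  rw [MonoidAlgebra.coeff_single, Finsupp.linearCombination_single, one_smul]

theorem dA_mul (x y : GA) : dA (x * y) = dA x * y + x * dA y := by
  induction x using GA_induction with
  | h w =>
    induction y using GA_induction with
    | h v =>
      rw [← ew_mul, dA_ew, dA_ew, dA_ew, wt_mul, smul_mul_assoc, mul_smul_comm, ← ew_mul,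
        ← add_smul]
      push_cast
      rfl
    | hadd y z hy hz => rw [mul_add, map_add, map_add, hy, hz, mul_add, mul_add]; abel
    | hsmul r y hy => rw [mul_smul_comm, map_smul, map_smul, hy, smul_add, mul_smul_comm,
        mul_smul_comm]
  | hadd x z hx hz => rw [add_mul, map_add, map_add, hx, hz, add_mul, add_mul]; abel
  | hsmul r x hx => rw [smul_mul_assoc, map_smul, map_smul, hx, smul_add, smul_mul_assoc,
      smul_mul_assoc]

theorem wt_reverse (w : Wd) : wt w.reverse = wt w := by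
  induction w using FreeMonoid.recOn with
  | one => rfl
  | of_mul b w ih =>
    rw [FreeMonoid.reverse_mul, wt_mul, ih, wt_mul, FreeMonoid.reverse_of]
    ring

theorem InP.dA {x : GA} (hx : InP x) : InP (dA x) := by
  intro i v₁ v₂
  have key : ∀ x : GA, pr v₁ v₂ (Phi i) (H22.dA x) =
      (((sq i).l : ℚ) - wt v₁ - wt v₂) * pr v₁ v₂ (Phi i) x := by
    intro x
    induction x using GA_induction with
    | h w =>
      rw [dA_ew, map_smul, pr_ew, smul_eq_mul]
      by_cases h : wt (v₁ * w.reverse * v₂) = (sq i).l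
      · rw [← h, wt_mul, wt_mul, wt_reverse]
        push_cast
        ring
      · rw [cf_Hm (Phi_Hm i) _ h, mul_zero, mul_zero]
    | hadd x y hx hy => rw [map_add, map_add, map_add, hx, hy]; ring
    | hsmul r x hx => rw [map_smul, map_smul, map_smul, hx, smul_eq_mul, smul_eq_mul]; ring
  rw [key, hx, mul_zero]

theorem end_mul_apply {A : Type*} [AddCommMonoid A] (f g : AddMonoid.End A) (x : A) :
    (f * g) x = f (g x) := rfl

section Deriv

variable {A : Type*} [Ring A] (δ : AddMonoid.End A)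
  (hδ : ∀ a b : A, δ (a * b) = δ a * b + a * δ b) (N : TwoSidedIdeal A)

include hδ in
theorem deriv_lem1 (k : ℕ) : ∀ (y x : A), (∀ j < k, (δ ^ j) x ∈ N) →
    (∀ j < k, (δ ^ j) (y * x) ∈ N) ∧ (δ ^ k) (y * x) - y * (δ ^ k) x ∈ N := by
  induction k with
  | zero =>
    intro y x _
    refine ⟨fun j hj => absurd hj (Nat.not_lt_zero j), ?_⟩
    simp only [pow_zero, AddMonoid.End.coe_one, id_eq, sub_self]
    exact N.zero_mem
  | succ k ih =>
    intro y x hx
    obtain ⟨h1, h2⟩ := ih (δ y) x (fun j hj => hx j (Nat.lt_succ_of_lt hj))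
    have hx' : ∀ j < k, (δ ^ j) (δ x) ∈ N := by
      intro j hj
      have := hx (j + 1) (Nat.succ_lt_succ hj)
      rwa [pow_succ, end_mul_apply] at this
    obtain ⟨h3, h4⟩ := ih y (δ x) hx'
    have h5 : (δ ^ k) (δ y * x) ∈ N := by
      have h6 := N.mul_mem_left (δ y) _ (hx k (Nat.lt_succ_self k))
      have h7 := N.add_mem h2 h6
      rwa [sub_add_cancel] at h7
    constructor
    · intro j hj
      cases j with
      | zero =>
        have := N.mul_mem_left y _ (hx 0 (Nat.succ_pos k))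
        simpa using this
      | succ j =>
        rw [pow_succ, end_mul_apply, hδ, map_add]
        exact N.add_mem (h1 j (Nat.lt_of_succ_lt_succ hj)) (h3 j (Nat.lt_of_succ_lt_succ hj))
    · rw [pow_succ, end_mul_apply, end_mul_apply, hδ, map_add]
      have h8 := N.add_mem h5 h4
      rwa [← add_sub_assoc] at h8

include hδ in
theorem deriv_lem2 (c : A) (hc : c ∈ N) (k : ℕ) : ∀ (x : A), (∀ j < k, (δ ^ j) x ∈ N) →
    (∀ j < k + 1, (δ ^ j) (c * x) ∈ N) ∧
      (δ ^ (k + 1)) (c * x) - (k + 1) • (δ c * (δ ^ k) x) ∈ N := by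
  induction k with
  | zero =>
    intro x _
    constructor
    · intro j hj
      have : j = 0 := by omega
      subst this
      simpa using N.mul_mem_right c x hc
    · have := N.mul_mem_right c (δ x) hc
      simp only [zero_add, pow_one, pow_zero, AddMonoid.End.coe_one, id_eq, one_smul, hδ]
      rwa [add_sub_cancel_left]
  | succ k ih =>
    intro x hx
    have hx' : ∀ j < k, (δ ^ j) (δ x) ∈ N := by
      intro j hj
      have := hx (j + 1) (Nat.succ_lt_succ hj)
      rwa [pow_succ, end_mul_apply] at this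
    obtain ⟨h1, h2⟩ := ih (δ x) hx'
    obtain ⟨h3, h4⟩ := deriv_lem1 δ hδ N (k + 1) (δ c) x hx
    constructor
    · intro j hj
      cases j with
      | zero => simpa using N.mul_mem_right c x hc
      | succ j =>
        rw [pow_succ, end_mul_apply, hδ, map_add]
        exact N.add_mem (h3 j (Nat.lt_of_succ_lt_succ hj)) (h1 j (Nat.lt_of_succ_lt_succ hj))
    · rw [pow_succ, end_mul_apply, hδ, map_add]
      have h5 := N.add_mem h4 h2
      have h6 : (δ ^ k) (δ x) = (δ ^ (k + 1)) x := by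
        rw [pow_succ, end_mul_apply]
      rw [h6] at h5
      have h7 : (δ ^ (k + 1)) (δ c * x) + (δ ^ (k + 1)) (c * δ x) -
          (k + 1 + 1) • (δ c * (δ ^ (k + 1)) x) =
          (δ ^ (k + 1)) (δ c * x) - δ c * (δ ^ (k + 1)) x +
          ((δ ^ (k + 1)) (c * δ x) - (k + 1) • (δ c * (δ ^ (k + 1)) x)) := by
        rw [add_smul (k + 1) 1, one_smul]
        abel
      rw [h7]
      exact h5

include hδ in
theorem deriv_lem3 (c : A) (hc : c ∈ N) (m : ℕ) :
    (∀ j < m, (δ ^ j) (c ^ m) ∈ N) ∧ (δ ^ m) (c ^ m) - m.factorial • (δ c) ^ m ∈ N := by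
  induction m with
  | zero =>
    refine ⟨fun j hj => absurd hj (Nat.not_lt_zero j), ?_⟩
    simp only [pow_zero, AddMonoid.End.coe_one, id_eq, Nat.factorial_zero, one_smul, sub_self]
    exact N.zero_mem
  | succ m ih =>
    obtain ⟨h1, h2⟩ := deriv_lem2 δ hδ N c hc m (c ^ m) ih.1
    rw [pow_succ' c]
    refine ⟨h1, ?_⟩
    have h3 := N.mul_mem_left (δ c) _ ih.2
    have h4 : (m + 1) • (δ c * ((δ ^ m) (c ^ m) - m.factorial • (δ c) ^ m)) ∈ N :=
      nsmul_mem h3 _
    have h5 := N.add_mem h2 h4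
    have h6 : (δ ^ (m + 1)) (c * c ^ m) - (m + 1) • (δ c * (δ ^ m) (c ^ m)) +
        (m + 1) • (δ c * ((δ ^ m) (c ^ m) - m.factorial • (δ c) ^ m)) =
        (δ ^ (m + 1)) (c * c ^ m) - (m + 1).factorial • (δ c) ^ (m + 1) := by
      rw [mul_sub, smul_sub, Nat.factorial_succ, pow_succ' (δ c), mul_smul_comm, mul_smul]
      abel
    rwa [h6] at h5

end Deriv

/-- The class of ideals that are nil modulo `P`. -/
def NilC (N : TwoSidedIdeal GA) : Prop := (∀ x, InP x → x ∈ N) ∧ ∀ x ∈ N, ∃ n : ℕ, InP (x ^ n)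

/-- The ideal `P` as a two-sided ideal. -/
noncomputable def PI : TwoSidedIdeal GA :=
  TwoSidedIdeal.mk' {x | InP x} InP.zero (fun hx hy => hx.add hy) (fun hx => hx.neg)
    (fun hx => hx.mul_left _) (fun hx => hx.mul_right _)

theorem mem_PI (x : GA) : x ∈ PI ↔ InP x := TwoSidedIdeal.mem_mk' _ _ _ _ _ _ _

theorem exists_max : ∃ N : TwoSidedIdeal GA, NilC N ∧ ∀ J, NilC J → N ≤ J → J ≤ N := by
  obtain ⟨N, _, hN⟩ := zorn_le_nonempty₀ {N : TwoSidedIdeal GA | NilC N} (by
    intro c hc hchain y hy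
    refine ⟨TwoSidedIdeal.mk' {x | ∃ I ∈ c, x ∈ I} ⟨y, hy, y.zero_mem⟩ ?_ ?_ ?_ ?_, ?_, ?_⟩
    · rintro a b ⟨I, hI, ha⟩ ⟨J, hJ, hb⟩
      rcases hchain.total hI hJ with h | h
      · exact ⟨J, hJ, J.add_mem (h ha) hb⟩
      · exact ⟨I, hI, I.add_mem ha (h hb)⟩
    · rintro a ⟨I, hI, ha⟩
      exact ⟨I, hI, I.neg_mem ha⟩
    · rintro a b ⟨I, hI, hb⟩
      exact ⟨I, hI, I.mul_mem_left _ _ hb⟩
    · rintro a b ⟨I, hI, ha⟩
      exact ⟨I, hI, I.mul_mem_right _ _ ha⟩
    · constructor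
      · intro x hx
        rw [TwoSidedIdeal.mem_mk']
        exact ⟨y, hy, (hc hy).1 x hx⟩
      · intro x hx
        rw [TwoSidedIdeal.mem_mk'] at hx
        obtain ⟨I, hI, hxI⟩ := hx
        exact (hc hI).2 x hxI
    · intro z hz x hx
      rw [TwoSidedIdeal.mem_mk']
      exact ⟨z, hz, hx⟩) PI ⟨fun x hx => (mem_PI x).mpr hx, fun x hx => ⟨1, by
        rw [pow_one]; exact (mem_PI x).mp hx⟩⟩
  exact ⟨N, hN.prop, fun J hJ hNJ => hN.le_of_ge hJ hNJ⟩

/-- A maximal ideal among those nil modulo `P`. -/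
noncomputable def NI : TwoSidedIdeal GA := exists_max.choose

theorem NI_nil : NilC NI := exists_max.choose_spec.1

theorem NI_max (J : TwoSidedIdeal GA) (hJ : NilC J) (h : NI ≤ J) : J ≤ NI :=
  exists_max.choose_spec.2 J hJ h

theorem aa_not_mem_NI : aa ∉ NI := by
  intro h
  obtain ⟨n, hn⟩ := NI_nil.2 _ h
  exact aa_pow_not_InP n hn

theorem smul_mem_TSI (J : TwoSidedIdeal GA) (q : ℚ) {x : GA} (hx : x ∈ J) : q • x ∈ J := by
  rw [← one_mul x, ← smul_mul_assoc]
  exact J.mul_mem_left _ _ hx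

theorem pow_sub_mem (J : TwoSidedIdeal GA) (b y : GA) (hb : b ∈ J) (n : ℕ) :
    (b + y) ^ n - y ^ n ∈ J := by
  induction n with
  | zero => simp
  | succ n ih =>
    have h1 : (b + y) ^ (n + 1) - y ^ (n + 1) =
        ((b + y) ^ n - y ^ n) * (b + y) + y ^ n * b := by
      rw [pow_succ, pow_succ, sub_mul, mul_add (y ^ n)]
      abel
    rw [h1]
    exact J.add_mem (J.mul_mem_right _ _ ih) (J.mul_mem_left _ _ hb)

theorem dA_pow_mem (c : GA) (hc : c ∈ NI) : ∃ m : ℕ, (dA c) ^ m ∈ NI := by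
  obtain ⟨m, hm⟩ := NI_nil.2 c hc
  refine ⟨m, ?_⟩
  let δ : AddMonoid.End GA := dA.toAddMonoidHom
  have hδ : ∀ a b : GA, δ (a * b) = δ a * b + a * δ b := dA_mul
  have h1 := (deriv_lem3 δ hδ NI c hc m).2
  have h2 : ∀ k : ℕ, ∀ x, InP x → InP ((δ ^ k) x) := by
    intro k
    induction k with
    | zero => intro x hx; simpa using hx
    | succ k ih =>
      intro x hx
      rw [pow_succ, end_mul_apply]
      exact ih _ hx.dA
  have h3 : (δ ^ m) (c ^ m) ∈ NI := NI_nil.1 _ (h2 m _ hm)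
  have h4 := NI.sub_mem h3 h1
  rw [sub_sub_cancel] at h4
  have h5 := smul_mem_TSI NI ((m.factorial : ℚ)⁻¹) h4
  rw [← Nat.cast_smul_eq_nsmul ℚ, smul_smul, inv_mul_cancel₀ (by
    exact_mod_cast m.factorial_ne_zero), one_smul] at h5
  exact h5

/-- The maximal ideal is stable under the Euler derivation. -/
theorem dA_mem_NI (c : GA) (hc : c ∈ NI) : dA c ∈ NI := by
  let J : TwoSidedIdeal GA := TwoSidedIdeal.mk' {x | ∃ b ∈ NI, ∃ c ∈ NI, x = b + dA c}
    ⟨0, NI.zero_mem, 0, NI.zero_mem, by simp⟩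
    (by
      rintro _ _ ⟨b, hb, c, hc, rfl⟩ ⟨b', hb', c', hc', rfl⟩
      exact ⟨b + b', NI.add_mem hb hb', c + c', NI.add_mem hc hc', by rw [map_add]; abel⟩)
    (by
      rintro _ ⟨b, hb, c, hc, rfl⟩
      exact ⟨-b, NI.neg_mem hb, -c, NI.neg_mem hc, by rw [map_neg]; abel⟩)
    (by
      rintro x _ ⟨b, hb, c, hc, rfl⟩
      refine ⟨x * b - dA x * c, NI.sub_mem (NI.mul_mem_left _ _ hb) (NI.mul_mem_left _ _ hc),
        x * c, NI.mul_mem_left _ _ hc, ?_⟩
      rw [dA_mul, mul_add]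
      abel)
    (by
      rintro _ x ⟨b, hb, c, hc, rfl⟩
      refine ⟨b * x - c * dA x, NI.sub_mem (NI.mul_mem_right _ _ hb) (NI.mul_mem_right _ _ hc),
        c * x, NI.mul_mem_right _ _ hc, ?_⟩
      rw [dA_mul, add_mul]
      abel)
  have hJ : ∀ x, x ∈ J ↔ ∃ b ∈ NI, ∃ c ∈ NI, x = b + dA c := fun x =>
    TwoSidedIdeal.mem_mk' _ _ _ _ _ _ _
  have hNJ : NI ≤ J := by
    intro x hx
    rw [hJ]
    exact ⟨x, hx, 0, NI.zero_mem, by simp⟩
  have hnil : NilC J := by
    refine ⟨fun x hx => hNJ (NI_nil.1 x hx), ?_⟩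
    intro x hx
    rw [hJ] at hx
    obtain ⟨b, hb, c, hc, rfl⟩ := hx
    obtain ⟨m, hm⟩ := dA_pow_mem c hc
    have h1 := NI.add_mem (pow_sub_mem NI b (dA c) hb m) hm
    rw [sub_add_cancel] at h1
    obtain ⟨n, hn⟩ := NI_nil.2 _ h1
    exact ⟨m * n, by rw [pow_mul]; exact hn⟩
  refine NI_max J hnil hNJ ?_
  rw [hJ]
  exact ⟨0, NI.zero_mem, c, hc, by simp⟩

end Pool.Agent.H22
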