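import Mathlib
import Pool.Agent.H22.Nil

set_option autoImplicit false

namespace Pool.Agent.H22

open Polynomial

theorem shP_pow_X (n : ℕ) : (shP ^ n) (X : ℚ[X]) = X + C (n : ℚ) := by
  induction n with
  | zero => simp
  | succ n ih =>
    rw [pow_succ', AlgEquiv.mul_apply, ih, map_add]
    have h1 : shP (X : ℚ[X]) = X + C 1 := by
      rw [shP, algEquivAevalXAddC_apply, aeval_X]
    have h2 : shP (C (n : ℚ)) = C (n : ℚ) := shP.commutes (n : ℚ)
    rw [h1, h2]
    push_cast
    rw [map_add]
    ring

theorem shP_pow_C (n : ℕ) (r : ℚ) : (shP ^ n) (C r) = C r := (shP ^ n).commutes r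

section Main

variable {S : Type} [Ring S] (q : GA →+* S) (x : S)
  (hx : ∀ y : GA, x * q y = q y * x + q (dA y))

theorem dA_algebraMap (r : ℚ) : dA (algebraMap ℚ GA r) = 0 := by
  rw [Algebra.algebraMap_eq_smul_one, map_smul, ← ew_one, dA_ew, wt_one, Nat.cast_zero, zero_smul,
    smul_zero]

include hx in
theorem comm_alg (r : ℚ) : Commute ((q.comp (algebraMap ℚ GA)) r) x := by
  have := hx (algebraMap ℚ GA r)
  rw [dA_algebraMap, map_zero, add_zero] at this
  exact this.symm

/-- Evaluation of polynomials at `x`. -/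
noncomputable def Ev (hx : ∀ y : GA, x * q y = q y * x + q (dA y)) : ℚ[X] →+* S :=
  eval₂RingHom' (q.comp (algebraMap ℚ GA)) x (comm_alg q x hx)

theorem Ev_X : Ev q x hx X = x := eval₂_X _ _

theorem Ev_C (r : ℚ) : Ev q x hx (C r) = q (algebraMap ℚ GA r) := eval₂_C _ _

theorem q_alg_comm (r : ℚ) (y : GA) :
    q (algebraMap ℚ GA r) * q y = q y * q (algebraMap ℚ GA r) := by
  rw [← map_mul, ← map_mul, Algebra.commutes]

theorem Ev_mul (b : Bool) (p : ℚ[X]) :
    Ev q x hx p * q (ew (FreeMonoid.of b)) =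
      q (ew (FreeMonoid.of b)) * Ev q x hx ((shP ^ (wl b)) p) := by
  have h1 : x * q (ew (FreeMonoid.of b)) =
      q (ew (FreeMonoid.of b)) * Ev q x hx ((shP ^ (wl b)) X) := by
    rw [shP_pow_X, map_add, Ev_X, Ev_C, hx, dA_ew, wt_of, mul_add, ← map_mul]
    congr 2
    rw [Algebra.algebraMap_eq_smul_one, mul_smul_comm, mul_one]
  induction p using Polynomial.induction_on with
  | C a => rw [shP_pow_C, Ev_C, q_alg_comm]
  | add p r hp hr => rw [map_add, add_mul, hp, hr, map_add, map_add, mul_add]
  | monomial n a ih =>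
    rw [pow_succ, ← mul_assoc, map_mul, Ev_X, mul_assoc, h1, ← mul_assoc, ih,
      map_mul (shP ^ (wl b)) (C a * X ^ n) X, map_mul (Ev q x hx) _ ((shP ^ (wl b)) X), mul_assoc]

/-- Evaluation of normal forms. -/
noncomputable def pv (hx : ∀ y : GA, x * q y = q y * x + q (dA y)) : SA →+ S :=
  Finsupp.liftAddHom (fun w => (AddMonoidHom.mulRight (q (ew w))).comp
    (Ev q x hx).toAddMonoidHom)

theorem pv_single (w : Wd) (p : ℚ[X]) :
    pv q x hx (Finsupp.single w p) = Ev q x hx p * q (ew w) := by
  simp [pv]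

theorem pv_smul (p : ℚ[X]) (G : SA) : pv q x hx (p • G) = Ev q x hx p * pv q x hx G := by
  induction G using Finsupp.induction_linear with
  | zero => simp
  | add f g hf hg => rw [smul_add, map_add, hf, hg, map_add, mul_add]
  | single w r => rw [Finsupp.smul_single, pv_single, pv_single, smul_eq_mul, map_mul, mul_assoc]

/-- Tail of a normal form. -/
noncomputable def tl (b : Bool) (G : SA) : SA :=
  (G.comapDomain (fun w => FreeMonoid.of b * w)
    (by intro w _ w' _ h; exact ((of_mul_inj _ _ _ _).mp h).2)).mapRange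
      (fun p => (shP ^ (wl b)) p) (map_zero _)

theorem tl_apply (b : Bool) (G : SA) (w : Wd) :
    tl b G w = (shP ^ (wl b)) (G (FreeMonoid.of b * w)) := rfl

theorem tl_add (b : Bool) (G G' : SA) : tl b (G + G') = tl b G + tl b G' := by
  ext1 w
  rw [Finsupp.add_apply, tl_apply, tl_apply, tl_apply, Finsupp.add_apply, map_add]

theorem tl_zero (b : Bool) : tl b 0 = 0 := by
  ext1 w
  rw [tl_apply, Finsupp.zero_apply, Finsupp.zero_apply, map_zero]

theorem tl_single_one (b : Bool) (p : ℚ[X]) : tl b (Finsupp.single 1 p) = 0 := by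
  ext1 w
  rw [tl_apply, Finsupp.single_apply, if_neg (of_mul_ne_one b w).symm, map_zero,
    Finsupp.zero_apply]

theorem tl_single_of_mul (b b' : Bool) (w : Wd) (p : ℚ[X]) :
    tl b (Finsupp.single (FreeMonoid.of b' * w) p) =
      if b' = b then Finsupp.single w ((shP ^ (wl b)) p) else 0 := by
  ext1 v
  rw [tl_apply, Finsupp.single_apply]
  by_cases hb : b' = b
  · subst hb
    rw [if_pos rfl, Finsupp.single_apply]
    by_cases hw : w = v
    · subst hw; simp
    · rw [if_neg hw, if_neg, map_zero]
      intro h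
      exact hw ((of_mul_inj _ _ _ _).mp h).2
  · rw [if_neg hb, if_neg, map_zero, Finsupp.zero_apply]
    intro h
    exact hb ((of_mul_inj _ _ _ _).mp h).1

theorem pv_expand (G : SA) : pv q x hx G = Ev q x hx (G 1) +
    (q (ew (FreeMonoid.of false)) * pv q x hx (tl false G) +
      q (ew (FreeMonoid.of true)) * pv q x hx (tl true G)) := by
  induction G using Finsupp.induction_linear with
  | zero => simp [tl_zero]
  | add f g hf hg =>
    rw [map_add, hf, hg, tl_add, tl_add, Finsupp.add_apply, map_add, map_add, map_add, mul_add,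
      mul_add]
    abel
  | single w p =>
    induction w using FreeMonoid.recOn with
    | one =>
      rw [pv_single, tl_single_one, tl_single_one, ew_one, map_one, map_zero]
      simp
    | of_mul b w _ =>
      rw [pv_single, tl_single_of_mul, tl_single_of_mul, Finsupp.single_apply,
        if_neg (of_mul_ne_one b w), map_zero, zero_add]
      cases b with
      | false =>
        rw [if_pos rfl, if_neg (by simp), map_zero, mul_zero, add_zero, pv_single, ew_mul, map_mul,
          ← mul_assoc, Ev_mul, mul_assoc]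
      | true =>
        rw [if_pos rfl, if_neg (by simp), map_zero, mul_zero, zero_add, pv_single, ew_mul, map_mul,
          ← mul_assoc, Ev_mul, mul_assoc]

theorem Lam_eq_tl (f : SA) (b : Bool) (G : SA) : Lam f b G = tl b (G + (G 1) • f) := rfl

theorem pv_step (f : SA) (hf : f 1 = 0) (G : SA) : pv q x hx G =
    q (ew (FreeMonoid.of false)) * pv q x hx (Lam f false G) +
      q (ew (FreeMonoid.of true)) * pv q x hx (Lam f true G) +
      Ev q x hx (G 1) * (1 - pv q x hx f) := by
  have h := pv_expand q x hx (G + (G 1) • f)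
  rw [map_add, pv_smul, Finsupp.add_apply, Finsupp.smul_apply, hf, smul_zero, add_zero] at h
  rw [Lam_eq_tl, Lam_eq_tl, mul_sub, mul_one]
  have h2 : pv q x hx G = Ev q x hx (G 1) +
    (q (ew (FreeMonoid.of false)) * pv q x hx (tl false (G + (G 1) • f)) +
      q (ew (FreeMonoid.of true)) * pv q x hx (tl true (G + (G 1) • f))) -
      Ev q x hx (G 1) * pv q x hx f := by
    rw [← h, add_sub_cancel_right]
  rw [h2]
  abel

theorem q_rev (b : Bool) (w : Wd) :
    q (ew w.reverse) * q (ew (FreeMonoid.of b)) = q (ew (FreeMonoid.of b * w).reverse) := by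
  rw [← map_mul, ← ew_mul, FreeMonoid.reverse_mul, FreeMonoid.reverse_of]

theorem pv_iter (f : SA) (hf : f 1 = 0) (G : SA) (m : ℕ) : ∃ s : S, pv q x hx G =
    ∑ w ∈ WS (m + 1), q (ew w.reverse) * pv q x hx (LamW f w G) +
    ∑ w ∈ WS m, q (ew (FreeMonoid.of true * w).reverse) *
      pv q x hx (LamW f (FreeMonoid.of true * w) G) + s * (1 - pv q x hx f) := by
  induction m with
  | zero =>
    refine ⟨Ev q x hx (G 1), ?_⟩
    have h1 : LamW f (FreeMonoid.of false) G = Lam f false G := by
      have := LamW_of_mul f false 1 G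
      rwa [mul_one, LamW_one] at this
    have h2 : LamW f (FreeMonoid.of true) G = Lam f true G := by
      have := LamW_of_mul f true 1 G
      rwa [mul_one, LamW_one] at this
    simp only [WS, Finset.sum_singleton, mul_one, zero_add, FreeMonoid.reverse_of, h1, h2]
    exact pv_step q x hx f hf G
  | succ m ih =>
    obtain ⟨s, hs⟩ := ih
    refine ⟨∑ w ∈ WS (m + 1), q (ew w.reverse) * Ev q x hx (LamW f w G 1) + s, ?_⟩
    rw [hs, sum_WS_succ]
    have h1 : ∀ w : Wd, q (ew w.reverse) * pv q x hx (LamW f w G) =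
        q (ew (FreeMonoid.of false * w).reverse) *
          pv q x hx (LamW f (FreeMonoid.of false * w) G) +
        q (ew (FreeMonoid.of true * w).reverse) *
          pv q x hx (LamW f (FreeMonoid.of true * w) G) +
        q (ew w.reverse) * Ev q x hx (LamW f w G 1) * (1 - pv q x hx f) := by
      intro w
      conv_lhs => rw [pv_step q x hx f hf (LamW f w G)]
      rw [mul_add, mul_add, ← mul_assoc, ← mul_assoc, ← mul_assoc, q_rev, q_rev, LamW_of_mul,
        LamW_of_mul]
    rw [Finset.sum_congr rfl fun w _ => h1 w, Finset.sum_add_distrib, Finset.sum_add_distrib,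
      add_mul, Finset.sum_mul]
    abel

variable (hP : ∀ y : GA, InP y → q y = 0)

include hP in
theorem kill (s : Finset Wd) (u : Wd → Wd) (c : Wd → SA)
    (h : ∀ (i : ℕ) (v₁ v₂ : Wd), ∑ w ∈ s, cf (v₁ * (u w).reverse * v₂) (Phi i) • c w = 0) :
    ∑ w ∈ s, q (ew (u w)) * pv q x hx (c w) = 0 := by
  classical
  let T : Finset Wd := s.biUnion (fun w => (c w).support)
  let J : ℕ := (s.sup fun w => T.sup fun v => ((c w) v).natDegree) + 1
  have hJ : ∀ w ∈ s, ∀ v ∈ T, ((c w) v).natDegree < J := by
    intro w hw v hv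
    refine Nat.lt_succ_of_le ?_
    refine le_trans (Finset.le_sup (f := fun v => ((c w) v).natDegree) hv) ?_
    exact Finset.le_sup (f := fun w => T.sup fun v => ((c w) v).natDegree) hw
  have h1 : ∀ w ∈ s, q (ew (u w)) * pv q x hx (c w) =
      ∑ v ∈ T, ∑ j ∈ Finset.range J,
        q ((((c w) v).coeff j) • ew (u w)) * x ^ j * q (ew v) := by
    intro w hw
    have h2 : pv q x hx (c w) = ∑ v ∈ T, Ev q x hx ((c w) v) * q (ew v) := by
      have h3 : (c w).support ⊆ T := Finset.subset_biUnion_of_mem (fun w => (c w).support) hw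
      conv_lhs => rw [← Finsupp.sum_single (c w), Finsupp.sum_of_support_subset _ h3 _ (by simp)]
      rw [map_sum]
      exact Finset.sum_congr rfl fun v _ => pv_single q x hx v _
    rw [h2, Finset.mul_sum]
    refine Finset.sum_congr rfl fun v hv => ?_
    have h4 : Ev q x hx ((c w) v) = ∑ j ∈ Finset.range J,
        q (algebraMap ℚ GA (((c w) v).coeff j)) * x ^ j := by
      change eval₂ (q.comp (algebraMap ℚ GA)) x ((c w) v) = _
      rw [eval₂_eq_sum_range' _ (hJ w hw v hv)]
      rfl
    rw [h4, Finset.sum_mul, Finset.mul_sum]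
    refine Finset.sum_congr rfl fun j _ => ?_
    rw [← mul_assoc, ← mul_assoc, ← map_mul]
    congr 3
    rw [Algebra.algebraMap_eq_smul_one, mul_smul_comm, mul_one]
  rw [Finset.sum_congr rfl h1, Finset.sum_comm]
  refine Finset.sum_eq_zero fun v _ => ?_
  rw [Finset.sum_comm]
  refine Finset.sum_eq_zero fun j _ => ?_
  rw [← Finset.sum_mul, ← Finset.sum_mul, ← map_sum, hP, zero_mul, zero_mul]
  intro i v₁ v₂
  rw [map_sum]
  have h5 := congrArg (fun G : SA => (G v).coeff j) (h i v₁ v₂)
  simp only [Finsupp.finsetSum_apply, finsetSum_coeff, Finsupp.smul_apply, coeff_smul,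
    smul_eq_mul, Finsupp.zero_apply, coeff_zero] at h5
  rw [← h5]
  refine Finset.sum_congr rfl fun w _ => ?_
  rw [map_smul, pr_ew, smul_eq_mul, mul_comm]

include hP in
/-- Every element `1 - f` with `f` without constant word is left invertible. -/
theorem left_inv (f : SA) (hf : f 1 = 0) : ∃ s : S, s * (1 - pv q x hx f) = 1 := by
  let G : SA := Finsupp.single 1 1
  have hG : Supp f G := by
    intro w hw
    by_cases h : w = 1
    · rw [h]; exact one_mem_LS _
    · exact absurd (Finsupp.single_eq_of_ne h) hw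
  obtain ⟨N, hN⟩ := Phi_opaque f G hG
  obtain ⟨s, hs⟩ := pv_iter q x hx f hf G (N + 1)
  have h1 : pv q x hx G = 1 := by
    rw [pv_single, map_one, ew_one, map_one, one_mul]
  have h2 : ∑ w ∈ WS (N + 1 + 1), q (ew w.reverse) * pv q x hx (LamW f w G) = 0 := by
    refine kill q x hx hP (WS (N + 1 + 1)) (fun w => w.reverse) (fun w => LamW f w G) ?_
    intro i v₁ v₂
    simp only [FreeMonoid.reverse_reverse]
    exact hN (N + 1 + 1) (by omega) i v₁ v₂
  have h3 : ∑ w ∈ WS (N + 1), q (ew (FreeMonoid.of true * w).reverse) *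
      pv q x hx (LamW f (FreeMonoid.of true * w) G) = 0 := by
    refine kill q x hx hP (WS (N + 1)) (fun w => (FreeMonoid.of true * w).reverse)
      (fun w => LamW f (FreeMonoid.of true * w) G) ?_
    intro i v₁ v₂
    have h4 := hN (N + 1) (by omega) i (v₁ * FreeMonoid.of true) v₂
    have h5 := congrArg (Lam f true) h4
    rw [map_sum, map_zero] at h5
    rw [← h5]
    refine Finset.sum_congr rfl fun w _ => ?_
    rw [map_smul, FreeMonoid.reverse_reverse, LamW_of_mul]
    simp only [mul_assoc]
  rw [h1, h2, h3, zero_add, zero_add] at hs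
  exact ⟨s, hs.symm⟩

theorem q_ew_x (w : Wd) (n : ℕ) :
    Ev q x hx ((X - C (wt w : ℚ)) ^ n) * q (ew w) = q (ew w) * x ^ n := by
  induction n with
  | zero => simp
  | succ n ih =>
    have h1 : Ev q x hx (X - C (wt w : ℚ)) * q (ew w) = q (ew w) * x := by
      rw [map_sub, Ev_X, Ev_C, sub_mul, hx, dA_ew, ← map_mul, Algebra.algebraMap_eq_smul_one,
        smul_mul_assoc, one_mul, add_sub_cancel_right]
    rw [pow_succ, map_mul, mul_assoc, h1, ← mul_assoc, ih, mul_assoc, ← pow_succ]

variable (hgen : ∀ s : S, ∃ c : ℕ →₀ GA, s = c.sum (fun n a => q a * x ^ n))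

include hgen in
theorem pv_surj (y : S) : ∃ G : SA, pv q x hx G = y := by
  obtain ⟨c, rfl⟩ := hgen y
  change c.sum (fun n a => q a * x ^ n) ∈ (pv q x hx).range
  refine AddSubgroup.sum_mem _ fun n _ => ?_
  change q (c n) * x ^ n ∈ (pv q x hx).range
  generalize c n = a
  induction a using GA_induction with
  | h w => exact ⟨Finsupp.single w ((X - C (wt w : ℚ)) ^ n), by rw [pv_single, q_ew_x]⟩
  | hadd a b ha hb => rw [map_add, add_mul]; exact add_mem ha hb
  | hsmul r a ha =>
    obtain ⟨G, hG⟩ := ha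
    refine ⟨(C r : ℚ[X]) • G, ?_⟩
    rw [pv_smul, hG, Ev_C, ← mul_assoc, ← map_mul, Algebra.algebraMap_eq_smul_one, smul_mul_assoc,
      one_mul]

theorem pv_mul_letter (G : SA) (b : Bool) : pv q x hx G * q (ew (FreeMonoid.of b)) =
    pv q x hx (G.mapDomain (fun w => w * FreeMonoid.of b)) := by
  induction G using Finsupp.induction_linear with
  | zero => simp
  | add f g hf hg => rw [map_add, add_mul, hf, hg, Finsupp.mapDomain_add, map_add]
  | single w p => rw [pv_single, Finsupp.mapDomain_single, pv_single, ew_mul, map_mul, mul_assoc]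

theorem mapDomain_one (G : SA) (b : Bool) : G.mapDomain (fun w => w * FreeMonoid.of b) 1 = 0 := by
  apply Finsupp.mapDomain_of_notMem_range
  rintro ⟨w, hw⟩
  have := congrArg FreeMonoid.length hw
  simp [FreeMonoid.length_mul] at this

include hP hgen hx in
/-- The element `q aa` lies in the Jacobson radical. -/
theorem aa_mem_jacobson : q aa ∈ (⊥ : Ideal S).jacobson := by
  rw [Ideal.mem_jacobson_iff]
  intro y
  obtain ⟨G, hG⟩ := pv_surj q x hx hgen y
  let f : SA := -(G.mapDomain (fun w => w * FreeMonoid.of false) +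
    G.mapDomain (fun w => w * FreeMonoid.of true))
  have hf1 : f 1 = 0 := by
    change (-(G.mapDomain (fun w => w * FreeMonoid.of false) +
      G.mapDomain (fun w => w * FreeMonoid.of true)) : SA) 1 = 0
    rw [Finsupp.neg_apply, Finsupp.add_apply, mapDomain_one, mapDomain_one, add_zero, neg_zero]
  have hf : pv q x hx f = -(y * q aa) := by
    change pv q x hx (-(G.mapDomain (fun w => w * FreeMonoid.of false) +
      G.mapDomain (fun w => w * FreeMonoid.of true))) = _
    rw [map_neg, map_add, ← pv_mul_letter, ← pv_mul_letter, hG, aa, map_add, mul_add]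
  obtain ⟨s, hs⟩ := left_inv q x hx hP f hf1
  refine ⟨s, ?_⟩
  rw [Ideal.mem_bot, ← hs, hf, mul_sub, mul_neg, mul_one, mul_assoc]
  abel

end Main

end Pool.Agent.H22
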