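import Mathlib

/-! Definitions for differential polynomial rings over rings without identity. -/

set_option autoImplicit false

namespace Pool.Agent.H22

/-- Positive powers in a ring that need not have an identity: `pw a n` is `a ^ (n + 1)`. -/
def pw {R : Type} [NonUnitalRing R] (a : R) : ℕ → R
  | 0 => a
  | n + 1 => pw a n * a

/-- The ring `S`, identified through `e` with the additive group of polynomials with coefficients
in `R`, is the differential polynomial ring `R[x; d]`: the product of `a x ^ i` and `b x ^ j` is
the sum over `k` of `i.choose k • a * d ^ k (b)` times `x ^ (i + j - k)`. -/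
def IsDiffPoly {R S : Type} [NonUnitalRing R] [NonUnitalRing S] (d : R →+ R)
    (e : (ℕ →₀ R) ≃+ S) : Prop :=
  ∀ (i j : ℕ) (a b : R), e (Finsupp.single i a) * e (Finsupp.single j b) =
    ∑ k ∈ Finset.range (i + 1), e (Finsupp.single (i + j - k) (i.choose k • (a * d^[k] b)))

/-- `R` is an associative algebra over the rationals and is generated, as an algebra without
identity, by the two elements `u` and `v`. -/
def IsRatGenerated {R : Type} [NonUnitalRing R] (u v : R) : Prop :=
  ∃ (_ : Module ℚ R) (_ : IsScalarTower ℚ R R) (_ : SMulCommClass ℚ R R),
    NonUnitalAlgebra.adjoin ℚ ({u, v} : Set R) = ⊤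

end Pool.Agent.H22
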