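import Mathlib
import Pool.Agent.H22.Jac
import Pool.Agent.H22.DiffPoly

set_option autoImplicit false

namespace Pool.Agent.H22

/-- The quotient ring. -/
abbrev RR : Type := NI.ringCon.Quotient

/-- The projection. -/
noncomputable def mk : GA →+* RR := NI.ringCon.mk'

theorem mk_surj : Function.Surjective mk := NI.ringCon.mk'_surjective

theorem mk_eq_zero (y : GA) : mk y = 0 ↔ y ∈ NI := by
  have h : y ∈ TwoSidedIdeal.ker NI.ringCon.mk' ↔ y ∈ NI := by
    rw [TwoSidedIdeal.ker_ringCon_mk']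
  rw [TwoSidedIdeal.mem_ker] at h
  exact h

theorem mk_eq (y z : GA) : mk y = mk z ↔ y - z ∈ NI := by
  rw [← mk_eq_zero, map_sub, sub_eq_zero]

/-- The induced derivation. -/
noncomputable def dR : RR →+ RR where
  toFun r := mk (dA (mk_surj r).choose)
  map_zero' := by
    rw [mk_eq_zero]
    refine dA_mem_NI _ ?_
    rw [← mk_eq_zero]
    exact (mk_surj 0).choose_spec
  map_add' r s := by
    rw [← map_add, mk_eq, ← map_add, ← map_sub]
    refine dA_mem_NI _ ?_
    rw [← mk_eq_zero, map_sub, map_add, (mk_surj (r + s)).choose_spec, (mk_surj r).choose_spec,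
      (mk_surj s).choose_spec, sub_self]

theorem dR_mk (y : GA) : dR (mk y) = mk (dA y) := by
  change mk (dA (mk_surj (mk y)).choose) = mk (dA y)
  rw [mk_eq, ← map_sub]
  refine dA_mem_NI _ ?_
  rw [← mk_eq_zero, map_sub, (mk_surj (mk y)).choose_spec, sub_self]

theorem dR_mul (a b : RR) : dR (a * b) = dR a * b + a * dR b := by
  obtain ⟨y, rfl⟩ := mk_surj a
  obtain ⟨z, rfl⟩ := mk_surj b
  rw [← map_mul, dR_mk, dR_mk, dR_mk, dA_mul, map_add, map_mul, map_mul]

theorem RR_no_nil (I : TwoSidedIdeal RR) (hI : ∀ a ∈ I, IsNilpotent a) : I = ⊥ := by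
  let J : TwoSidedIdeal GA := TwoSidedIdeal.comap mk I
  have hJ : ∀ y, y ∈ J ↔ mk y ∈ I := fun y => TwoSidedIdeal.mem_comap mk
  have hle : NI ≤ J := by
    intro y hy
    rw [hJ, (mk_eq_zero y).mpr hy]
    exact I.zero_mem
  have hnil : NilC J := by
    refine ⟨fun y hy => hle (NI_nil.1 y hy), fun y hy => ?_⟩
    rw [hJ] at hy
    obtain ⟨n, hn⟩ := hI _ hy
    rw [← map_pow, mk_eq_zero] at hn
    obtain ⟨k, hk⟩ := NI_nil.2 _ hn
    exact ⟨n * k, by rw [pow_mul]; exact hk⟩
  have hmax := NI_max J hnil hle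
  rw [eq_bot_iff]
  intro r hr
  obtain ⟨y, rfl⟩ := mk_surj r
  rw [← hJ] at hr
  rw [(mk_eq_zero y).mpr (hmax hr)]
  exact TwoSidedIdeal.zero_mem _

theorem exists_lift (c : ℕ →₀ RR) : ∃ c' : ℕ →₀ GA,
    c.sum (fun n a => DPf dR dR_mul a * DPx dR dR_mul ^ n) =
      c'.sum (fun n a => ((DPf dR dR_mul).comp mk) a * DPx dR dR_mul ^ n) := by
  induction c using Finsupp.induction_linear with
  | zero => exact ⟨0, by simp⟩
  | add f g hf hg =>
    obtain ⟨f', hf'⟩ := hf
    obtain ⟨g', hg'⟩ := hg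
    refine ⟨f' + g', ?_⟩
    rw [Finsupp.sum_add_index' (by intro n; rw [map_zero, zero_mul])
      (by intro n a b; rw [map_add, add_mul]), hf', hg',
      Finsupp.sum_add_index' (by intro n; rw [map_zero, zero_mul])
      (by intro n a b; rw [map_add, add_mul])]
  | single n r =>
    obtain ⟨y, rfl⟩ := mk_surj r
    refine ⟨Finsupp.single n y, ?_⟩
    rw [Finsupp.sum_single_index (by rw [map_zero, zero_mul]),
      Finsupp.sum_single_index (by rw [map_zero, zero_mul])]
    rfl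

theorem DPf_mk_aa_mem :
    ((DPf dR dR_mul).comp mk) aa ∈ (⊥ : Ideal (DPR dR dR_mul)).jacobson := by
  refine aa_mem_jacobson ((DPf dR dR_mul).comp mk) (DPx dR dR_mul) ?_ ?_ ?_
  · intro y
    have := DP_comm dR_mul (mk y)
    rw [dR_mk] at this
    exact this
  · intro y hy
    change DPf dR dR_mul (mk y) = 0
    rw [(mk_eq_zero y).mpr (NI_nil.1 y hy), map_zero]
  · intro s
    obtain ⟨c, hc, _⟩ := DP_free dR_mul s
    obtain ⟨c', hc'⟩ := exists_lift c
    exact ⟨c', by rw [hc, hc']⟩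

theorem DPf_inj (r : RR) (hr : DPf dR dR_mul r = 0) : r = 0 := by
  have h1 : Psi dR (Finsupp.single 0 r) = 0 := by
    rw [Psi_single, pow_zero, mul_one]
    exact congrArg Subtype.val hr
  have h2 := Psi_eval dR_mul (Finsupp.single 0 r)
  rw [h1] at h2
  have h3 : Finsupp.single 0 r = (0 : ℕ →₀ RR) := h2.symm
  exact Finsupp.single_eq_zero.mp h3

theorem jacobson_ne_bot : (⊥ : Ideal (DPR dR dR_mul)).jacobson ≠ ⊥ := by
  intro h
  have hmem := DPf_mk_aa_mem
  rw [h, Ideal.mem_bot] at hmem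
  exact aa_not_mem_NI ((mk_eq_zero aa).mp (DPf_inj _ hmem))

end Pool.Agent.H22
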