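import Mathlib
import Pool.Agent.H22.Quot
import Pool.Agent.H22.NonUnitalDefs

/-! The augmentation ideal of the example as a ring without identity, and its differential
polynomial ring, which consists of quasi-regular elements. -/

set_option autoImplicit false

namespace Pool.Agent.H22

open Finset

section Leibniz

variable {R S : Type} [Ring R] [Ring S] (f : R →+* S) (x : S) (d : R →+ R)
  (hx : ∀ r : R, x * f r = f r * x + f (d r))

include hx in
theorem pow_mul_f (i : ℕ) (b : R) :
    x ^ i * f b = ∑ k ∈ range (i + 1), i.choose k • (f (d^[k] b) * x ^ (i - k)) := by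
  let A := AddMonoid.End S
  let Rx : A := AddMonoidHom.mulRight x
  let Lx : A := AddMonoidHom.mulLeft x
  let D : A := Lx - Rx
  have hLR : Commute Lx Rx := by
    refine AddMonoidHom.ext fun y => ?_
    change x * (y * x) = (x * y) * x
    rw [mul_assoc]
  have hDR : Commute D Rx := Commute.sub_left hLR (Commute.refl Rx)
  have hD : ∀ (k : ℕ), (D ^ k) (f b) = f (d^[k] b) := by
    intro k
    induction k with
    | zero => rfl
    | succ k ih =>
      rw [pow_succ', Function.iterate_succ_apply']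
      change D ((D ^ k) (f b)) = _
      rw [ih]
      change x * f (d^[k] b) - f (d^[k] b) * x = _
      rw [hx]
      abel
  have hR : ∀ (k : ℕ) (y : S), (Rx ^ k) y = y * x ^ k := by
    intro k
    induction k with
    | zero =>
      intro y
      rw [pow_zero, pow_zero, mul_one]
      rfl
    | succ k ih =>
      intro y
      rw [pow_succ']
      change Rx ((Rx ^ k) y) = _
      rw [ih]
      change y * x ^ k * x = _
      rw [mul_assoc, ← pow_succ]
  have hL : ∀ (k : ℕ) (y : S), (Lx ^ k) y = x ^ k * y := by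
    intro k
    induction k with
    | zero =>
      intro y
      rw [pow_zero, pow_zero, one_mul]
      rfl
    | succ k ih =>
      intro y
      rw [pow_succ']
      change Lx ((Lx ^ k) y) = _
      rw [ih]
      change x * (x ^ k * y) = _
      rw [← mul_assoc, ← pow_succ']
  have h1 : Lx ^ i = ∑ k ∈ range (i + 1), D ^ k * Rx ^ (i - k) * (i.choose k : A) := by
    rw [← hDR.add_pow]
    congr 1
    change Lx = (Lx - Rx) + Rx
    abel
  have h2 := congrArg (fun T : A => T (f b)) h1
  change (Lx ^ i) (f b) = (∑ k ∈ range (i + 1), D ^ k * Rx ^ (i - k) * (i.choose k : A)) (f b) at h2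
  rw [hL] at h2
  rw [h2]
  have h4 : (∑ k ∈ range (i + 1), D ^ k * Rx ^ (i - k) * (i.choose k : A)) (f b) =
      ∑ k ∈ range (i + 1), (D ^ k * Rx ^ (i - k) * (i.choose k : A)) (f b) :=
    AddMonoidHom.finsetSum_apply _ _ _
  rw [h4]
  refine sum_congr rfl fun k _ => ?_
  have h3 : D ^ k * Rx ^ (i - k) = Rx ^ (i - k) * D ^ k := (hDR.pow_pow k (i - k)).eq
  rw [h3]
  change (Rx ^ (i - k)) ((D ^ k) ((i.choose k : A) (f b))) = _
  rw [AddMonoid.End.natCast_apply, map_nsmul, hD, hR, smul_mul_assoc]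

end Leibniz

/-- The counit of the free algebra: it kills the letters. -/
noncomputable def eps : GA →ₐ[ℚ] ℚ :=
  MonoidAlgebra.lift ℚ ℚ Wd (FreeMonoid.lift (fun _ => (0 : ℚ)))

theorem eps_of_mul (b : Bool) (w : Wd) : eps (ew (FreeMonoid.of b * w)) = 0 := by
  rw [eps, ew, MonoidAlgebra.lift_of, map_mul, FreeMonoid.lift_eval_of, zero_mul]

/-- The two generators. -/
noncomputable def gg (b : Bool) : RR := mk (ew (FreeMonoid.of b))

/-- The subalgebra without identity generated by the two generators. -/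
noncomputable def RP : NonUnitalSubalgebra ℚ RR :=
  NonUnitalAlgebra.adjoin ℚ {gg false, gg true}

theorem gg_mem (b : Bool) : gg b ∈ RP := by
  refine NonUnitalAlgebra.subset_adjoin ℚ ?_
  cases b
  · exact Or.inl rfl
  · exact Or.inr rfl

theorem mk_smul (r : ℚ) (y : GA) : mk (r • y) = r • mk y := rfl

theorem mk_word_mem (w : Wd) (hw : w ≠ 1) : mk (ew w) ∈ RP := by
  induction w using FreeMonoid.recOn with
  | one => exact absurd rfl hw
  | of_mul b w ih =>
    by_cases h : w = 1
    · subst h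
      rw [mul_one]
      exact gg_mem b
    · rw [ew_mul, map_mul]
      exact RP.mul_mem (gg_mem b) (ih h)

theorem mk_mem_RP (y : GA) : mk (y - algebraMap ℚ GA (eps y)) ∈ RP := by
  induction y using GA_induction with
  | h w =>
    by_cases h : w = 1
    · subst h
      rw [ew_one, map_one, map_one, sub_self, map_zero]
      exact RP.zero_mem
    · obtain ⟨b, w, rfl⟩ : ∃ b w', w = FreeMonoid.of b * w' := by
        induction w using FreeMonoid.recOn with
        | one => exact absurd rfl h
        | of_mul b w _ => exact ⟨b, w, rfl⟩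
      rw [eps_of_mul, map_zero, sub_zero]
      exact mk_word_mem _ h
  | hadd x y hx hy =>
    have h1 : x + y - algebraMap ℚ GA (eps (x + y)) =
        (x - algebraMap ℚ GA (eps x)) + (y - algebraMap ℚ GA (eps y)) := by
      rw [map_add, map_add]
      abel
    rw [h1, map_add]
    exact RP.add_mem hx hy
  | hsmul r x hx =>
    have h1 : r • x - algebraMap ℚ GA (eps (r • x)) = r • (x - algebraMap ℚ GA (eps x)) := by
      rw [map_smul, smul_sub, smul_eq_mul, map_mul, ← Algebra.smul_def]
    rw [h1, mk_smul]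
    exact RP.smul_mem r hx

/-- Each element of the ring is the sum of a scalar and an element of the subalgebra. -/
theorem exists_scalar (r : RR) : ∃ (c : ℚ) (p : RR), p ∈ RP ∧ r = c • (1 : RR) + p := by
  obtain ⟨y, rfl⟩ := mk_surj r
  refine ⟨eps y, mk (y - algebraMap ℚ GA (eps y)), mk_mem_RP y, ?_⟩
  rw [map_sub, Algebra.algebraMap_eq_smul_one, mk_smul, map_one]
  abel

theorem RP_mul_left (r : RR) {p : RR} (hp : p ∈ RP) : r * p ∈ RP := by
  obtain ⟨c, p', hp', rfl⟩ := exists_scalar r
  rw [add_mul, smul_mul_assoc, one_mul]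
  exact RP.add_mem (RP.smul_mem c hp) (RP.mul_mem hp' hp)

theorem RP_mul_right (r : RR) {p : RR} (hp : p ∈ RP) : p * r ∈ RP := by
  obtain ⟨c, p', hp', rfl⟩ := exists_scalar r
  rw [mul_add, mul_smul_comm, mul_one]
  exact RP.add_mem (RP.smul_mem c hp) (RP.mul_mem hp hp')

theorem dR_gg (b : Bool) : dR (gg b) = (wl b : ℚ) • gg b := by
  rw [gg, dR_mk, dA_ew, wt_of, mk_smul]

theorem dR_mem {p : RR} (hp : p ∈ RP) : dR p ∈ RP := by
  refine NonUnitalAlgebra.adjoin_induction (p := fun x _ => dR x ∈ RP) ?_ ?_ ?_ ?_ ?_ hp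
  · rintro x (rfl | rfl)
    · rw [dR_gg]
      exact RP.smul_mem _ (gg_mem _)
    · rw [dR_gg]
      exact RP.smul_mem _ (gg_mem _)
  · intro x y _ _ hx hy
    rw [map_add]
    exact RP.add_mem hx hy
  · rw [map_zero]
    exact RP.zero_mem
  · intro x y hx' hy' hx hy
    rw [dR_mul]
    exact RP.add_mem (RP.mul_mem hx hy') (RP.mul_mem hx' hy)
  · intro r x _ hx
    rw [map_rat_smul]
    exact RP.smul_mem r hx

/-- The ring without identity, as a type. -/
def RT : Type := RP

noncomputable instance instRingRT : NonUnitalRing RT := inferInstanceAs (NonUnitalRing RP)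

noncomputable instance instModuleRT : Module ℚ RT := inferInstanceAs (Module ℚ RP)

instance instTowerRT : IsScalarTower ℚ RT RT := inferInstanceAs (IsScalarTower ℚ RP RP)

instance instSMulCommRT : SMulCommClass ℚ RT RT := inferInstanceAs (SMulCommClass ℚ RP RP)

/-- The inclusion. -/
noncomputable def cc : RT →ₙ+* RR where
  toFun p := Subtype.val p
  map_zero' := rfl
  map_add' _ _ := rfl
  map_mul' _ _ := rfl

theorem cc_mem (p : RT) : cc p ∈ RP := p.2

theorem cc_inj {p p' : RT} (h : cc p = cc p') : p = p' := Subtype.ext h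

/-- Elements given by membership. -/
def toT (r : RR) (h : r ∈ RP) : RT := ⟨r, h⟩

theorem cc_toT (r : RR) (h : r ∈ RP) : cc (toT r h) = r := rfl

/-- The derivation of the ring without identity. -/
noncomputable def dP : RT →+ RT where
  toFun p := toT (dR (cc p)) (dR_mem (cc_mem p))
  map_zero' := cc_inj (by rw [cc_toT, map_zero, map_zero])
  map_add' _ _ := cc_inj (by rw [cc_toT, map_add, map_add, map_add, cc_toT, cc_toT])

theorem cc_dP (p : RT) : cc (dP p) = dR (cc p) := rfl

theorem dP_mul (a b : RT) : dP (a * b) = dP a * b + a * dP b := by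
  apply cc_inj
  rw [cc_dP, map_mul, dR_mul, map_add, map_mul, map_mul, cc_dP, cc_dP]

theorem coe_dP_iterate (k : ℕ) (b : RT) : cc (dP^[k] b) = dR^[k] (cc b) := by
  induction k with
  | zero => rfl
  | succ k ih =>
    rw [Function.iterate_succ_apply', Function.iterate_succ_apply', ← ih, cc_dP]

theorem coe_pw (a : RT) (n : ℕ) : cc (pw a n) = cc a ^ (n + 1) := by
  induction n with
  | zero => rw [zero_add, pow_one]; rfl
  | succ n ih =>
    rw [pow_succ, ← ih, ← map_mul]
    rfl

theorem rat_aux {M : Type} [AddCommGroup M] [Module ℚ M] (c : ℚ) (b : M) (n : ℕ) :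
    c.den • (n • (c • b)) = c.num • (n • b) := by
  rw [smul_comm c.den n (c • b), ← Nat.cast_smul_eq_nsmul ℚ c.den (c • b), smul_smul,
    Rat.den_mul_eq_num, Int.cast_smul_eq_zsmul, smul_comm]

theorem RR_torsion_free (n : ℕ) (hn : n ≠ 0) (r : RR) (h : n • r = 0) : r = 0 := by
  obtain ⟨y, rfl⟩ := mk_surj r
  rw [← map_nsmul, mk_eq_zero] at h
  have h1 := smul_mem_TSI NI ((n : ℚ)⁻¹) h
  rw [← Nat.cast_smul_eq_nsmul ℚ, smul_smul, inv_mul_cancel₀ (by exact_mod_cast hn),
    one_smul] at h1
  exact (mk_eq_zero y).mpr h1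

theorem RT_no_nil (I : TwoSidedIdeal RT) (hI : ∀ a ∈ I, ∃ n, pw a n = 0) : I = ⊥ := by
  let J : TwoSidedIdeal RR := TwoSidedIdeal.mk'
    {r | ∃ n : ℕ, n ≠ 0 ∧ ∃ i : RT, i ∈ I ∧ n • r = cc i}
    ⟨1, one_ne_zero, 0, I.zero_mem, by rw [map_zero, smul_zero]⟩
    (by
      rintro a b ⟨n, hn, i, hi, ha⟩ ⟨m, hm, j, hj, hb⟩
      refine ⟨n * m, mul_ne_zero hn hm, m • i + n • j, I.add_mem (nsmul_mem hi m)
        (nsmul_mem hj n), ?_⟩
      rw [map_add, map_nsmul, map_nsmul, ← ha, ← hb, smul_add, mul_smul, mul_smul,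
        smul_comm n m a])
    (by
      rintro a ⟨n, hn, i, hi, ha⟩
      exact ⟨n, hn, -i, I.neg_mem hi, by rw [smul_neg, ha, map_neg]⟩)
    (by
      rintro a b ⟨n, hn, i, hi, hb⟩
      obtain ⟨c, p, hp, rfl⟩ := exists_scalar a
      refine ⟨c.den * n, mul_ne_zero c.den_nz hn,
        c.num • i + c.den • (toT p hp * i),
        I.add_mem (zsmul_mem hi _) (nsmul_mem (I.mul_mem_left _ _ hi) _), ?_⟩
      rw [map_add, map_zsmul, map_nsmul, map_mul, cc_toT, ← hb, add_mul, smul_mul_assoc, one_mul,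
        smul_add, mul_smul, mul_smul]
      congr 1
      · exact rat_aux c b n
      · rw [mul_smul_comm])
    (by
      rintro b a ⟨n, hn, i, hi, hb⟩
      obtain ⟨c, p, hp, rfl⟩ := exists_scalar a
      refine ⟨c.den * n, mul_ne_zero c.den_nz hn,
        c.num • i + c.den • (i * toT p hp),
        I.add_mem (zsmul_mem hi _) (nsmul_mem (I.mul_mem_right _ _ hi) _), ?_⟩
      rw [map_add, map_zsmul, map_nsmul, map_mul, cc_toT, ← hb, mul_add, mul_smul_comm, mul_one,
        smul_add, mul_smul, mul_smul]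
      congr 1
      · exact rat_aux c b n
      · rw [smul_mul_assoc])
  have hJ : ∀ r, r ∈ J ↔ ∃ n : ℕ, n ≠ 0 ∧ ∃ i : RT, i ∈ I ∧ n • r = cc i := fun r =>
    TwoSidedIdeal.mem_mk' _ _ _ _ _ _ _
  have hnil : ∀ r ∈ J, IsNilpotent r := by
    intro r hr
    rw [hJ] at hr
    obtain ⟨n, hn, i, hi, h⟩ := hr
    obtain ⟨m, hm⟩ := hI i hi
    refine ⟨m + 1, ?_⟩
    have h1 : (n • r) ^ (m + 1) = 0 := by
      rw [h, ← coe_pw, hm, map_zero]
    rw [smul_pow] at h1
    exact RR_torsion_free _ (pow_ne_zero (m + 1) hn) _ h1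
  have hbot := RR_no_nil J hnil
  rw [eq_bot_iff]
  intro a ha
  have h1 : cc a ∈ J := by
    rw [hJ]
    exact ⟨1, one_ne_zero, a, ha, one_smul _ _⟩
  rw [hbot] at h1
  have h2 : cc a = 0 := (TwoSidedIdeal.mem_bot _).mp h1
  have h3 : a = 0 := cc_inj (by rw [h2, map_zero])
  rw [h3]
  exact TwoSidedIdeal.zero_mem _

/-- The differential polynomial ring of the unital ring. -/
noncomputable abbrev S1 : Type := DPR dR dR_mul

/-- Coefficients of the unital ring. -/
noncomputable abbrev ff : RR →+* S1 := DPf dR dR_mul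

/-- The variable. -/
noncomputable abbrev xx : S1 := DPx dR dR_mul

/-- Evaluation of coefficient sequences. -/
noncomputable def EE : (ℕ →₀ RT) →+ S1 :=
  Finsupp.liftAddHom (fun n => (AddMonoidHom.mulRight (xx ^ n)).comp
    (ff.toAddMonoidHom.comp (cc : RT →+ RR)))

theorem EE_single (n : ℕ) (p : RT) : EE (Finsupp.single n p) = ff (cc p) * xx ^ n := by
  rw [EE, Finsupp.liftAddHom_apply_single]
  rfl

theorem EE_apply (c : ℕ →₀ RT) : EE c = c.sum (fun n p => ff (cc p) * xx ^ n) := rfl

theorem EE_injective : Function.Injective EE := by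
  rw [injective_iff_map_eq_zero]
  intro c hc
  let c' : ℕ →₀ RR := c.mapRange cc (map_zero cc)
  have h1 : (0 : S1) = c'.sum (fun n a => ff a * xx ^ n) := by
    rw [Finsupp.sum_mapRange_index (by intro n; rw [map_zero, zero_mul])]
    exact hc.symm
  have h2 : (0 : S1) = (0 : ℕ →₀ RR).sum (fun n a => ff a * xx ^ n) := by
    rw [Finsupp.sum_zero_index]
  have h3 := (DP_free dR_mul (0 : S1)).unique h1 h2
  ext1 n
  have h4 := DFunLike.congr_fun h3 n
  rw [Finsupp.mapRange_apply, Finsupp.zero_apply] at h4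
  exact cc_inj (by rw [h4, Finsupp.zero_apply, map_zero])

theorem xx_comm (r : RR) : xx * ff r = ff r * xx + ff (dR r) := DP_comm dR_mul r

theorem mul_iter_mem (r : RR) (k : ℕ) (b : RT) : r * dR^[k] (cc b) ∈ RP := by
  rw [← coe_dP_iterate]
  exact RP_mul_left r (cc_mem _)

theorem term_mul (r : RR) (i j : ℕ) (b : RT) :
    (ff r * xx ^ i) * EE (Finsupp.single j b) = ∑ k ∈ range (i + 1),
      EE (Finsupp.single (i + j - k) (i.choose k • toT _ (mul_iter_mem r k b))) := by
  rw [EE_single, mul_assoc, ← mul_assoc (xx ^ i), pow_mul_f ff xx dR xx_comm, sum_mul, mul_sum]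
  refine sum_congr rfl fun k hk => ?_
  rw [mem_range] at hk
  rw [EE_single, map_nsmul cc, cc_toT, map_nsmul, map_mul, smul_mul_assoc, smul_mul_assoc,
    mul_smul_comm, mul_assoc, mul_assoc, ← pow_add]
  congr 4
  omega

theorem left_mem (s : S1) (c : ℕ →₀ RT) : s * EE c ∈ EE.range := by
  obtain ⟨c', hc', _⟩ := DP_free dR_mul s
  rw [hc', Finsupp.sum, sum_mul]
  refine AddSubgroup.sum_mem _ fun i _ => ?_
  induction c using Finsupp.induction_linear with
  | zero => rw [map_zero, mul_zero]; exact zero_mem _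
  | add f g hf hg => rw [map_add, mul_add]; exact add_mem hf hg
  | single j b =>
    have h1 := term_mul (c' i) i j b
    rw [h1]
    exact AddSubgroup.sum_mem _ fun k _ => ⟨_, rfl⟩

/-- The differential polynomial ring of the ring without identity. -/
noncomputable def SP : NonUnitalSubring S1 where
  carrier := {s | s ∈ EE.range}
  mul_mem' := fun {s t} _ ht => by
    obtain ⟨c, rfl⟩ := ht
    exact left_mem s c
  add_mem' := fun {s t} hs ht => by
    change s + t ∈ EE.range
    exact add_mem hs ht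
  zero_mem' := by
    change (0 : S1) ∈ EE.range
    exact zero_mem _
  neg_mem' := fun {s} hs => by
    change -s ∈ EE.range
    exact neg_mem hs

/-- The additive isomorphism from coefficient sequences. -/
noncomputable def eP : (ℕ →₀ RT) ≃+ SP :=
  AddEquiv.ofBijective
    ({ toFun := fun c => ⟨EE c, ⟨c, rfl⟩⟩
       map_zero' := Subtype.ext (map_zero EE)
       map_add' := fun _ _ => Subtype.ext (map_add EE _ _) } : (ℕ →₀ RT) →+ SP)
    ⟨fun a b h => EE_injective (congrArg Subtype.val h), by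
      rintro ⟨s, c, hc⟩
      exact ⟨c, Subtype.ext hc⟩⟩

theorem coe_eP (c : ℕ →₀ RT) : ((eP c : SP) : S1) = EE c := rfl

theorem eP_isDiffPoly : IsDiffPoly dP eP := by
  intro i j a b
  apply Subtype.ext
  rw [AddSubmonoidClass.coe_finsetSum]
  change EE (Finsupp.single i a) * EE (Finsupp.single j b) = _
  rw [EE_single i a, term_mul]
  refine sum_congr rfl fun k _ => ?_
  rw [coe_eP]
  congr 3
  apply cc_inj
  rw [cc_toT, map_mul, coe_dP_iterate]

/-- The homomorphism from the free algebra. -/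
noncomputable abbrev qq : GA →+* S1 := ff.comp mk

theorem qq_comm (y : GA) : xx * qq y = qq y * xx + qq (dA y) := by
  have := xx_comm (mk y)
  rw [dR_mk] at this
  exact this

theorem qq_kill (y : GA) (hy : InP y) : qq y = 0 := by
  change ff (mk y) = 0
  rw [(mk_eq_zero y).mpr (NI_nil.1 y hy), map_zero]

/-- Elements without constant word. -/
def HasG (s : S1) : Prop := ∃ G : SA, G 1 = 0 ∧ pv qq xx qq_comm G = s

theorem HasG.zero : HasG 0 := ⟨0, rfl, map_zero _⟩

theorem HasG.add {s t : S1} (hs : HasG s) (ht : HasG t) : HasG (s + t) := by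
  obtain ⟨G, hG, rfl⟩ := hs
  obtain ⟨G', hG', rfl⟩ := ht
  exact ⟨G + G', by rw [Finsupp.add_apply, hG, hG', add_zero], map_add _ _ _⟩

theorem hasG_term (y : GA) (n : ℕ) :
    HasG (qq (y - algebraMap ℚ GA (eps y)) * xx ^ n) := by
  induction y using GA_induction with
  | h w =>
    by_cases h : w = 1
    · subst h
      rw [ew_one, map_one, map_one, sub_self, map_zero, zero_mul]
      exact HasG.zero
    · obtain ⟨b, w, rfl⟩ : ∃ b w', w = FreeMonoid.of b * w' := by
        induction w using FreeMonoid.recOn with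
        | one => exact absurd rfl h
        | of_mul b w _ => exact ⟨b, w, rfl⟩
      rw [eps_of_mul, map_zero, sub_zero]
      refine ⟨Finsupp.single (FreeMonoid.of b * w)
        ((Polynomial.X - Polynomial.C (wt (FreeMonoid.of b * w) : ℚ)) ^ n),
        Finsupp.single_eq_of_ne (of_mul_ne_one b w).symm, ?_⟩
      rw [pv_single, q_ew_x]
  | hadd x y hx hy =>
    have h1 : x + y - algebraMap ℚ GA (eps (x + y)) =
        (x - algebraMap ℚ GA (eps x)) + (y - algebraMap ℚ GA (eps y)) := by
      rw [map_add, map_add]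
      abel
    rw [h1, map_add, add_mul]
    exact hx.add hy
  | hsmul r x hx =>
    have h1 : r • x - algebraMap ℚ GA (eps (r • x)) = algebraMap ℚ GA r *
        (x - algebraMap ℚ GA (eps x)) := by
      rw [map_smul, ← Algebra.smul_def, smul_sub, smul_eq_mul, map_mul, ← Algebra.smul_def]
    obtain ⟨G, hG, hG'⟩ := hx
    refine ⟨(Polynomial.C r : Polynomial ℚ) • G, by rw [Finsupp.smul_apply, hG, smul_zero], ?_⟩
    rw [pv_smul, hG', Ev_C, h1, map_mul, mul_assoc]

theorem hasG_EE (c : ℕ →₀ RT) : HasG (EE c) := by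
  induction c using Finsupp.induction_linear with
  | zero => rw [map_zero]; exact HasG.zero
  | add f g hf hg => rw [map_add]; exact hf.add hg
  | single n p =>
    rw [EE_single]
    obtain ⟨y, hy, hp⟩ : ∃ y : GA, eps y = 0 ∧ mk y = cc p := by
      refine NonUnitalAlgebra.adjoin_induction
        (p := fun x _ => ∃ y : GA, eps y = 0 ∧ mk y = x) ?_ ?_ ?_ ?_ ?_ (cc_mem p)
      · have h0 : ∀ b : Bool, ∃ y : GA, eps y = 0 ∧ mk y = gg b := fun b =>
          ⟨ew (FreeMonoid.of b), by
            have := eps_of_mul b 1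
            rwa [mul_one] at this, rfl⟩
        rintro x (rfl | rfl)
        · exact h0 _
        · exact h0 _
      · rintro x y _ _ ⟨a, ha, rfl⟩ ⟨b, hb, rfl⟩
        exact ⟨a + b, by rw [map_add, ha, hb, add_zero], map_add _ _ _⟩
      · exact ⟨0, map_zero _, map_zero _⟩
      · rintro x y _ _ ⟨a, ha, rfl⟩ ⟨b, hb, rfl⟩
        exact ⟨a * b, by rw [map_mul, ha, zero_mul], map_mul _ _ _⟩
      · rintro r x _ ⟨a, ha, rfl⟩
        exact ⟨r • a, by rw [map_smul, ha, smul_zero], rfl⟩
    have h1 := hasG_term y n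
    rw [hy, map_zero, sub_zero] at h1
    change HasG (ff (mk y) * xx ^ n) at h1
    rwa [hp] at h1

theorem left_inv_EE (c : ℕ →₀ RT) : ∃ s : S1, s * (1 - EE c) = 1 := by
  obtain ⟨G, hG, h⟩ := hasG_EE c
  rw [← h]
  exact left_inv qq xx qq_comm qq_kill G hG

theorem quasi (z : SP) : IsQuasiregular z := by
  obtain ⟨c, hc⟩ := z.2
  obtain ⟨s, hs⟩ := left_inv_EE (-c)
  rw [map_neg, sub_neg_eq_add] at hs
  -- `s = 1 + w` with `w` in the ring
  have hw : -(s * EE c) ∈ EE.range := neg_mem (left_mem s c)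
  obtain ⟨c', hc'⟩ := hw
  have hs' : s = 1 - EE (-c') := by
    rw [map_neg, hc', sub_neg_eq_add, ← sub_eq_add_neg, eq_sub_iff_add_eq]
    rw [mul_add, mul_one] at hs
    exact hs
  obtain ⟨t, ht⟩ := left_inv_EE (-c')
  rw [← hs'] at ht
  have h1 : t = 1 + EE c := by
    calc t = t * (s * (1 + EE c)) := by rw [hs, mul_one]
      _ = (t * s) * (1 + EE c) := by rw [mul_assoc]
      _ = 1 + EE c := by rw [ht, one_mul]
  rw [h1] at ht
  rw [isQuasiregular_iff]
  refine ⟨⟨EE c', ⟨c', rfl⟩⟩, ?_, ?_⟩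
  · apply Subtype.ext
    change EE c' + (z : S1) + (z : S1) * EE c' = 0
    rw [← hc]
    have h2 : s = 1 + EE c' := by rw [hs', map_neg, sub_neg_eq_add]
    rw [h2, mul_add, mul_one, add_mul, one_mul] at ht
    have h3 := sub_eq_zero.mpr ht
    rw [← h3]
    abel
  · apply Subtype.ext
    change (z : S1) + EE c' + EE c' * (z : S1) = 0
    rw [← hc]
    have h2 : s = 1 + EE c' := by rw [hs', map_neg, sub_neg_eq_add]
    rw [h2, mul_add, mul_one, add_mul, one_mul] at hs
    have h3 := sub_eq_zero.mpr hs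
    rw [← h3]
    abel

/-- The generators of the ring without identity. -/
noncomputable def gT (b : Bool) : RT := toT (gg b) (gg_mem b)

theorem RT_nontrivial : Nontrivial RT := by
  refine ⟨⟨gT false + gT true, 0, ?_⟩⟩
  intro h
  have h1 : gg false + gg true = 0 := by
    have := congrArg cc h
    rwa [map_add, map_zero, gT, gT, cc_toT, cc_toT] at this
  rw [gg, gg, ← map_add] at h1
  exact aa_not_mem_NI ((mk_eq_zero aa).mp h1)

theorem RT_generated : NonUnitalAlgebra.adjoin ℚ ({gT false, gT true} : Set RT) = ⊤ := by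
  rw [eq_top_iff]
  intro x _
  have key : ∀ (r : RR) (hr : r ∈ RP), toT r hr ∈
      NonUnitalAlgebra.adjoin ℚ ({gT false, gT true} : Set RT) := by
    intro r hr
    refine NonUnitalAlgebra.adjoin_induction (p := fun x hx => toT x hx ∈
      NonUnitalAlgebra.adjoin ℚ ({gT false, gT true} : Set RT)) ?_ ?_ ?_ ?_ ?_ hr
    · rintro x (rfl | rfl)
      · exact NonUnitalAlgebra.subset_adjoin ℚ (Or.inl rfl)
      · exact NonUnitalAlgebra.subset_adjoin ℚ (Or.inr rfl)
    · intro x y _ _ hx hy
      exact add_mem hx hy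
    · exact zero_mem _
    · intro x y _ _ hx hy
      exact mul_mem hx hy
    · intro r x _ hx
      exact SMulMemClass.smul_mem r hx
  exact key (cc x) (cc_mem x)

theorem dP_gT_false : dP (gT false) = gT false := by
  apply cc_inj
  rw [cc_dP, gT, cc_toT, dR_gg]
  change ((1 : ℕ) : ℚ) • gg false = gg false
  rw [Nat.cast_one, one_smul]

theorem dP_gT_true : dP (gT true) = 2 • gT true := by
  apply cc_inj
  rw [cc_dP, map_nsmul, gT, cc_toT, dR_gg]
  change ((2 : ℕ) : ℚ) • gg true = 2 • gg true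
  exact Nat.cast_smul_eq_nsmul ℚ 2 (gg true)

end Pool.Agent.H22
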